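import Mathlib

/-!
# BIN: binomial sums (`d ≥ 1`)

* `bin1`: `(d-p) C(d,p) = d C(d-1,p)`, so the sum is `d ∑_p C(d-1,p) C(d-1,p-1) = d ∑_p C(d-1,p) C(d-1,d-p) = d C(2d-2, d) = (d-1) C(2d-2, d-1)`
  (Vandermonde `Nat.add_choose_eq`; `d C(2d-2,d) = (d-1) C(2d-2,d-1)`).
* `bin2`: `∑_{p=1}^{d-1} C(d,p)^2 = C(2d,d) - 2`.
* `bin3`: `∑_{p=1}^{d-1} C(d,p) C(d-1,p-1) = C(2d-1,d) - 1`, and `2 C(2d-1,d) = C(2d,d)`.
-/

set_option autoImplicit false

open Finset

namespace Pool.Agent.H63.CY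

private theorem BIN_vand (m n k : ℕ) :
    (m + n).choose k = ∑ q ∈ range (k + 1), m.choose q * n.choose (k - q) := by
  rw [Nat.add_choose_eq, Finset.Nat.sum_antidiagonal_eq_sum_range_succ_mk]

private theorem BIN_shift (e : ℕ) (f : ℕ → ℕ) :
    ∑ p ∈ Ico 1 (e + 1), f p = ∑ q ∈ range e, f (q + 1) := by
  rw [Finset.sum_Ico_eq_sum_range]
  refine Finset.sum_congr (by simp) fun q _ => ?_
  rw [add_comm]

theorem bin1 {d : ℕ} (hd : 1 ≤ d) :
    ∑ p ∈ Ico 1 d, (d - p) * d.choose p * (d - 1).choose (p - 1) = (d - 1) * (2 * d - 2).choose (d - 1) := by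
  obtain ⟨e, rfl⟩ : ∃ e, d = e + 1 := ⟨d - 1, by omega⟩
  rw [BIN_shift]
  rcases Nat.eq_zero_or_pos e with rfl | he
  · simp
  obtain ⟨f, rfl⟩ : ∃ f, e = f + 1 := ⟨e - 1, by omega⟩
  have h1 : ∀ q ∈ range (f + 1),
      (f + 1 + 1 - (q + 1)) * (f + 1 + 1).choose (q + 1) * (f + 1 + 1 - 1).choose (q + 1 - 1)
        = (f + 2) * ((f + 1).choose q * (f + 1).choose (f - q)) := by
    intro q hq
    have hq' : q ≤ f := Nat.lt_succ_iff.1 (Finset.mem_range.1 hq)
    have h2 := Nat.choose_mul_succ_eq (f + 1) (q + 1)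
    have h3 : (f + 1).choose (f - q) = (f + 1).choose (q + 1) := by
      apply Nat.choose_symm_of_eq_add
      omega
    have h4 : f + 1 + 1 - 1 = f + 1 := rfl
    have h5 : q + 1 - 1 = q := rfl
    rw [h3, h4, h5]
    calc (f + 1 + 1 - (q + 1)) * (f + 1 + 1).choose (q + 1) * (f + 1).choose q
        = ((f + 1 + 1).choose (q + 1) * (f + 1 + 1 - (q + 1))) * (f + 1).choose q := by ring
      _ = ((f + 1).choose (q + 1) * (f + 1 + 1)) * (f + 1).choose q := by rw [h2]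
      _ = (f + 2) * ((f + 1).choose q * (f + 1).choose (q + 1)) := by ring
  rw [Finset.sum_congr rfl h1, ← Finset.mul_sum, ← BIN_vand]
  have h6 := Nat.choose_succ_right_eq (2 * f + 2) f
  have h7 : 2 * f + 2 - f = f + 2 := by omega
  have h8 : f + 1 + (f + 1) = 2 * f + 2 := by ring
  have h9 : f + 1 + 1 - 1 = f + 1 := rfl
  have h10 : 2 * (f + 1 + 1) - 2 = 2 * f + 2 := by omega
  rw [h7] at h6
  rw [h8, h9, h10]
  linarith

theorem bin2 {d : ℕ} (hd : 1 ≤ d) : ∑ p ∈ Ico 1 d, d.choose p ^ 2 + 2 = (2 * d).choose d := by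
  obtain ⟨e, rfl⟩ : ∃ e, d = e + 1 := ⟨d - 1, by omega⟩
  rw [BIN_shift, two_mul, BIN_vand, Finset.sum_range_succ, Finset.sum_range_succ']
  have h1 : ∑ q ∈ range e, (e + 1).choose (q + 1) ^ 2
      = ∑ q ∈ range e, (e + 1).choose (q + 1) * (e + 1).choose (e + 1 - (q + 1)) := by
    refine Finset.sum_congr rfl fun q hq => ?_
    have hq' : q < e := Finset.mem_range.1 hq
    rw [Nat.choose_symm (by omega), sq]
  rw [h1]
  simp

theorem bin3 {d : ℕ} (hd : 1 ≤ d) : 2 * (∑ p ∈ Ico 1 d, d.choose p * (d - 1).choose (p - 1)) + 2 = (2 * d).choose d := by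
  obtain ⟨e, rfl⟩ : ∃ e, d = e + 1 := ⟨d - 1, by omega⟩
  rw [BIN_shift]
  have h1 : (2 * (e + 1)).choose (e + 1) = 2 * (2 * e + 1).choose e := by
    have h2 : 2 * (e + 1) = 2 * e + 1 + 1 := by ring
    rw [h2, Nat.choose_succ_succ, Nat.choose_symm_half]
    ring
  have h3 : (2 * e + 1).choose e
      = ∑ q ∈ range e, (e + 1).choose (q + 1) * (e + 1 - 1).choose (q + 1 - 1) + 1 := by
    have h4 : 2 * e + 1 = e + (e + 1) := by ring
    rw [h4, BIN_vand, Finset.sum_range_succ]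
    congr 1
    · refine Finset.sum_congr rfl fun q hq => ?_
      have hq' : q < e := Finset.mem_range.1 hq
      have h5 : (e + 1).choose (e - q) = (e + 1).choose (q + 1) := by
        apply Nat.choose_symm_of_eq_add
        omega
      rw [h5]
      have h6 : e + 1 - 1 = e := rfl
      have h7 : q + 1 - 1 = q := rfl
      rw [h6, h7]
      ring
    · simp
  rw [h1, h3]
  ring

end Pool.Agent.H63.CY
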