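import Pool.Agent.H63.CY.Defs

/-!
# BJ: local structures with disjoint tops and bottoms correspond to the reduced structures

`D ↦ δ`, `δ i := #{m : 1 ≤ m ≤ n, D i m}`; inverse `δ ↦ D`, `D i m := 1 ≤ m ∧ m ≤ n ∧ 0 < δ i ∧ δ (i+m) = 0 ∧ z δ i m ≤ δ i`.

(1) `D ∈ LS n d`, `Disj D` ⟹ `δ ∈ TS n d`. `D i m` implies `δ (i+m) = 0` (`Disj`), so `δ i ≤ z δ i n`. Let `a ≥ 1`, `0 < δ (i+a)`. If `a > n`:
 `δ i ≤ z δ i n ≤ z δ i a`. If `a ≤ n`: not `D i a` (`Disj`); the `m < a` with `D i m` are at most `z δ i a`; for `m > a` with `D i m`,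
 `D i (a + (m-a))` gives `D (i+a) (m-a)`, so these are at most `δ (i+a)`.
(2) `δ ∈ TS n d` ⟹ `D ∈ LS n d`, `Disj D`: `D i a` and `D (i+a) c` contradict (`δ (i+a) = 0` and `> 0`). Let `D i (a+c)`, so
 `z δ i (a+c) ≤ δ i`, `δ (i+a+c) = 0`. If `δ (i+a) = 0`: `z δ i a ≤ z δ i (a+c)`, so `D i a`. If `δ (i+a) > 0`: `z δ i (a+c) = z δ i a + z δ (i+a) c`
 and `δ i ≤ z δ i a + δ (i+a)` give `z δ (i+a) c ≤ δ (i+a)`, so `D (i+a) c`.
(3) `D → δ → D`: let `D i m`; then `δ (i+m) = 0`, and for every `m' ≤ m` with `δ (i+m') = 0` also `D i m'` (else `D (i+m') (m-m')`), so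
 `z δ i m ≤ δ i`. Conversely let `1 ≤ m ≤ n`, `δ i > 0`, `δ (i+m) = 0`, `z δ i m ≤ δ i`, but not `D i m`. Then there is no `m'' > m` with `D i m''`
 (else `D i m` or `D (i+m) _`), so all `m'` with `D i m'` are `< m` and `δ i ≤ z δ i (m-1) = z δ i m - 1`, contradiction.
(4) `δ → D → δ`: for `δ i > 0` the number of `m ≤ n` with `δ (i+m) = 0`, `z δ i m ≤ δ i` is `min (δ i) (z δ i n) = δ i` (induction on `n`:
 `#{m ≤ n : δ (i+m) = 0, z δ i m ≤ K} = min K (z δ i n)`).
-/

set_option autoImplicit false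

open Finset

noncomputable section

namespace Pool.Agent.H63.CY


theorem BJ_z_mono {d : ℕ} (δ : ZMod d → ℕ) (i : ZMod d) {m m' : ℕ} (h : m ≤ m') :
    z δ i m ≤ z δ i m' := by
  unfold z
  apply Finset.card_le_card
  apply Finset.filter_subset_filter
  intro x hx
  rw [Finset.mem_range] at hx ⊢
  omega

theorem BJ_z_succ {d : ℕ} (δ : ZMod d → ℕ) (i : ZMod d) (m : ℕ) :
    z δ i (m + 1) = z δ i m + (if δ (i + ((m + 1 : ℕ) : ZMod d)) = 0 then 1 else 0) := by
  unfold z
  rw [Finset.range_add_one, Finset.filter_insert]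
  split_ifs with h
  · rw [Finset.card_insert_of_notMem (by simp)]
  · simp

theorem BJ_z_add {d : ℕ} (δ : ZMod d → ℕ) (i : ZMod d) (a c : ℕ) :
    z δ i (a + c) = z δ i a + z δ (i + a) c := by
  induction c with
  | zero => simp [z]
  | succ c ih =>
    rw [← add_assoc, BJ_z_succ, ih, BJ_z_succ, add_assoc]
    have : i + ((a + c + 1 : ℕ) : ZMod d) = i + (a : ZMod d) + ((c + 1 : ℕ) : ZMod d) := by
      push_cast
      ring
    rw [this]

theorem BJ_count {d : ℕ} (δ : ZMod d → ℕ) (i : ZMod d) (K n : ℕ) :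
    ((range n).filter (fun c : ℕ => δ (i + ((c + 1 : ℕ) : ZMod d)) = 0 ∧ z δ i (c + 1) ≤ K)).card =
      min K (z δ i n) := by
  induction n with
  | zero => simp [z]
  | succ n ih =>
    rw [Finset.range_add_one, Finset.filter_insert]
    by_cases h : δ (i + ((n + 1 : ℕ) : ZMod d)) = 0
    · by_cases h' : z δ i n + 1 ≤ K
      · have h2 : z δ i (n + 1) ≤ K := by
          rw [BJ_z_succ, if_pos h]
          exact h'
        rw [if_pos ⟨h, h2⟩, Finset.card_insert_of_notMem (by simp), ih, BJ_z_succ, if_pos h]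
        omega
      · have h2 : ¬ (z δ i (n + 1) ≤ K) := by
          rw [BJ_z_succ, if_pos h]
          exact h'
        rw [if_neg (fun hh => h2 hh.2), ih, BJ_z_succ, if_pos h]
        omega
    · rw [if_neg (fun hh => h hh.1), ih, BJ_z_succ, if_neg h, add_zero]

/-- the forward map -/
def BJ_f (n d : ℕ) (D : ZMod d → ℕ → Prop) (i : ZMod d) : ℕ := by
  classical
  exact ((range n).filter (fun c : ℕ => D i (c + 1))).card

/-- the backward map -/
def BJ_g (n d : ℕ) (δ : ZMod d → ℕ) (i : ZMod d) (m : ℕ) : Prop :=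
  1 ≤ m ∧ m ≤ n ∧ 0 < δ i ∧ δ (i + m) = 0 ∧ z δ i m ≤ δ i

theorem BJ_f_pos {n d : ℕ} {D : ZMod d → ℕ → Prop} (hD : D ∈ LS n d) {i : ZMod d} {m : ℕ}
    (h : D i m) : 0 < BJ_f n d D i := by
  classical
  have h1 := hD.1 i m h
  unfold BJ_f
  apply Finset.card_pos.mpr
  refine ⟨m - 1, ?_⟩
  rw [Finset.mem_filter, Finset.mem_range]
  refine ⟨by omega, ?_⟩
  rw [Nat.sub_add_cancel h1.1]
  exact h

theorem BJ_f_pos' {n d : ℕ} {D : ZMod d → ℕ → Prop} {i : ZMod d} (h : 0 < BJ_f n d D i) :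
    ∃ m, D i m := by
  classical
  unfold BJ_f at h
  obtain ⟨x, hx⟩ := Finset.card_pos.mp h
  exact ⟨x + 1, (Finset.mem_filter.mp hx).2⟩

theorem BJ_f_zero {n d : ℕ} {D : ZMod d → ℕ → Prop} (hd : Disj D) {i : ZMod d} {m : ℕ}
    (h : D i m) : BJ_f n d D (i + m) = 0 := by
  by_contra hcon
  obtain ⟨c, hc⟩ := BJ_f_pos' (Nat.pos_of_ne_zero hcon)
  exact hd i m c h hc

theorem BJ_one {n d : ℕ} {D : ZMod d → ℕ → Prop} (hD : D ∈ LS n d) (hd : Disj D) :
    BJ_f n d D ∈ TS n d := by
  classical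
  intro i hi
  have h1 : BJ_f n d D i ≤ z (BJ_f n d D) i n := by
    unfold z
    conv_lhs => unfold BJ_f
    apply Finset.card_le_card
    intro c hc
    rw [Finset.mem_filter] at hc ⊢
    exact ⟨hc.1, BJ_f_zero hd hc.2⟩
  refine ⟨h1, ?_⟩
  intro a ha hia
  rcases Nat.lt_or_ge n a with han | han
  · have := BJ_z_mono (BJ_f n d D) i han.le
    omega
  have hDia : ¬ D i a := by
    intro h
    have := BJ_f_zero (n := n) hd h
    omega
  have hsub : (range n).filter (fun c : ℕ => D i (c + 1)) ⊆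
      ((range a).filter (fun c : ℕ => BJ_f n d D (i + ((c + 1 : ℕ) : ZMod d)) = 0)) ∪
      (((range n).filter (fun c : ℕ => D (i + a) (c + 1))).image (fun c => c + a)) := by
    intro c hc
    rw [Finset.mem_filter, Finset.mem_range] at hc
    rw [Finset.mem_union, Finset.mem_filter, Finset.mem_range, Finset.mem_image]
    rcases Nat.lt_or_ge c a with h | h
    · left
      exact ⟨h, BJ_f_zero hd hc.2⟩
    · right
      refine ⟨c - a, ?_, by omega⟩
      rw [Finset.mem_filter, Finset.mem_range]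
      refine ⟨by omega, ?_⟩
      have h2 := (hD.2 i a (c - a + 1) ha (by omega) (by omega)).2
      have h3 : a + (c - a + 1) = c + 1 := by omega
      rw [h3] at h2
      rcases h2 hc.2 with h4 | h4
      · exact absurd h4 hDia
      · exact h4
  have h2 := Finset.card_le_card hsub
  have h3 := h2.trans (Finset.card_union_le _ _)
  have h4 : (((range n).filter (fun c : ℕ => D (i + a) (c + 1))).image (fun c => c + a)).card ≤
      BJ_f n d D (i + a) := by
    unfold BJ_f
    exact Finset.card_image_le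
  have h5 : ((range n).filter (fun c : ℕ => D i (c + 1))).card = BJ_f n d D i := rfl
  have h6 : ((range a).filter (fun c : ℕ => BJ_f n d D (i + ((c + 1 : ℕ) : ZMod d)) = 0)).card =
      z (BJ_f n d D) i a := rfl
  omega

theorem BJ_two {n d : ℕ} {δ : ZMod d → ℕ} (hδ : δ ∈ TS n d) :
    BJ_g n d δ ∈ LS n d ∧ Disj (BJ_g n d δ) := by
  have hdisj : Disj (BJ_g n d δ) := by
    intro i a c h1 h2
    have := h1.2.2.2.1
    have := h2.2.2.1
    omega
  refine ⟨⟨fun i m h => ⟨h.1, h.2.1⟩, ?_⟩, hdisj⟩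
  intro i a c ha hc hac
  refine ⟨fun h => hdisj i a c h.1 h.2, ?_⟩
  intro h
  obtain ⟨h1, h2, h3, h4, h5⟩ := h
  have hz := BJ_z_add δ i a c
  by_cases h6 : δ (i + a) = 0
  · left
    exact ⟨ha, by omega, h3, h6, by omega⟩
  · right
    have h7 := (hδ i h3).2 a ha (Nat.pos_of_ne_zero h6)
    refine ⟨hc, by omega, Nat.pos_of_ne_zero h6, ?_, by omega⟩
    rw [← h4]
    congr 1
    push_cast
    ring

theorem BJ_three {n d : ℕ} {D : ZMod d → ℕ → Prop} (hD : D ∈ LS n d) (hd : Disj D) :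
    BJ_g n d (BJ_f n d D) = D := by
  classical
  funext i m
  apply propext
  constructor
  · rintro ⟨h1, h2, h3, h4, h5⟩
    by_contra hcon
    have hno : ∀ m', D i m' → m' < m := by
      intro m' hm'
      by_contra hlt
      push Not at hlt
      rcases eq_or_lt_of_le hlt with h | h
      · rw [← h] at hm'
        exact hcon hm'
      · have hb := hD.1 i m' hm'
        have h6 := (hD.2 i m (m' - m) h1 (by omega) (by omega)).2
        rw [show m + (m' - m) = m' by omega] at h6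
        rcases h6 hm' with h7 | h7
        · exact hcon h7
        · have := BJ_f_pos hD h7
          omega
    have h6 : BJ_f n d D i ≤ z (BJ_f n d D) i (m - 1) := by
      unfold z
      conv_lhs => unfold BJ_f
      apply Finset.card_le_card
      intro c hc
      rw [Finset.mem_filter, Finset.mem_range] at hc ⊢
      have := hno _ hc.2
      exact ⟨by omega, BJ_f_zero hd hc.2⟩
    have h7 := BJ_z_succ (BJ_f n d D) i (m - 1)
    rw [Nat.sub_add_cancel h1, if_pos h4] at h7
    omega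
  · intro h
    have hb := hD.1 i m h
    refine ⟨hb.1, hb.2, BJ_f_pos hD h, BJ_f_zero hd h, ?_⟩
    unfold z
    conv_rhs => unfold BJ_f
    apply Finset.card_le_card
    intro c hc
    rw [Finset.mem_filter, Finset.mem_range] at hc ⊢
    refine ⟨by omega, ?_⟩
    by_contra hcon
    have hcm : c + 1 ≠ m := by
      intro h'
      rw [h'] at hcon
      exact hcon h
    have h6 := (hD.2 i (c + 1) (m - (c + 1)) (by omega) (by omega) (by omega)).2
    rw [show c + 1 + (m - (c + 1)) = m by omega] at h6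
    rcases h6 h with h7 | h7
    · exact hcon h7
    · have := BJ_f_pos hD h7
      omega

theorem BJ_four {n d : ℕ} {δ : ZMod d → ℕ} (hδ : δ ∈ TS n d) :
    BJ_f n d (BJ_g n d δ) = δ := by
  classical
  funext i
  unfold BJ_f
  rcases Nat.eq_zero_or_pos (δ i) with h | h
  · rw [h, Finset.card_eq_zero, Finset.filter_eq_empty_iff]
    intro c _ hc
    have := hc.2.2.1
    omega
  · have h1 := BJ_count δ i (δ i) n
    have h2 := (hδ i h).1
    rw [min_eq_left h2] at h1
    refine Eq.trans ?_ h1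
    congr 1
    apply Finset.filter_congr
    intro c hc
    rw [Finset.mem_range] at hc
    constructor
    · intro hh
      exact ⟨hh.2.2.2.1, hh.2.2.2.2⟩
    · intro hh
      exact ⟨by omega, by omega, h, hh.1, hh.2⟩

theorem LS_TS (n d : ℕ) : {D ∈ LS n d | Disj D}.ncard = (TS n d).ncard := by
  apply Set.ncard_congr (fun D _ => BJ_f n d D)
  · intro D hD
    exact BJ_one hD.1 hD.2
  · intro D D' hD hD' h
    rw [← BJ_three hD.1 hD.2, ← BJ_three hD'.1 hD'.2, h]
  · intro δ hδ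
    exact ⟨BJ_g n d δ, BJ_two hδ, BJ_four hδ⟩

end Pool.Agent.H63.CY
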