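import Pool.Agent.H63.CY.Defs

/-!
# CTA: the finite set `L0 d p` of normalized counting functions

`V ∈ LF0 d p` is determined by the set `s = {j ∈ [0, d) : V (j+1) = V j + 1}`, which has `p` elements, and every `p`-element subset
occurs: `V i = (i / d) * p + #{j ∈ s : j < i % d}` (`Int.ediv`, `Int.emod`). So `LF0 d p` is finite with `choose d p` elements, and those with
`V 1 = 1` (i.e. `0 ∈ s`) are `choose (d-1) (p-1)`.

`rot c V x = V (x + c) - V c` is a bijection of `LF0 d p` (inverse `rot (-c)`).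
`sum_at`: `∑ V (c+1) = ∑ V c + ∑ (rot c V) 1 = ∑ V c + ∑ V 1`, induction on `c : ℕ`.
-/

set_option autoImplicit false

open Finset

noncomputable section

namespace Pool.Agent.H63.CY

/-- number of elements of `s` below `m` -/
def CTA_cnt (s : Finset ℕ) (m : ℕ) : ℕ := (s.filter (fun j => j < m)).card

theorem CTA_cnt_zero (s : Finset ℕ) : CTA_cnt s 0 = 0 := by
  unfold CTA_cnt
  simp

theorem CTA_cnt_succ (s : Finset ℕ) (m : ℕ) :
    CTA_cnt s (m + 1) = CTA_cnt s m + (if m ∈ s then 1 else 0) := by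
  unfold CTA_cnt
  have h : s.filter (fun j => j < m + 1) = s.filter (fun j => j < m) ∪ s.filter (fun j => j = m) := by
    ext j
    simp only [mem_filter, mem_union]
    constructor
    · rintro ⟨h1, h2⟩
      rcases Nat.lt_succ_iff_lt_or_eq.1 h2 with h3 | h3
      · exact Or.inl ⟨h1, h3⟩
      · exact Or.inr ⟨h1, h3⟩
    · rintro (⟨h1, h2⟩ | ⟨h1, h2⟩)
      · exact ⟨h1, by omega⟩
      · exact ⟨h1, by omega⟩
  rw [h, card_union_of_disjoint]
  · congr 1
    rw [Finset.filter_eq']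
    split_ifs <;> simp
  · rw [Finset.disjoint_left]
    intro j hj hj2
    rw [mem_filter] at hj hj2
    omega

theorem CTA_cnt_top {s : Finset ℕ} {d : ℕ} (hs : s ⊆ range d) : CTA_cnt s d = s.card := by
  unfold CTA_cnt
  congr 1
  apply Finset.filter_true_of_mem
  intro j hj
  exact mem_range.1 (hs hj)

/-- the counting function of the periodic set generated by `s` -/
def CTA_V (d p : ℕ) (s : Finset ℕ) (i : ℤ) : ℤ := (i / d) * p + (CTA_cnt s (i % d).toNat : ℤ)

theorem CTA_V_eq {d p : ℕ} (hd : 1 ≤ d) {s : Finset ℕ} (hs : s ⊆ range d) (hc : s.card = p) (q : ℤ) (m : ℕ)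
    (hm : m ≤ d) : CTA_V d p s (q * d + m) = q * p + CTA_cnt s m := by
  have hd0 : (0 : ℤ) < d := by exact_mod_cast hd
  unfold CTA_V
  rcases Nat.lt_or_ge m d with h | h
  · have h1 : (q * d + m : ℤ) / d = q := by
      rw [add_comm, Int.add_mul_ediv_right _ _ hd0.ne', Int.ediv_eq_zero_of_lt (by positivity) (by exact_mod_cast h)]
      ring
    have h2 : (q * d + m : ℤ) % d = m := by
      rw [add_comm, Int.add_mul_emod_self_right]
      exact Int.emod_eq_of_lt (by positivity) (by exact_mod_cast h)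
    rw [h1, h2]
    simp
  · have hmd : m = d := le_antisymm hm h
    subst hmd
    have h1 : (q * m + m : ℤ) / m = q + 1 := by
      rw [show (q * m + m : ℤ) = (q + 1) * m by ring, Int.mul_ediv_cancel _ hd0.ne']
    have h2 : (q * m + m : ℤ) % m = 0 := by
      rw [show (q * m + m : ℤ) = (q + 1) * m by ring, Int.mul_emod_left]
    rw [h1, h2, CTA_cnt_top hs, hc]
    simp [CTA_cnt_zero]
    ring

theorem CTA_V_nat {d p : ℕ} (hd : 1 ≤ d) {s : Finset ℕ} (hs : s ⊆ range d) (hc : s.card = p) (m : ℕ)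
    (hm : m ≤ d) : CTA_V d p s m = CTA_cnt s m := by
  have := CTA_V_eq hd hs hc 0 m hm
  simpa using this

theorem CTA_exists_qr {d : ℕ} (hd : 1 ≤ d) (i : ℤ) : ∃ q : ℤ, ∃ m : ℕ, m < d ∧ i = q * d + m := by
  have hd0 : (0 : ℤ) < d := by exact_mod_cast hd
  refine ⟨i / d, (i % d).toNat, ?_, ?_⟩
  · have h1 := Int.emod_lt_of_pos i hd0
    have h2 := Int.emod_nonneg i hd0.ne'
    omega
  · have h2 := Int.emod_nonneg i hd0.ne'
    rw [Int.toNat_of_nonneg h2]
    have := Int.emod_add_mul_ediv i d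
    linarith

theorem CTA_V_mem {d p : ℕ} (hd : 1 ≤ d) {s : Finset ℕ} (hs : s ⊆ range d) (hc : s.card = p) :
    CTA_V d p s ∈ LF0 d p := by
  refine ⟨⟨fun i => ?_, fun i => ?_⟩, ?_⟩
  · obtain ⟨q, m, hm, rfl⟩ := CTA_exists_qr hd i
    have h1 := CTA_V_eq hd hs hc q m hm.le
    have h2 := CTA_V_eq hd hs hc q (m + 1) hm
    have h3 : ((q * d + m : ℤ) + 1) = q * d + ((m + 1 : ℕ) : ℤ) := by push_cast; ring
    rw [h3, h1, h2, CTA_cnt_succ]
    push_cast
    split_ifs <;> constructor <;> linarith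
  · obtain ⟨q, m, hm, rfl⟩ := CTA_exists_qr hd i
    have h1 := CTA_V_eq hd hs hc q m hm.le
    have h2 := CTA_V_eq hd hs hc (q + 1) m hm.le
    have h3 : ((q * d + m : ℤ) + d) = (q + 1) * d + m := by ring
    rw [h3, h1, h2]
    ring
  · have := CTA_V_nat hd hs hc 0 (Nat.zero_le d)
    rw [CTA_cnt_zero] at this
    simpa using this

open Classical in
/-- the set of steps of `V` in a period -/
def CTA_s (d : ℕ) (V : ℤ → ℤ) : Finset ℕ := (range d).filter (fun j => V ((j : ℤ) + 1) = V j + 1)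

theorem CTA_s_sub (d : ℕ) (V : ℤ → ℤ) : CTA_s d V ⊆ range d := Finset.filter_subset _ _

theorem CTA_cnt_s {d p : ℕ} {V : ℤ → ℤ} (hV : V ∈ LF0 d p) (m : ℕ) (hm : m ≤ d) :
    V m = CTA_cnt (CTA_s d V) m := by
  induction m with
  | zero => rw [CTA_cnt_zero]; simpa using hV.2
  | succ m ih =>
    have h1 := ih (by omega)
    have h2 := hV.1.1 m
    rw [CTA_cnt_succ]
    have h3 : (((m + 1 : ℕ) : ℤ)) = (m : ℤ) + 1 := by push_cast; ring
    rw [h3]
    push_cast
    rw [← h1]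
    split_ifs with h4
    · have h5 : V ((m : ℤ) + 1) = V m + 1 := (mem_filter.1 h4).2
      rw [h5]
    · have h5 : V ((m : ℤ) + 1) ≠ V m + 1 := by
        intro h6
        exact h4 (mem_filter.2 ⟨mem_range.2 (by omega), h6⟩)
      omega

theorem CTA_s_card {d p : ℕ} {V : ℤ → ℤ} (hV : V ∈ LF0 d p) : (CTA_s d V).card = p := by
  have h1 := CTA_cnt_s hV d le_rfl
  rw [CTA_cnt_top (CTA_s_sub d V)] at h1
  have h2 := hV.1.2 0
  rw [hV.2, zero_add, zero_add] at h2
  rw [h2] at h1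
  exact_mod_cast h1.symm

theorem CTA_per {d p : ℕ} {V : ℤ → ℤ} (hV : V ∈ LF0 d p) (q i : ℤ) : V (q * d + i) = q * p + V i := by
  induction q using Int.induction_on with
  | zero => simp
  | succ k ih =>
    have h1 := hV.1.2 ((k : ℤ) * d + i)
    rw [show ((k : ℤ) + 1) * d + i = (k * d + i) + d by ring, h1, ih]
    ring
  | pred k ih =>
    have h1 := hV.1.2 ((-(k : ℤ) - 1) * d + i)
    rw [show (-(k : ℤ) - 1) * d + i + d = -(k : ℤ) * d + i by ring, ih] at h1
    linarith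

theorem CTA_V_s {d p : ℕ} (hd : 1 ≤ d) {V : ℤ → ℤ} (hV : V ∈ LF0 d p) : CTA_V d p (CTA_s d V) = V := by
  funext i
  obtain ⟨q, m, hm, rfl⟩ := CTA_exists_qr hd i
  rw [CTA_V_eq hd (CTA_s_sub d V) (CTA_s_card hV) q m hm.le, CTA_per hV, CTA_cnt_s hV m hm.le]

theorem CTA_s_V {d p : ℕ} (hd : 1 ≤ d) {s : Finset ℕ} (hs : s ⊆ range d) (hc : s.card = p) :
    CTA_s d (CTA_V d p s) = s := by
  ext j
  unfold CTA_s
  rw [mem_filter, mem_range]
  constructor
  · rintro ⟨h1, h2⟩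
    have h3 := CTA_V_nat hd hs hc j h1.le
    have h4 := CTA_V_nat hd hs hc (j + 1) h1
    have h5 : (((j + 1 : ℕ) : ℤ)) = (j : ℤ) + 1 := by push_cast; ring
    rw [h5, h2, h3, CTA_cnt_succ] at h4
    by_contra hcon
    rw [if_neg hcon] at h4
    push_cast at h4
    omega
  · intro h1
    have hj : j < d := mem_range.1 (hs h1)
    refine ⟨hj, ?_⟩
    have h3 := CTA_V_nat hd hs hc j hj.le
    have h4 := CTA_V_nat hd hs hc (j + 1) hj
    have h5 : (((j + 1 : ℕ) : ℤ)) = (j : ℤ) + 1 := by push_cast; ring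
    rw [h5, CTA_cnt_succ, if_pos h1] at h4
    rw [h3, h4]
    push_cast
    ring

theorem LF0_finite {d : ℕ} (hd : 1 ≤ d) (p : ℕ) : (LF0 d p).Finite := by
  apply Set.Finite.subset (((powersetCard p (range d)).finite_toSet).image (CTA_V d p))
  intro V hV
  refine ⟨CTA_s d V, ?_, CTA_V_s hd hV⟩
  exact mem_coe.2 (mem_powersetCard.2 ⟨CTA_s_sub d V, CTA_s_card hV⟩)

open Classical in
/-- the normalized counting functions as a `Finset` -/
def L0 (d p : ℕ) : Finset (ℤ → ℤ) := if h : (LF0 d p).Finite then h.toFinset else ∅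

theorem mem_L0 {d p : ℕ} (hd : 1 ≤ d) {V : ℤ → ℤ} : V ∈ L0 d p ↔ V ∈ LF0 d p := by
  unfold L0
  rw [dif_pos (LF0_finite hd p)]
  simp

/-- sums over `L0` are sums over the `p`-subsets of `range d` -/
theorem CTA_sum {d : ℕ} (hd : 1 ≤ d) (p : ℕ) (F : (ℤ → ℤ) → ℤ) :
    ∑ V ∈ L0 d p, F V = ∑ s ∈ powersetCard p (range d), F (CTA_V d p s) := by
  symm
  apply Finset.sum_nbij' (i := CTA_V d p) (j := CTA_s d)
  · intro s hs
    obtain ⟨h1, h2⟩ := mem_powersetCard.1 hs
    exact (mem_L0 hd).2 (CTA_V_mem hd h1 h2)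
  · intro V hV
    have hV' := (mem_L0 hd).1 hV
    exact mem_powersetCard.2 ⟨CTA_s_sub d V, CTA_s_card hV'⟩
  · intro s hs
    obtain ⟨h1, h2⟩ := mem_powersetCard.1 hs
    exact CTA_s_V hd h1 h2
  · intro V hV
    exact CTA_V_s hd ((mem_L0 hd).1 hV)
  · intro s _
    rfl

theorem card_L0 {d : ℕ} (hd : 1 ≤ d) (p : ℕ) : (L0 d p).card = d.choose p := by
  have h := CTA_sum hd p (fun _ => 1)
  simp only [sum_const, nsmul_eq_mul, mul_one, card_powersetCard, card_range] at h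
  exact_mod_cast h

theorem sum_one {d p : ℕ} (hd : 1 ≤ d) (hp : 1 ≤ p) : ∑ V ∈ L0 d p, V 1 = ((d - 1).choose (p - 1) : ℤ) := by
  rw [CTA_sum hd p (fun V => V 1)]
  have h1 : ∀ s ∈ powersetCard p (range d), CTA_V d p s 1 = if 0 ∈ s then (1 : ℤ) else 0 := by
    intro s hs
    obtain ⟨h1, h2⟩ := mem_powersetCard.1 hs
    have h3 := CTA_V_nat hd h1 h2 1 hd
    rw [show ((1 : ℕ) : ℤ) = 1 by norm_num] at h3
    rw [h3, show (1 : ℕ) = 0 + 1 by rfl, CTA_cnt_succ, CTA_cnt_zero]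
    push_cast
    ring_nf
  rw [Finset.sum_congr rfl h1, Finset.sum_ite, Finset.sum_const_zero, add_zero, Finset.sum_const, nsmul_eq_mul, mul_one]
  have h2 : ((powersetCard p (range d)).filter (fun s => 0 ∈ s)).card
      + ((powersetCard p (range d)).filter (fun s => ¬ 0 ∈ s)).card = (powersetCard p (range d)).card :=
    Finset.card_filter_add_card_filter_not _
  have h3 : (powersetCard p (range d)).filter (fun s => ¬ 0 ∈ s) = powersetCard p ((range d).erase 0) := by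
    ext s
    rw [mem_filter, mem_powersetCard, mem_powersetCard, Finset.subset_erase]
    tauto
  rw [h3, card_powersetCard, card_powersetCard, card_range, Finset.card_erase_of_mem (mem_range.2 hd), card_range] at h2
  obtain ⟨d', rfl⟩ : ∃ d', d = d' + 1 := ⟨d - 1, by omega⟩
  obtain ⟨p', rfl⟩ : ∃ p', p = p' + 1 := ⟨p - 1, by omega⟩
  simp only [Nat.add_sub_cancel] at h2 ⊢
  rw [Nat.choose_succ_succ, Nat.succ_eq_add_one] at h2
  have h4 : ((powersetCard (p' + 1) (range (d' + 1))).filter (fun s => 0 ∈ s)).card = d'.choose p' := by omega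
  rw [h4]

/-- rotation -/
def rot (c : ℤ) (V : ℤ → ℤ) (x : ℤ) : ℤ := V (x + c) - V c

theorem rot_mem {d p : ℕ} {V : ℤ → ℤ} (hV : V ∈ LF0 d p) (c : ℤ) : rot c V ∈ LF0 d p := by
  refine ⟨⟨fun i => ?_, fun i => ?_⟩, ?_⟩
  · have h1 := hV.1.1 (i + c)
    unfold rot
    rw [show i + 1 + c = i + c + 1 by ring]
    constructor <;> linarith [h1.1, h1.2]
  · have h1 := hV.1.2 (i + c)
    unfold rot
    rw [show i + (d : ℤ) + c = i + c + d by ring, h1]
    ring
  · unfold rot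
    rw [zero_add, sub_self]

theorem CTA_rot_rot {d p : ℕ} {V : ℤ → ℤ} (hV : V ∈ LF0 d p) (c c' : ℤ) (h : c + c' = 0) :
    rot c' (rot c V) = V := by
  funext x
  unfold rot
  rw [show x + c' + c = x by linarith, show c' + c = 0 by linarith, hV.2]
  ring

theorem sum_rot {d p : ℕ} (hd : 1 ≤ d) (c : ℤ) (F : (ℤ → ℤ) → ℤ) : ∑ V ∈ L0 d p, F (rot c V) = ∑ V ∈ L0 d p, F V := by
  apply Finset.sum_nbij' (i := rot c) (j := rot (-c))
  · intro V hV
    exact (mem_L0 hd).2 (rot_mem ((mem_L0 hd).1 hV) c)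
  · intro V hV
    exact (mem_L0 hd).2 (rot_mem ((mem_L0 hd).1 hV) (-c))
  · intro V hV
    exact CTA_rot_rot ((mem_L0 hd).1 hV) c (-c) (by ring)
  · intro V hV
    exact CTA_rot_rot ((mem_L0 hd).1 hV) (-c) c (by ring)
  · intro V _
    rfl

theorem sum_at {d p : ℕ} (hd : 1 ≤ d) (hp : 1 ≤ p) (c : ℕ) : ∑ V ∈ L0 d p, V c = (c : ℤ) * (d - 1).choose (p - 1) := by
  induction c with
  | zero =>
    have h : ∀ V ∈ L0 d p, V ((0 : ℕ) : ℤ) = 0 := fun V hV => by
      simpa using ((mem_L0 hd).1 hV).2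
    rw [Finset.sum_congr rfl h]
    simp
  | succ c ih =>
    have h : ∀ V ∈ L0 d p, V ((c + 1 : ℕ) : ℤ) = V c + rot c V 1 := fun V _ => by
      unfold rot
      rw [show ((c + 1 : ℕ) : ℤ) = 1 + (c : ℤ) by push_cast; ring]
      ring
    rw [Finset.sum_congr rfl h, Finset.sum_add_distrib, ih, sum_rot hd c (fun V => V 1), sum_one hd hp]
    push_cast
    ring

end Pool.Agent.H63.CY
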