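import Pool.Agent.H63.CY.CTA

/-!
# CTB: the number of heights

`mn d f`, `mx d f` are the minimum and maximum of `f` on `[0, d)`; for `d`-periodic `f` and all `h`: `h ≤ mn d f ↔ ∀ i, h ≤ f i`,
`mx d f ≤ h ↔ ∀ i, f i ≤ h`.

`GP_count`: fix `U ∈ L0 d p`. `V ∈ LF d p` is `V = V0 + h` with `V0 ∈ L0 d p`, `h = V 0`. The conditions say `h ≤ f i := U i - V0 (i+1)` and
`g i := U i - V0 (i + n - (U (i+n) - U i)) ≤ h` for all `i` (both `f` and `g` are `d`-periodic), so the number of `h` is `mn f + 1 - mx g`, provided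
that `mx g ≤ mn f + 1`, i.e. `g i ≤ f j + 1` for all `i, j`; by periodicity we may assume `j ≤ i < j + d`; `s := i - j`.
With `x := i + n - (U (i+n) - U i) ≥ i + d - p` (as `n ≥ d` and `m ↦ m - U (i+m)` is monotone) it is enough that
`U i - U j ≤ V0 (i+d-p) - V0 (j+1) + 1`. `U i - U j ≤ s` and `≤ p`. The window from `j+1` to `i+d-p` has length `L = s + d - p - 1 ≥ 0`.
If `L ≥ d`: `V0` increases by at least `p`. If `L < d`: it increases by at least `L - (d-p) = s - 1`.
-/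

set_option autoImplicit false

open Finset

noncomputable section

namespace Pool.Agent.H63.CY

theorem CTB_per {d : ℕ} {f : ℤ → ℤ} (hf : ∀ i, f (i + d) = f i) (i k : ℤ) :
    f (i + k * d) = f i := by
  have h : Function.Periodic f (d : ℤ) := hf
  exact h.int_mul k i

theorem CTB_mod {d : ℕ} {f : ℤ → ℤ} (hf : ∀ i, f (i + d) = f i) (i : ℤ) :
    f (i % d) = f i := by
  have h := CTB_per hf (i % d) (i / d)
  rw [← h]
  congr 1
  rw [mul_comm]
  exact Int.emod_add_mul_ediv i d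

theorem CTB_img {d : ℕ} (f : ℤ → ℤ) : (f '' Set.Ico (0 : ℤ) d).Finite :=
  (Set.finite_Ico _ _).image f

theorem CTB_ne {d : ℕ} (hd : 1 ≤ d) (f : ℤ → ℤ) : (f '' Set.Ico (0 : ℤ) d).Nonempty :=
  ⟨f 0, 0, ⟨le_rfl, by omega⟩, rfl⟩

theorem le_mn {d : ℕ} (hd : 1 ≤ d) {f : ℤ → ℤ} (hf : ∀ i, f (i + d) = f i) (h : ℤ) : h ≤ mn d f ↔ ∀ i, h ≤ f i := by
  unfold mn
  rw [le_csInf_iff (CTB_img f).bddBelow (CTB_ne hd f)]
  constructor
  · intro H i
    rw [← CTB_mod hf i]
    have hd' : (0 : ℤ) < d := by omega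
    exact H _ ⟨i % d, ⟨Int.emod_nonneg _ hd'.ne', Int.emod_lt_of_pos _ hd'⟩, rfl⟩
  · rintro H _ ⟨i, -, rfl⟩
    exact H i

theorem mx_le {d : ℕ} (hd : 1 ≤ d) {f : ℤ → ℤ} (hf : ∀ i, f (i + d) = f i) (h : ℤ) : mx d f ≤ h ↔ ∀ i, f i ≤ h := by
  unfold mx
  rw [csSup_le_iff (CTB_img f).bddAbove (CTB_ne hd f)]
  constructor
  · intro H i
    rw [← CTB_mod hf i]
    have hd' : (0 : ℤ) < d := by omega
    exact H _ ⟨i % d, ⟨Int.emod_nonneg _ hd'.ne', Int.emod_lt_of_pos _ hd'⟩, rfl⟩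
  · rintro H _ ⟨i, -, rfl⟩
    exact H i

theorem CTB_mono {d p : ℕ} {V : ℤ → ℤ} (hV : V ∈ LF d p) {a b : ℤ} (h : a ≤ b) :
    V a ≤ V b ∧ V b ≤ V a + (b - a) := by
  induction b, h using Int.le_induction with
  | base => simp
  | succ b hab ih =>
    have h1 := hV.1 b
    constructor
    · linarith [ih.1]
    · linarith [ih.2]

/-- the key inequality -/
theorem CTB_key {n d p : ℕ} (hd : 1 ≤ d) (hn : d ≤ n) (hp' : p + 1 ≤ d) {U V : ℤ → ℤ}
    (hU : U ∈ LF d p) (hV : V ∈ LF d p) {i j : ℤ} (hji : j ≤ i) (hij : i < j + d) :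
    U i - V (i + n - (U (i + n) - U i)) ≤ U j - V (j + 1) + 1 := by
  have hUd : ∀ a, U (a + d) = U a + p := hU.2
  have hVd : ∀ a, V (a + d) = V a + p := hV.2
  -- the point
  have h1 : U (i + n) ≤ U (i + d) + ((i + n) - (i + d)) :=
    (CTB_mono hU (by omega : i + (d : ℤ) ≤ i + n)).2
  rw [hUd i] at h1
  have h2 : i + d - p ≤ i + n - (U (i + n) - U i) := by linarith
  have h3 := (CTB_mono hV h2).1
  have h4 := CTB_mono hU hji
  have h5 := (CTB_mono hU hij.le).1
  rw [hUd j] at h5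
  rcases le_or_gt (j + 1 + d) (i + d - p) with h6 | h6
  · have h7 := (CTB_mono hV h6).1
    rw [hVd (j + 1)] at h7
    linarith
  · have h7 := (CTB_mono hV h6.le).2
    rw [hVd (j + 1)] at h7
    linarith [h4.2]

theorem CTB_pf {d p : ℕ} {U V : ℤ → ℤ} (hU : U ∈ LF d p) (hV : V ∈ LF d p) (i : ℤ) :
    (fun i => U i - V (i + 1)) (i + d) = (fun i => U i - V (i + 1)) i := by
  show U (i + d) - V (i + d + 1) = U i - V (i + 1)
  have h1 : i + (d : ℤ) + 1 = i + 1 + d := by ring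
  rw [h1, hU.2, hV.2]
  ring

theorem CTB_pg {n d p : ℕ} {U V : ℤ → ℤ} (hU : U ∈ LF d p) (hV : V ∈ LF d p) (i : ℤ) :
    (fun i => U i - V (i + n - (U (i + n) - U i))) (i + d) =
      (fun i => U i - V (i + n - (U (i + n) - U i))) i := by
  show U (i + d) - V (i + d + n - (U (i + d + n) - U (i + d))) =
    U i - V (i + n - (U (i + n) - U i))
  have h1 : i + (d : ℤ) + n = i + n + d := by ring
  have h2 : i + (n : ℤ) + d - (U (i + n) + p - (U i + p)) = (i + n - (U (i + n) - U i)) + d := by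
    ring
  rw [h1, hU.2, hU.2, h2, hV.2]
  ring

theorem CTB_le {n d p : ℕ} (hd : 1 ≤ d) (hn : d ≤ n) (hp' : p + 1 ≤ d) {U V : ℤ → ℤ}
    (hU : U ∈ LF d p) (hV : V ∈ LF d p) :
    mx d (fun i => U i - V (i + n - (U (i + n) - U i))) ≤ mn d (fun i => U i - V (i + 1)) + 1 := by
  rw [mx_le hd (CTB_pg hU hV)]
  intro i
  have h0 : U i - V (i + n - (U (i + n) - U i)) - 1 ≤ mn d (fun i => U i - V (i + 1)) := by
    rw [le_mn hd (CTB_pf hU hV)]
    intro j
    have hd' : (0 : ℤ) < d := by omega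
    have h1 := CTB_per (f := fun i => U i - V (i + 1)) (CTB_pf hU hV) j ((i - j) / d)
    have h2 := Int.emod_add_mul_ediv (i - j) d
    have h3 := Int.emod_nonneg (i - j) hd'.ne'
    have h4 := Int.emod_lt_of_pos (i - j) hd'
    have h5 : j + (i - j) / d * d ≤ i := by
      rw [mul_comm]
      linarith
    have h6 : i < j + (i - j) / d * d + d := by
      rw [mul_comm ((i - j) / d)]
      linarith
    have h7 := CTB_key hd hn hp' hU hV h5 h6
    have h8 : U (j + (i - j) / d * d) - V (j + (i - j) / d * d + 1) = U j - V (j + 1) := h1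
    linarith
  show U i - V (i + n - (U (i + n) - U i)) ≤ _
  linarith

theorem GP_count {n d p : ℕ} (hd : 1 ≤ d) (hn : d ≤ n) (hp : 1 ≤ p) (hp' : p + 1 ≤ d) :
    ((GP n d p).ncard : ℤ) = ∑ U ∈ L0 d p, ∑ V ∈ L0 d p,
      (mn d (fun i => U i - V (i + 1)) + 1 - mx d (fun i => U i - V (i + n - (U (i + n) - U i)))) := by
  have _ := hp
  classical
  set B : Finset (Σ _ : (ℤ → ℤ) × (ℤ → ℤ), ℤ) := (L0 d p ×ˢ L0 d p).sigma
    (fun q => Finset.Icc (mx d (fun i => q.1 i - q.2 (i + n - (q.1 (i + n) - q.1 i))))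
      (mn d (fun i => q.1 i - q.2 (i + 1)))) with hB
  set φ : (Σ _ : (ℤ → ℤ) × (ℤ → ℤ), ℤ) → (ℤ → ℤ) × (ℤ → ℤ) :=
    fun t => (t.1.1, fun x => t.1.2 x + t.2) with hφ
  have hinj : Set.InjOn φ (B : Set (Σ _ : (ℤ → ℤ) × (ℤ → ℤ), ℤ)) := by
    rintro ⟨⟨U, V⟩, h⟩ h1 ⟨⟨U', V'⟩, h'⟩ h2 h3
    rw [Finset.mem_coe, hB, Finset.mem_sigma, Finset.mem_product] at h1 h2
    have hV0 : V 0 = 0 := ((mem_L0 hd).1 h1.1.2).2
    have hV0' : V' 0 = 0 := ((mem_L0 hd).1 h2.1.2).2
    rw [hφ] at h3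
    simp only [Prod.mk.injEq] at h3
    obtain ⟨h4, h5⟩ := h3
    have h6 := congrFun h5 0
    simp only [hV0, hV0', zero_add] at h6
    subst h6
    subst h4
    have h7 : V = V' := by
      funext x
      have h8 : V x + h = V' x + h := congrFun h5 x
      linarith
    subst h7
    rfl
  have himg : GP n d p = ↑(B.image φ) := by
    ext ⟨U, W⟩
    rw [Finset.coe_image]
    constructor
    · rintro ⟨hU, hW, hc⟩
      have hV : (fun x => W x - W 0) ∈ LF d p := by
        refine ⟨fun i => ?_, fun i => ?_⟩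
        · have := hW.1 i
          constructor
          · linarith [this.1]
          · linarith [this.2]
        · have := hW.2 i
          show W (i + d) - W 0 = W i - W 0 + p
          linarith
      have hV0 : (fun x => W x - W 0) ∈ LF0 d p := ⟨hV, by simp⟩
      refine ⟨⟨(U, fun x => W x - W 0), W 0⟩, ?_, ?_⟩
      · rw [Finset.mem_coe, hB, Finset.mem_sigma, Finset.mem_product, Finset.mem_Icc]
        refine ⟨⟨(mem_L0 hd).2 hU, (mem_L0 hd).2 hV0⟩, ?_, ?_⟩
        · rw [mx_le hd (CTB_pg hU.1 hV)]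
          intro i
          have := (hc i).2
          show U i - (W (i + n - (U (i + n) - U i)) - W 0) ≤ W 0
          have h9 : U i ≤ W (i + n - (U (i + n) - U i)) := this
          linarith
        · rw [le_mn hd (CTB_pf hU.1 hV)]
          intro i
          have := (hc i).1
          show W 0 ≤ U i - (W (i + 1) - W 0)
          have h9 : W (i + 1) ≤ U i := this
          linarith
      · rw [hφ]
        simp
    · rintro ⟨⟨⟨U', V⟩, h⟩, h1, h2⟩
      rw [Finset.mem_coe, hB, Finset.mem_sigma, Finset.mem_product, Finset.mem_Icc] at h1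
      obtain ⟨⟨h3, h4⟩, h5, h6⟩ := h1
      have hU := (mem_L0 hd).1 h3
      have hV := (mem_L0 hd).1 h4
      rw [hφ] at h2
      simp only [Prod.mk.injEq] at h2
      obtain ⟨rfl, rfl⟩ := h2
      refine ⟨hU, ⟨fun i => ?_, fun i => ?_⟩, fun i => ⟨?_, ?_⟩⟩
      · have := hV.1.1 i
        constructor
        · show V i + h ≤ V (i + 1) + h
          have h9 : V i ≤ V (i + 1) := this.1
          linarith
        · show V (i + 1) + h ≤ V i + h + 1
          have h9 : V (i + 1) ≤ V i + 1 := this.2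
          linarith
      · have : V (i + d) = V i + p := hV.1.2 i
        show V (i + d) + h = V i + h + p
        linarith
      · rw [le_mn hd (CTB_pf hU.1 hV.1)] at h6
        have h9 : h ≤ U' i - V (i + 1) := h6 i
        show V (i + 1) + h ≤ U' i
        linarith
      · rw [mx_le hd (CTB_pg hU.1 hV.1)] at h5
        have h9 : U' i - V (i + n - (U' (i + n) - U' i)) ≤ h := h5 i
        show U' i ≤ V (i + n - (U' (i + n) - U' i)) + h
        linarith
  rw [himg, Set.ncard_coe_finset, Finset.card_image_of_injOn hinj, hB, Finset.card_sigma,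
    Finset.sum_product, Nat.cast_sum]
  refine Finset.sum_congr rfl fun U hU => ?_
  rw [Nat.cast_sum]
  refine Finset.sum_congr rfl fun V hV => ?_
  rw [Int.card_Icc, Int.toNat_of_nonneg]
  have := CTB_le hd hn hp' ((mem_L0 hd).1 hU).1 ((mem_L0 hd).1 hV).1
  show 0 ≤ mn d (fun i => U i - V (i + 1)) + 1 - mx d (fun i => U i - V (i + n - (U (i + n) - U i)))
  linarith

end Pool.Agent.H63.CY
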