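import Pool.Agent.H63.CY.CTB

/-!
# CTC: the recurrence in `n` and the value at `n = d`

* `mn_sub`, `mx_sub`: constants can be taken out. `mx_neg`: `mx d (fun i => - f i) = - mn d f`.
* `GP_rec`: with `x_i = i + n - (U (i+n) - U i)`: `i + (n+d) - (U (i+n+d) - U i) = x_i + (d-p)`, and
  `V (x_i + (d-p)) = V (d-p) + rot (d-p) V x_i`. So the second term for `n+d` is `mx (U i - rot V (x_i)) - V (d-p)`; sum over `V` by `sum_rot` and
  `sum_at`; sum over `U` by `card_L0`.
* `GP_d`: `n = d`: `x_i = i + (d-p)`. `mn (U i - V (i+1)) = mn (U - rot 1 V) - V 1`, `mx (U i - V (i+d-p)) = mx (U - rot (d-p) V) - V (d-p)`,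
  `∑∑ mx (U - V) = - ∑∑ mn (V - U) = - M d p` (swap the names).
-/

set_option autoImplicit false

open Finset

noncomputable section

namespace Pool.Agent.H63.CY

/-- sum of the minima of `U - V` -/
def MM (d p : ℕ) : ℤ := ∑ U ∈ L0 d p, ∑ V ∈ L0 d p, mn d (fun i => U i - V i)

theorem CTC_mn_sub {d : ℕ} (hd : 1 ≤ d) {f : ℤ → ℤ} (hf : ∀ i, f (i + d) = f i) (c : ℤ) :
    mn d (fun i => f i - c) = mn d f - c := by
  apply eq_of_forall_le_iff
  intro h
  rw [le_mn hd (by intro i; simp only [hf])]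
  have h1 := le_mn hd hf (h + c)
  constructor
  · intro h2
    have := h1.2 (fun i => by have := h2 i; linarith)
    linarith
  · intro h2 i
    have := h1.1 (by linarith) i
    linarith

theorem CTC_mx_sub {d : ℕ} (hd : 1 ≤ d) {f : ℤ → ℤ} (hf : ∀ i, f (i + d) = f i) (c : ℤ) :
    mx d (fun i => f i - c) = mx d f - c := by
  apply eq_of_forall_ge_iff
  intro h
  rw [mx_le hd (by intro i; simp only [hf])]
  have h1 := mx_le hd hf (h + c)
  constructor
  · intro h2
    have := h1.2 (fun i => by have := h2 i; linarith)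
    linarith
  · intro h2 i
    have := h1.1 (by linarith) i
    linarith

theorem CTC_mx_neg {d : ℕ} (hd : 1 ≤ d) {f : ℤ → ℤ} (hf : ∀ i, f (i + d) = f i) :
    mx d (fun i => - f i) = - mn d f := by
  apply eq_of_forall_ge_iff
  intro h
  rw [mx_le hd (by intro i; simp only [hf])]
  have h1 := le_mn hd hf (-h)
  constructor
  · intro h2
    have := h1.2 (fun i => by have := h2 i; linarith)
    linarith
  · intro h2 i
    have := h1.1 (by linarith) i
    linarith

/-- the position of the value which is `n` further -/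
def CTC_x (n : ℤ) (U : ℤ → ℤ) (i : ℤ) : ℤ := i + n - (U (i + n) - U i)

theorem CTC_per {d p : ℕ} (n : ℤ) {U V : ℤ → ℤ} (hU : U ∈ LF0 d p) (hV : V ∈ LF0 d p) (i : ℤ) :
    U (i + d) - V (CTC_x n U (i + d)) = U i - V (CTC_x n U i) := by
  have h1 := hU.1.2 i
  have h2 := hU.1.2 (i + n)
  have h3 : i + (d : ℤ) + n = i + n + d := by ring
  have h4 : CTC_x n U (i + d) = CTC_x n U i + d := by
    unfold CTC_x
    rw [h3, h1, h2]
    ring
  rw [h4, hV.1.2, h1]
  ring

theorem CTC_per1 {d p : ℕ} {U V : ℤ → ℤ} (hU : U ∈ LF0 d p) (hV : V ∈ LF0 d p) (c : ℤ) (i : ℤ) :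
    U (i + d) - V (i + d + c) = U i - V (i + c) := by
  have h1 := hU.1.2 i
  have h2 := hV.1.2 (i + c)
  have h3 : i + (d : ℤ) + c = i + c + d := by ring
  rw [h3, h1, h2]
  ring

theorem CTC_per0 {d p : ℕ} {U V : ℤ → ℤ} (hU : U ∈ LF0 d p) (hV : V ∈ LF0 d p) (i : ℤ) :
    U (i + d) - V (i + d) = U i - V i := by
  have := CTC_per1 hU hV 0 i
  simpa using this

theorem GP_rec {n d p : ℕ} (hd : 1 ≤ d) (hn : d ≤ n) (hp : 1 ≤ p) (hp' : p + 1 ≤ d) :
    (GP (n + d) d p).ncard = (GP n d p).ncard + (d - p) * d.choose p * (d - 1).choose (p - 1) := by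
  have h1 := GP_count (n := n + d) (d := d) (p := p) hd (by omega) hp hp'
  have h2 := GP_count (n := n) (d := d) (p := p) hd hn hp hp'
  -- the term of `n + d`
  have key : ∀ U ∈ L0 d p, ∑ V ∈ L0 d p,
      (mn d (fun i => U i - V (i + 1)) + 1 -
        mx d (fun i => U i - V (i + ((n + d : ℕ) : ℤ) - (U (i + ((n + d : ℕ) : ℤ)) - U i)))) =
      ∑ V ∈ L0 d p,
      (mn d (fun i => U i - V (i + 1)) + 1 - mx d (fun i => U i - V (i + n - (U (i + n) - U i)))) +
      ((d : ℤ) - p) * (d - 1).choose (p - 1) := by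
    intro U hU
    have hU' := (mem_L0 hd).1 hU
    have e1 : ∀ V ∈ L0 d p,
        mx d (fun i => U i - V (i + ((n + d : ℕ) : ℤ) - (U (i + ((n + d : ℕ) : ℤ)) - U i))) =
        mx d (fun i => U i - (rot ((d - p : ℕ) : ℤ) V) (CTC_x n U i)) - V ((d - p : ℕ) : ℤ) := by
      intro V hV
      have hV' := (mem_L0 hd).1 hV
      rw [← CTC_mx_sub hd (CTC_per (n : ℤ) hU' (rot_mem hV' _))]
      congr 1
      funext i
      have h3 := hU'.1.2 (i + n)
      have h4 : i + ((n + d : ℕ) : ℤ) = i + n + d := by push_cast; ring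
      rw [h4, h3]
      have h5 : i + (n : ℤ) + d - (U (i + n) + p - U i) = CTC_x n U i + ((d - p : ℕ) : ℤ) := by
        rw [Nat.cast_sub (by omega)]
        unfold CTC_x
        ring
      rw [h5]
      unfold rot
      ring
    have e2 := sum_rot (p := p) hd ((d - p : ℕ) : ℤ)
      (fun V => mx d (fun i => U i - V (CTC_x n U i)))
    have e3 := sum_at (p := p) hd hp (d - p)
    rw [Finset.sum_sub_distrib, Finset.sum_congr rfl e1, Finset.sum_sub_distrib, e2, e3,
      Finset.sum_sub_distrib, Nat.cast_sub (by omega)]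
    unfold CTC_x
    ring
  rw [Finset.sum_congr rfl key, Finset.sum_add_distrib, ← h2, Finset.sum_const, card_L0 hd,
    nsmul_eq_mul] at h1
  have h3 : ((GP (n + d) d p).ncard : ℤ) =
      (((GP n d p).ncard + (d - p) * d.choose p * (d - 1).choose (p - 1) : ℕ) : ℤ) := by
    rw [h1]
    push_cast
    rw [Nat.cast_sub (by omega)]
    ring
  exact_mod_cast h3

theorem GP_d {d p : ℕ} (hp : 1 ≤ p) (hp' : p + 1 ≤ d) :
    ((GP d d p).ncard : ℤ) = (d.choose p : ℤ) ^ 2 + 2 * MM d p +
      ((d : ℤ) - p - 1) * d.choose p * (d - 1).choose (p - 1) := by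
  have hd : 1 ≤ d := by omega
  have h1 := GP_count (n := d) (d := d) (p := p) hd le_rfl hp hp'
  have key : ∀ U ∈ L0 d p, ∑ V ∈ L0 d p,
      (mn d (fun i => U i - V (i + 1)) + 1 -
        mx d (fun i => U i - V (i + (d : ℤ) - (U (i + (d : ℤ)) - U i)))) =
      ∑ V ∈ L0 d p, mn d (fun i => U i - V i) + d.choose p + ∑ V ∈ L0 d p, mn d (fun i => V i - U i) +
        ((d : ℤ) - p - 1) * (d - 1).choose (p - 1) := by
    intro U hU
    have hU' := (mem_L0 hd).1 hU
    have e1 : ∀ V ∈ L0 d p, mn d (fun i => U i - V (i + 1)) =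
        mn d (fun i => U i - (rot 1 V) i) - V 1 := by
      intro V hV
      have hV' := (mem_L0 hd).1 hV
      rw [← CTC_mn_sub hd (CTC_per0 hU' (rot_mem hV' _))]
      congr 1
      funext i
      unfold rot
      ring
    have e2 : ∀ V ∈ L0 d p,
        mx d (fun i => U i - V (i + (d : ℤ) - (U (i + (d : ℤ)) - U i))) =
        - mn d (fun i => (rot ((d - p : ℕ) : ℤ) V) i - U i) - V ((d - p : ℕ) : ℤ) := by
      intro V hV
      have hV' := (mem_L0 hd).1 hV
      rw [← CTC_mx_neg hd (CTC_per0 (rot_mem hV' _) hU'), ← CTC_mx_sub hd (by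
        intro i
        have := CTC_per0 (rot_mem hV' ((d - p : ℕ) : ℤ)) hU' i
        linarith)]
      congr 1
      funext i
      rw [hU'.1.2 i]
      have h5 : i + (d : ℤ) - (U i + p - U i) = i + ((d - p : ℕ) : ℤ) := by
        rw [Nat.cast_sub (by omega)]
        ring
      rw [h5]
      unfold rot
      ring
    have r1 := sum_rot (p := p) hd 1 (fun V => mn d (fun i => U i - V i))
    have r2 := sum_rot (p := p) hd ((d - p : ℕ) : ℤ) (fun V => mn d (fun i => V i - U i))
    have e3 := sum_at (p := p) hd hp (d - p)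
    have e4 := sum_one (p := p) hd hp
    rw [Finset.sum_sub_distrib, Finset.sum_add_distrib, Finset.sum_congr rfl e1,
      Finset.sum_congr rfl e2, Finset.sum_sub_distrib, Finset.sum_sub_distrib,
      Finset.sum_neg_distrib, r1, r2, e3, e4, Finset.sum_const, card_L0 hd,
      Nat.cast_sub (by omega)]
    simp only [nsmul_eq_mul, mul_one]
    ring
  rw [h1, Finset.sum_congr rfl key, Finset.sum_add_distrib, Finset.sum_add_distrib,
    Finset.sum_add_distrib, Finset.sum_const, Finset.sum_const, card_L0 hd,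
    Finset.sum_comm (s := L0 d p) (t := L0 d p) (f := fun U V => mn d (fun i => V i - U i))]
  unfold MM
  simp only [nsmul_eq_mul]
  ring

end Pool.Agent.H63.CY
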