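import Mathlib

/-!
# Closed walks in the graph of overlapping 321-avoiding permutations: definitions

`W n d` is the number of closed walks of length `d` in `G(n, 321)` (`W_d(n)` of the problem MP_26d62f_co).
Overview: /team-store/H63_26d62f.md
-/

set_option autoImplicit false

open Finset

noncomputable section

namespace Pool.Agent.H63.CY

/-- `σ` avoids the pattern 321 -/
def Av321 {m : ℕ} (σ : Equiv.Perm (Fin m)) : Prop :=
  ∀ i j k : Fin m, i < j → j < k → ¬ (σ k < σ j ∧ σ j < σ i)

/-- standardization of a word with distinct entries: `std x i` is the number of entries smaller than `x i` -/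
def std {m k : ℕ} (x : Fin m → Fin k) (i : Fin m) : ℕ := (univ.filter (fun j => x j < x i)).card

/-- closed walks of length `d` in `G(n, 321)`: `e i` is the label of the `i`-th edge, a 321-avoiding permutation of size `n + 1`;
the head of `e i` (standardization of its last `n` entries) is the tail of `e (i + 1)` (standardization of its first `n` entries);
indices mod `d` -/
def CW (n d : ℕ) : Set (ZMod d → Equiv.Perm (Fin (n + 1))) :=
  {e | ∀ i, Av321 (e i) ∧ std (fun a : Fin n => e i a.succ) = std (fun a : Fin n => e (i + 1) a.castSucc)}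

/-- number of closed walks of length `d` in `G(n, 321)` -/
def W (n d : ℕ) : ℕ := (CW n d).ncard

/-! ## local structures -/

/-- local structures: `D i m` means `x_i > x_{i+m}` (`1 ≤ m ≤ n`) for a `d`-periodic family of local orders -/
def LS (n d : ℕ) : Set (ZMod d → ℕ → Prop) :=
  {D | (∀ i m, D i m → 1 ≤ m ∧ m ≤ n) ∧
    ∀ (i : ZMod d) (a c : ℕ), 1 ≤ a → 1 ≤ c → a + c ≤ n →
      ¬ (D i a ∧ D (i + a) c) ∧ (D i (a + c) → D i a ∨ D (i + a) c)}

/-- no position is at the same time the bottom and the top of a visible inversion -/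
def Disj {d : ℕ} (D : ZMod d → ℕ → Prop) : Prop := ∀ (i : ZMod d) (a c : ℕ), D i a → ¬ D (i + a) c

/-! ## the reduced structures -/

/-- number of zeros of `δ` among the `m` positions after `i` -/
def z {d : ℕ} (δ : ZMod d → ℕ) (i : ZMod d) (m : ℕ) : ℕ := ((range m).filter (fun c : ℕ => δ (i + ((c + 1 : ℕ) : ZMod d)) = 0)).card

/-- reduced structures: `δ i` is the number of inversions with top `i` -/
def TS (n d : ℕ) : Set (ZMod d → ℕ) :=
  {δ | ∀ i, 0 < δ i → δ i ≤ z δ i n ∧ ∀ a : ℕ, 1 ≤ a → 0 < δ (i + a) → δ i ≤ z δ i a + δ (i + a)}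

/-! ## counting functions -/

/-- counting functions of `d`-periodic sets with `p` elements in a period -/
def LF (d p : ℕ) : Set (ℤ → ℤ) :=
  {U | (∀ i, U i ≤ U (i + 1) ∧ U (i + 1) ≤ U i + 1) ∧ ∀ i, U (i + d) = U i + p}

/-- normalized counting functions -/
def LF0 (d p : ℕ) : Set (ℤ → ℤ) := {U | U ∈ LF d p ∧ U 0 = 0}

/-- pairs of counting functions (positions and values of the tops) -/
def GP (n d p : ℕ) : Set ((ℤ → ℤ) × (ℤ → ℤ)) :=
  {P | P.1 ∈ LF0 d p ∧ P.2 ∈ LF d p ∧ ∀ i : ℤ, P.2 (i + 1) ≤ P.1 i ∧ P.1 i ≤ P.2 (i + n - (P.1 (i + n) - P.1 i))}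

/-- minimum over a period -/
def mn (d : ℕ) (f : ℤ → ℤ) : ℤ := sInf (f '' Set.Ico (0 : ℤ) d)

/-- maximum over a period -/
def mx (d : ℕ) (f : ℤ → ℤ) : ℤ := sSup (f '' Set.Ico (0 : ℤ) d)

end Pool.Agent.H63.CY
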