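import Pool.Agent.H63.CY.SRB

/-!
# SRC: counting monotone functions

* `bal d k`: number of monotone `f : Fin d → ℕ` with `f j ≤ j` and all values `≤ k`. For `k ≤ d`: `bal d k + C(d+k, k-1) = C(d+k, k)` (with
  `C(d, -1) = 0` for `k = 0`), by induction on `d` and `k`: `bal (d+1) k = bal (d+1) (k-1) + bal d k` for `1 ≤ k ≤ d` (the last value is `< k` or `= k`),
  `bal (d+1) (d+1) = bal (d+1) d`, `bal d 0 = 1`. So the number of monotone `f : Fin d → ℕ` with `f j ≤ j` is `bal d d = C(2d, d) - C(2d, d-1) = catalan d`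
  (`catalan_eq_centralBinom_div`, `succ_mul_catalan_eq_centralBinom`). (Or any other proof, e.g. the Catalan recursion.)
* `RN_card0`: `n = d - 1`: `f j ≤ j - 1` for `1 ≤ j ≤ d`: functions on `Fin d` (shift by 1): `catalan d`.
  `n = d`: `f j ≤ j`: functions on `Fin (d+1)`, with value `0` at `0`: `catalan (d+1)`.
* `RN_card1`: `f ∈ RN n d` with `f (f d) = 0`: either `f d = 0` (then `f = 0`: one function), or `f d = r`, `1 ≤ r ≤ d - 1` (`r = d` is impossible: then
  `n = d` and `f (f d) = f d = d`), `f r = 0`, so `f = 0` on `[1, r]`, and `f` on `[r+1, d-1]` is any monotone function with values in `[0, r]`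
  (the bound `f j ≤ j - (d-n)` is automatic for `j > r`): `C(d-1, r)` functions (monotone functions from `d-1-r` points to `r+1` values:
  multisets, `Sym.card_sym_eq_choose` or induction). Total `1 + ∑_{r=1}^{d-1} C(d-1, r) = 2^(d-1)`.
-/

set_option autoImplicit false

open Finset

noncomputable section

namespace Pool.Agent.H63.CY

/-- functions supported in `[1, d]`, nondecreasing there, bounded by `u` and by `k` -/
def SRC_S (u : ℕ → ℕ) (d k : ℕ) : Set (ℕ → ℕ) :=
  {f | (∀ j, j = 0 ∨ d < j → f j = 0) ∧ (∀ i j, 1 ≤ i → i ≤ j → j ≤ d → f i ≤ f j) ∧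
    (∀ j, 1 ≤ j → j ≤ d → f j ≤ u j) ∧ ∀ j, 1 ≤ j → j ≤ d → f j ≤ k}

theorem SRC_peel (u : ℕ → ℕ) (d K v : ℕ) (hK : v ≤ K) (hu : v ≤ u (d + 1)) :
    {f ∈ SRC_S u (d + 1) K | f (d + 1) = v} = (fun g => Function.update g (d + 1) v) '' SRC_S u d v := by
  ext f
  constructor
  · rintro ⟨⟨h0, hm, hu', hk⟩, hv⟩
    refine ⟨Function.update f (d + 1) 0, ⟨?_, ?_, ?_, ?_⟩, ?_⟩
    · intro j hj
      by_cases h : j = d + 1
      · rw [h, Function.update_self]
      · rw [Function.update_of_ne h]
        exact h0 j (by omega)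
    · intro a b ha hab hb
      rw [Function.update_of_ne (by omega), Function.update_of_ne (by omega)]
      exact hm a b ha hab (by omega)
    · intro j hj1 hj2
      rw [Function.update_of_ne (by omega)]
      exact hu' j hj1 (by omega)
    · intro j hj1 hj2
      rw [Function.update_of_ne (by omega), ← hv]
      exact hm j (d + 1) hj1 (by omega) le_rfl
    · funext j
      by_cases h : j = d + 1
      · rw [h]
        simp only [Function.update_self, hv]
      · simp only [Function.update_of_ne h]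
  · rintro ⟨g, ⟨h0, hm, hu', hk⟩, hgf⟩
    have hgf' : f = Function.update g (d + 1) v := hgf.symm
    subst hgf'
    refine ⟨⟨?_, ?_, ?_, ?_⟩, Function.update_self _ _ _⟩
    · intro j hj
      rw [Function.update_of_ne (by omega)]
      exact h0 j (by omega)
    · intro a b ha hab hb
      by_cases h : b = d + 1
      · by_cases h' : a = d + 1
        · rw [h, h']
        · rw [h, Function.update_self, Function.update_of_ne h']
          exact hk a ha (by omega)
      · rw [Function.update_of_ne h, Function.update_of_ne (by omega)]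
        exact hm a b ha hab (by omega)
    · intro j hj1 hj2
      by_cases h : j = d + 1
      · rw [h, Function.update_self]
        exact hu
      · rw [Function.update_of_ne h]
        exact hu' j hj1 (by omega)
    · intro j hj1 hj2
      by_cases h : j = d + 1
      · rw [h, Function.update_self]
        exact hK
      · rw [Function.update_of_ne h]
        exact (hk j hj1 (by omega)).trans hK

theorem SRC_inj (u : ℕ → ℕ) (d v : ℕ) :
    Set.InjOn (fun g : ℕ → ℕ => Function.update g (d + 1) v) (SRC_S u d v) := by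
  intro g hg g' hg' h
  funext j
  by_cases hj : j = d + 1
  · rw [hj, hg.1 (d + 1) (by omega), hg'.1 (d + 1) (by omega)]
  · have h1 := congrFun h j
    simp only [Function.update_of_ne hj] at h1
    exact h1

theorem SRC_zero (u : ℕ → ℕ) (k : ℕ) : SRC_S u 0 k = {fun _ => 0} := by
  ext f
  constructor
  · rintro ⟨h0, -, -, -⟩
    rw [Set.mem_singleton_iff]
    funext j
    exact h0 j (by omega)
  · intro h
    rw [Set.mem_singleton_iff] at h
    subst h
    exact ⟨fun _ _ => rfl, fun _ _ _ _ _ => le_rfl, fun _ _ _ => Nat.zero_le _, fun _ _ _ => Nat.zero_le _⟩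

theorem SRC_k0 (u : ℕ → ℕ) (d : ℕ) : SRC_S u d 0 = {fun _ => 0} := by
  ext f
  constructor
  · rintro ⟨h0, -, -, hk⟩
    rw [Set.mem_singleton_iff]
    funext j
    by_cases hj : j = 0 ∨ d < j
    · exact h0 j hj
    · exact Nat.le_zero.mp (hk j (by omega) (by omega))
  · intro h
    rw [Set.mem_singleton_iff] at h
    subst h
    exact ⟨fun _ _ => rfl, fun _ _ _ _ _ => le_rfl, fun _ _ _ => Nat.zero_le _, fun _ _ _ => Nat.zero_le _⟩

theorem SRC_split (u : ℕ → ℕ) (d k : ℕ) : SRC_S u (d + 1) (k + 1) =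
    SRC_S u (d + 1) k ∪ {f ∈ SRC_S u (d + 1) (k + 1) | f (d + 1) = k + 1} := by
  ext f
  constructor
  · intro hf
    obtain ⟨h0, hm, hu', hk⟩ := hf
    by_cases h : f (d + 1) = k + 1
    · exact Or.inr ⟨⟨h0, hm, hu', hk⟩, h⟩
    · left
      refine ⟨h0, hm, hu', fun j hj1 hj2 => ?_⟩
      have h1 := hm j (d + 1) hj1 hj2 le_rfl
      have h2 := hk (d + 1) (by omega) le_rfl
      omega
  · rintro (hf | hf)
    · obtain ⟨h0, hm, hu', hk⟩ := hf
      exact ⟨h0, hm, hu', fun j hj1 hj2 => (hk j hj1 hj2).trans (Nat.le_succ k)⟩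
    · exact hf.1

theorem SRC_disjoint (u : ℕ → ℕ) (d k : ℕ) :
    Disjoint (SRC_S u (d + 1) k) {f ∈ SRC_S u (d + 1) (k + 1) | f (d + 1) = k + 1} := by
  rw [Set.disjoint_left]
  rintro f ⟨_, _, _, hk⟩ ⟨_, hf⟩
  have := hk (d + 1) (by omega) le_rfl
  omega

theorem SRC_finite (u : ℕ → ℕ) : ∀ d k, (SRC_S u d k).Finite := by
  intro d
  induction d with
  | zero =>
    intro k
    rw [SRC_zero]
    exact Set.finite_singleton _
  | succ d ihd =>
    intro k
    induction k with
    | zero =>
      rw [SRC_k0]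
      exact Set.finite_singleton _
    | succ k ihk =>
      rw [SRC_split]
      refine ihk.union ?_
      by_cases h : k + 1 ≤ u (d + 1)
      · rw [SRC_peel u d (k + 1) (k + 1) le_rfl h]
        exact (ihd (k + 1)).image _
      · have : {f ∈ SRC_S u (d + 1) (k + 1) | f (d + 1) = k + 1} = ∅ := by
          rw [Set.eq_empty_iff_forall_notMem]
          rintro f ⟨⟨_, _, hu', _⟩, hf⟩
          have := hu' (d + 1) (by omega) le_rfl
          omega
        rw [this]
        exact Set.finite_empty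

theorem SRC_card_peel (u : ℕ → ℕ) (d K v : ℕ) (hK : v ≤ K) (hu : v ≤ u (d + 1)) :
    {f ∈ SRC_S u (d + 1) K | f (d + 1) = v}.ncard = (SRC_S u d v).ncard := by
  rw [SRC_peel u d K v hK hu]
  exact (SRC_inj u d v).ncard_image

theorem SRC_card_zero (u : ℕ → ℕ) (k : ℕ) : (SRC_S u 0 k).ncard = 1 := by
  rw [SRC_zero, Set.ncard_singleton]

theorem SRC_card_k0 (u : ℕ → ℕ) (d : ℕ) : (SRC_S u d 0).ncard = 1 := by
  rw [SRC_k0, Set.ncard_singleton]

theorem SRC_card_le (u : ℕ → ℕ) (d k : ℕ) (h : k + 1 ≤ u (d + 1)) :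
    (SRC_S u (d + 1) (k + 1)).ncard = (SRC_S u (d + 1) k).ncard + (SRC_S u d (k + 1)).ncard := by
  rw [SRC_split, Set.ncard_union_eq (SRC_disjoint u d k) (SRC_finite u _ _)
    ((SRC_finite u (d + 1) (k + 1)).subset fun f hf => hf.1), SRC_card_peel u d (k + 1) (k + 1) le_rfl h]

theorem SRC_card_gt (u : ℕ → ℕ) (d k : ℕ) (h : u (d + 1) < k + 1) :
    (SRC_S u (d + 1) (k + 1)).ncard = (SRC_S u (d + 1) k).ncard := by
  have : {f ∈ SRC_S u (d + 1) (k + 1) | f (d + 1) = k + 1} = ∅ := by
    rw [Set.eq_empty_iff_forall_notMem]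
    rintro f ⟨⟨_, _, hu', _⟩, hf⟩
    have := hu' (d + 1) (by omega) le_rfl
    omega
  rw [SRC_split, this, Set.union_empty]

/-- ballot numbers -/
theorem SRC_ballot (e : ℕ) (he : e ≤ 1) : ∀ d k, k + 1 + e ≤ d + 1 →
    (SRC_S (fun j => j - e) d (k + 1)).ncard + (d + 1 - e + (k + 1)).choose k
      = (d + 1 - e + (k + 1)).choose (k + 1) := by
  intro d
  induction d with
  | zero =>
    intro k hk
    have hk0 : k = 0 := by omega
    have he0 : e = 0 := by omega
    subst hk0 he0
    rw [SRC_card_zero]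
    rfl
  | succ d ihd =>
    intro k
    obtain ⟨a, ha⟩ : ∃ a, a = d + 1 - e := ⟨_, rfl⟩
    have ha' : d + 1 + 1 - e = a + 1 := by omega
    rw [ha']
    rw [← ha] at ihd
    induction k with
    | zero =>
      intro hk
      by_cases h1 : 1 + e ≤ d + 1
      · rw [SRC_card_le _ d 0 (by omega), SRC_card_k0]
        have h2 := ihd 0 (by omega)
        simp only [Nat.zero_add, Nat.choose_zero_right, Nat.choose_one_right] at h2 ⊢
        omega
      · rw [SRC_card_gt _ d 0 (by omega), SRC_card_k0]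
        have h3 : a = 0 := by omega
        subst h3
        rfl
    | succ k ihk =>
      intro hk
      have h0 := ihk (by omega)
      have p1 : (a + 1 + (k + 1 + 1)).choose (k + 1 + 1)
          = (a + (k + 1 + 1)).choose (k + 1) + (a + (k + 1 + 1)).choose (k + 1 + 1) := by
        rw [show a + 1 + (k + 1 + 1) = (a + (k + 1 + 1)) + 1 by ring, Nat.choose_succ_succ]
      have p2 : (a + 1 + (k + 1 + 1)).choose (k + 1)
          = (a + (k + 1 + 1)).choose k + (a + (k + 1 + 1)).choose (k + 1) := by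
        rw [show a + 1 + (k + 1 + 1) = (a + (k + 1 + 1)) + 1 by ring, Nat.choose_succ_succ]
      have q : a + 1 + (k + 1) = a + (k + 1 + 1) := by ring
      rw [q] at h0
      by_cases h1 : k + 1 + 1 + e ≤ d + 1
      · rw [SRC_card_le _ d (k + 1) (by omega)]
        have h2 := ihd (k + 1) h1
        rw [p1, p2]
        omega
      · rw [SRC_card_gt _ d (k + 1) (by omega)]
        have h3 : a = k + 1 := by omega
        rw [p1, p2]
        have h4 : (a + (k + 1 + 1)).choose (k + 1 + 1) = (a + (k + 1 + 1)).choose (k + 1) := by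
          rw [h3]
          have := Nat.choose_symm_half (k + 1)
          rw [show k + 1 + (k + 1 + 1) = 2 * (k + 1) + 1 by ring]
          exact this
        omega

theorem SRC_RN_eq {n d K : ℕ} (he : d - n ≤ 1) (hK : d ≤ K) : RN n d = SRC_S (fun j => j - (d - n)) d K := by
  ext f
  constructor
  · rintro ⟨h0, hm, hb⟩
    refine ⟨h0, hm, fun j hj1 hj2 => ?_, fun j hj1 hj2 => ?_⟩
    · have := hb j hj1 hj2
      show f j ≤ j - (d - n)
      omega
    · have := hb j hj1 hj2
      omega
  · rintro ⟨h0, hm, hu, _⟩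
    refine ⟨h0, hm, fun j hj1 hj2 => ?_⟩
    have : f j ≤ j - (d - n) := hu j hj1 hj2
    omega

theorem RN_finite (n d : ℕ) : (RN n d).Finite := by
  refine (SRC_finite (fun j => j) d d).subset ?_
  rintro f ⟨h0, hm, hb⟩
  refine ⟨h0, hm, fun j hj1 hj2 => ?_, fun j hj1 hj2 => ?_⟩
  · have := hb j hj1 hj2
    show f j ≤ j
    omega
  · have := hb j hj1 hj2
    omega

theorem RN_card_d {d : ℕ} (hd : 1 ≤ d) : (RN d d).ncard = catalan (d + 1) := by
  rw [SRC_RN_eq (K := d) (by omega) le_rfl]
  obtain ⟨m, rfl⟩ := Nat.exists_eq_add_of_le' hd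
  have h := SRC_ballot 0 (by omega) (m + 1) m (by omega)
  have hsub : m + 1 - (m + 1) = 0 := by omega
  rw [hsub]
  have h1 := succ_mul_catalan_eq_centralBinom (m + 1 + 1)
  have h2 := Nat.choose_succ_right_eq (m + 1 + 1 - 0 + (m + 1)) m
  have h3 : m + 1 + 1 - 0 + (m + 1) - m = m + 3 := by omega
  rw [h3] at h2
  have h4 : (m + 1 + 1).centralBinom = 2 * (m + 1 + 1 - 0 + (m + 1)).choose (m + 1) := by
    rw [Nat.centralBinom_eq_two_mul_choose]
    rw [show 2 * (m + 1 + 1) = (m + 1 + 1 - 0 + (m + 1)) + 1 by omega, Nat.choose_succ_succ]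
    have h5 : (2 * (m + 1) + 1).choose (m + 1).succ = (2 * (m + 1) + 1).choose (m + 1) :=
      Nat.choose_symm_half (m + 1)
    rw [show m + 1 + 1 - 0 + (m + 1) = 2 * (m + 1) + 1 by omega, h5]
    ring
  rw [h4] at h1
  generalize (m + 1 + 1 - 0 + (m + 1)).choose (m + 1) = x at *
  generalize (m + 1 + 1 - 0 + (m + 1)).choose m = y at *
  generalize (SRC_S (fun j => j - 0) (m + 1) (m + 1)).ncard = N at *
  generalize catalan (m + 1 + 1) = c at *
  -- N + y = x, (m+3) c = 2 x, x (m+1) = y (m+3)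
  have h6 : (m + 3) * N = (m + 3) * c := by
    have h7 : (m + 3) * N + y * (m + 3) = (m + 3) * x := by
      rw [← h]; ring
    have h8 : (m + 1 + 1 + 1) * c = (m + 3) * c := by ring
    have h9 : (m + 3) * x = x * (m + 1) + 2 * x := by ring
    omega
  exact Nat.eq_of_mul_eq_mul_left (by omega) h6

theorem RN_card_d1 {d : ℕ} (hd : 1 ≤ d) : (RN (d - 1) d).ncard = catalan d := by
  obtain ⟨m, rfl⟩ := Nat.exists_eq_add_of_le' hd
  rw [SRC_RN_eq (K := m + 1) (by omega) le_rfl]
  have h := SRC_ballot 1 le_rfl (m + 1) m (by omega)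
  have hsub : m + 1 - (m + 1 - 1) = 1 := by omega
  rw [hsub]
  have h1 := succ_mul_catalan_eq_centralBinom (m + 1)
  have h2 := Nat.choose_succ_right_eq (m + 1 + 1 - 1 + (m + 1)) m
  have h3 : m + 1 + 1 - 1 + (m + 1) - m = m + 2 := by omega
  rw [h3] at h2
  have h4 : (m + 1).centralBinom = (m + 1 + 1 - 1 + (m + 1)).choose (m + 1) := by
    rw [Nat.centralBinom_eq_two_mul_choose]
    rw [show m + 1 + 1 - 1 + (m + 1) = 2 * (m + 1) by omega]
  rw [h4] at h1
  generalize (m + 1 + 1 - 1 + (m + 1)).choose (m + 1) = x at *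
  generalize (m + 1 + 1 - 1 + (m + 1)).choose m = y at *
  generalize (SRC_S (fun j => j - 1) (m + 1) (m + 1)).ncard = N at *
  generalize catalan (m + 1) = c at *
  have h6 : (m + 2) * N = (m + 2) * c := by
    have h7 : (m + 2) * N + y * (m + 2) = (m + 2) * x := by
      rw [← h]; ring
    have h8 : (m + 1 + 1) * c = (m + 2) * c := by ring
    have h9 : (m + 2) * x = x * (m + 1) + x := by ring
    omega
  exact Nat.eq_of_mul_eq_mul_left (by omega) h6

/-- the bound for the structures with `f (f d) = 0`, `f d = r` -/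
def SRC_u (r j : ℕ) : ℕ := if j ≤ r then 0 else r

theorem SRC_u_low (r : ℕ) : ∀ d, d ≤ r → ∀ k, (SRC_S (SRC_u r) d k).ncard = 1 := by
  intro d
  induction d with
  | zero => intro _ k; exact SRC_card_zero _ _
  | succ d ihd =>
    intro hd k
    induction k with
    | zero => exact SRC_card_k0 _ _
    | succ k ihk =>
      rw [SRC_card_gt _ d k (by unfold SRC_u; rw [if_pos hd]; omega), ihk]

theorem SRC_u_card (r : ℕ) : ∀ m k, k ≤ r → (SRC_S (SRC_u r) (r + m) k).ncard = (m + k).choose k := by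
  intro m
  induction m with
  | zero =>
    intro k _
    rw [Nat.add_zero, Nat.zero_add, Nat.choose_self]
    exact SRC_u_low r r le_rfl k
  | succ m ihm =>
    intro k
    induction k with
    | zero =>
      intro _
      rw [SRC_card_k0, Nat.choose_zero_right]
    | succ k ihk =>
      intro hk
      rw [show r + (m + 1) = r + m + 1 by ring]
      rw [SRC_card_le _ (r + m) k (by unfold SRC_u; rw [if_neg (by omega)]; exact hk)]
      rw [show r + m + 1 = r + (m + 1) by ring, ihk (by omega), ihm (k + 1) hk]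
      rw [show m + 1 + (k + 1) = (m + 1 + k) + 1 by ring, Nat.choose_succ_succ]
      rw [show m + (k + 1) = m + 1 + k by ring]

theorem SRC_fiber {n d r : ℕ} (he : d + 1 - n ≤ 1) (hr : r ≤ d) :
    {f ∈ RN n (d + 1) | f (f (d + 1)) = 0 ∧ f (d + 1) = r}
      = {f ∈ SRC_S (SRC_u r) (d + 1) r | f (d + 1) = r} := by
  ext f
  constructor
  · rintro ⟨⟨h0, hm, hb⟩, h1, h2⟩
    rw [h2] at h1
    refine ⟨⟨h0, hm, fun j hj1 hj2 => ?_, fun j hj1 hj2 => ?_⟩, h2⟩
    · unfold SRC_u
      by_cases h : j ≤ r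
      · rw [if_pos h, ← h1]
        exact hm j r hj1 h (by omega)
      · rw [if_neg h]
        have := hm j (d + 1) hj1 hj2 le_rfl
        omega
    · have := hm j (d + 1) hj1 hj2 le_rfl
      omega
  · rintro ⟨⟨h0, hm, hu, hk⟩, h2⟩
    refine ⟨⟨h0, hm, fun j hj1 hj2 => ?_⟩, ?_, h2⟩
    · have h3 := hu j hj1 hj2
      unfold SRC_u at h3
      by_cases h : j ≤ r
      · rw [if_pos h] at h3
        omega
      · rw [if_neg h] at h3
        omega
    · rw [h2]
      rcases Nat.eq_zero_or_pos r with h | h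
      · rw [h]
        exact h0 0 (Or.inl rfl)
      · have h3 := hu r h (by omega)
        unfold SRC_u at h3
        rw [if_pos le_rfl] at h3
        omega

theorem RN_disj {n d : ℕ} (hd : 1 ≤ d) (hn : n = d ∨ n + 1 = d) : {f ∈ RN n d | f (f d) = 0}.ncard = 2 ^ (d - 1) := by
  classical
  obtain ⟨m, rfl⟩ := Nat.exists_eq_add_of_le' hd
  have he : m + 1 - n ≤ 1 := by omega
  have hfin : {f ∈ RN n (m + 1) | f (f (m + 1)) = 0}.Finite := (RN_finite n (m + 1)).subset fun f hf => hf.1
  rw [Set.ncard_eq_toFinset_card _ hfin]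
  have hmap : ∀ f ∈ hfin.toFinset, f (m + 1) ∈ Finset.range (m + 1) := by
    intro f hf
    rw [Set.Finite.mem_toFinset] at hf
    obtain ⟨⟨h0, hm, hb⟩, h1⟩ := hf
    rw [Finset.mem_range]
    have h2 := hb (m + 1) (by omega) le_rfl
    by_contra hcon
    have h3 : f (m + 1) = m + 1 := by omega
    rw [h3, h3] at h1
    omega
  rw [Finset.card_eq_sum_card_fiberwise hmap]
  have hfib : ∀ r ∈ Finset.range (m + 1), (hfin.toFinset.filter (fun f => f (m + 1) = r)).card = m.choose r := by
    intro r hr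
    rw [Finset.mem_range] at hr
    have h1 : (hfin.toFinset.filter (fun f => f (m + 1) = r)).card
        = {f ∈ RN n (m + 1) | f (f (m + 1)) = 0 ∧ f (m + 1) = r}.ncard := by
      rw [← Set.ncard_coe_finset]
      congr 1
      ext f
      simp only [Finset.coe_filter, Set.Finite.mem_toFinset, Set.mem_ofPred_eq]
      tauto
    rw [h1, SRC_fiber he (by omega), SRC_card_peel _ m r r le_rfl (by
      unfold SRC_u
      rw [if_neg (by omega)])]
    obtain ⟨q, hq⟩ := Nat.exists_eq_add_of_le (show r ≤ m by omega)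
    rw [hq, SRC_u_card r q r le_rfl, Nat.add_comm q r]
  rw [Finset.sum_congr rfl hfib, Nat.sum_range_choose, Nat.add_sub_cancel]

end Pool.Agent.H63.CY
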