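import Pool.Agent.H63.CY.Defs

/-!
# TY: for `n > d` tops and bottoms are disjoint

In `ZMod d` we have `i + (a + d : ℕ) = i + a`.
* `no_d`: suppose `D i d`; let `m ∈ [1, d]` be minimal with `D i m`. If `m = 1`: `D i d` and `D (i+d) 1`, total `d + 1 ≤ n`, contradiction.
  If `m ≥ 2`: `D i ((m-1) + (d-m+1))` and not `D i (m-1)`, so `D (i+(m-1)) (d-m+1)`; with `D (i + (m-1) + (d-m+1)) m = D i m` the total is
  `d + 1 ≤ n`, contradiction.
* `disj`: suppose `D i a`, `D (i+a) c` with `a + c` minimal. `a < d`: `a = d` is excluded by `no_d`; if `a > d` then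
  `D i ((a-d) + d)` gives `D i (a-d)` (the other option is `D _ d`), and `i + (a-d) = i + a`: smaller pair. `c < d`: if `c > d`,
  `D (i+a) (d + (c-d))` gives `D (i+a+d) (c-d) = D (i+a) (c-d)`: smaller pair. By `LS`, `a + c > n ≥ d + 1`.
  (1) `D i m` for `1 ≤ m ≤ a`: for `m < a`, `D i (m + (a-m))`, and `D (i+m) (a-m)` would give the smaller pair `(i+m, a-m, c)`.
  (2) `D (i+a+m) (c-m)` for `0 ≤ m < c`: for `m ≥ 1`, `D (i+a) (m + (c-m))`, and `D (i+a) m` would give the smaller pair `(i, a, m)`.
  Take `m = d+1-a` in (2) (`1 ≤ m < c`): `D (i+d+1) (a+c-d-1) = D (i+1) (a+c-d-1)`, and `D i 1` by (1): total `a+c-d < d ≤ n`: contradiction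
  to `LS`.
-/

set_option autoImplicit false

open Finset

noncomputable section

namespace Pool.Agent.H63.CY

theorem TY_cast {d : ℕ} (i : ZMod d) {a b : ℕ} (h : a = b + d) :
    i + (a : ZMod d) = i + (b : ZMod d) := by
  rw [h, Nat.cast_add, ZMod.natCast_self, add_zero]

theorem TY_D {d : ℕ} {D : ZMod d → ℕ → Prop} {i j : ZMod d} {m : ℕ} (h : D i m) (hij : i = j) :
    D j m := by
  rw [← hij]; exact h

theorem no_d {n d : ℕ} (hd : 1 ≤ d) (hn : d < n) {D : ZMod d → ℕ → Prop} (hD : D ∈ LS n d) (i : ZMod d) : ¬ D i d := by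
  classical
  intro hDd
  obtain ⟨h1, h2⟩ := hD
  have hex : ∃ m, D i m := ⟨d, hDd⟩
  have hmD : D i (Nat.find hex) := Nat.find_spec hex
  have hmd : Nat.find hex ≤ d := Nat.find_min' hex hDd
  have hmin : ∀ m', m' < Nat.find hex → ¬ D i m' := fun m' h => Nat.find_min hex h
  generalize Nat.find hex = m at hmD hmd hmin
  have hm1 := (h1 i m hmD).1
  rcases Nat.lt_or_ge m 2 with hm | hm
  · have hm' : m = 1 := by omega
    subst hm'
    refine (h2 i d 1 hd le_rfl (by omega)).1 ⟨hDd, ?_⟩
    refine TY_D hmD ?_
    rw [ZMod.natCast_self, add_zero]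
  · have h3 := (h2 i (m - 1) (d - m + 1) (by omega) (by omega) (by omega)).2
      (by rw [show m - 1 + (d - m + 1) = d by omega]; exact hDd)
    rcases h3 with h3 | h3
    · exact hmin _ (by omega) h3
    · refine (h2 (i + ((m - 1 : ℕ) : ZMod d)) (d - m + 1) m (by omega) (by omega) (by omega)).1 ⟨h3, ?_⟩
      refine TY_D hmD ?_
      rw [add_assoc, ← Nat.cast_add, show m - 1 + (d - m + 1) = d by omega, ZMod.natCast_self,
        add_zero]

theorem disj {n d : ℕ} (hd : 1 ≤ d) (hn : d < n) {D : ZMod d → ℕ → Prop} (hD : D ∈ LS n d) : Disj D := by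
  have hnod := no_d hd hn hD
  obtain ⟨h1, h2⟩ := hD
  have key : ∀ N : ℕ, ∀ (i : ZMod d) (a c : ℕ), a + c = N → D i a → D (i + a) c → False := by
    intro N
    induction N using Nat.strong_induction_on with
    | _ N ih =>
      intro i a c hN ha hc
      have ha1 := h1 _ _ ha
      have hc1 := h1 _ _ hc
      have had : a < d := by
        by_contra hcon
        rcases Nat.lt_or_ge d a with h | h
        · have h3 := (h2 i (a - d) d (by omega) hd (by omega)).2
            (by rw [show a - d + d = a by omega]; exact ha)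
          rcases h3 with h3 | h3
          · refine ih (a - d + c) (by omega) i (a - d) c rfl h3 (TY_D hc ?_)
            exact TY_cast i (by omega)
          · exact hnod _ h3
        · have : a = d := by omega
          subst this
          exact hnod _ ha
      have hcd : c < d := by
        by_contra hcon
        rcases Nat.lt_or_ge d c with h | h
        · have h3 := (h2 (i + a) d (c - d) hd (by omega) (by omega)).2
            (by rw [show d + (c - d) = c by omega]; exact hc)
          rcases h3 with h3 | h3
          · exact hnod _ h3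
          · refine ih (a + (c - d)) (by omega) i a (c - d) rfl ha (TY_D h3 ?_)
            rw [ZMod.natCast_self, add_zero]
        · have : c = d := by omega
          subst this
          exact hnod _ hc
      have hac : n < a + c := by
        by_contra hcon
        exact (h2 i a c ha1.1 hc1.1 (by omega)).1 ⟨ha, hc⟩
      have hone : D i 1 := by
        rcases Nat.lt_or_ge a 2 with h | h
        · have : a = 1 := by omega
          subst this
          exact ha
        · have h3 := (h2 i 1 (a - 1) le_rfl (by omega) (by omega)).2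
            (by rw [show 1 + (a - 1) = a by omega]; exact ha)
          rcases h3 with h3 | h3
          · exact h3
          · exfalso
            refine ih (a - 1 + c) (by omega) (i + ((1 : ℕ) : ZMod d)) (a - 1) c rfl h3 (TY_D hc ?_)
            rw [add_assoc, ← Nat.cast_add, show 1 + (a - 1) = a by omega]
      have h4 := (h2 (i + a) (d + 1 - a) (c - (d + 1 - a)) (by omega) (by omega) (by omega)).2
        (by rw [show d + 1 - a + (c - (d + 1 - a)) = c by omega]; exact hc)
      rcases h4 with h4 | h4
      · exact ih (a + (d + 1 - a)) (by omega) i a (d + 1 - a) rfl ha h4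
      · refine (h2 i 1 (c - (d + 1 - a)) le_rfl (by omega) (by omega)).1 ⟨hone, TY_D h4 ?_⟩
        rw [add_assoc, ← Nat.cast_add]
        exact TY_cast i (by omega)
  intro i a c ha hc
  exact key _ i a c rfl ha hc

end Pool.Agent.H63.CY
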