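import Pool.Agent.H63.CY.WKA

/-!
# WKB: closed walks and local structures

Bijection `CW n d → LS n d`, `e ↦ D`, `D i m := 1 ≤ m ∧ ∃ h : m < n + 1, e i ⟨m, h⟩ < e i 0`.
(1) For `e ∈ CW n d`, `std_eq_iff` gives `e i a.succ < e i b.succ ↔ e (i+1) a.castSucc < e (i+1) b.castSucc` (`a b : Fin n`), hence by
 induction on `a`: for `a + c ≤ n`, `1 ≤ c`: `e i ⟨a+c⟩ < e i ⟨a⟩ ↔ e (i+a) ⟨c⟩ < e (i+a) 0`, i.e. `↔ D (i+a) c`.
(2) `D ∈ LS n d`: `D i a`, `D (i+a) c` would give `e i 0 > e i a > e i (a+c)`, against `Av321`; if `D i (a+c)` but neither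
 `D i a` nor `D (i+a) c` then `e i 0 < e i a < e i (a+c) < e i 0`.
(3) injective: by (1) all comparisons `e i b < e i a` (`a < b`) are determined by `D`; `perm_unique`.
(4) surjective: given `D ∈ LS n d` and `i`, put `r a b := (a < b ∧ ¬ D (i+a) (b-a)) ∨ (b < a ∧ D (i+b) (a-b))` on `Fin (n+1)`
 (`r a b` means `x_a < x_b`). Transitivity: the two possible 3-cycles on positions `a < b < c` are `x_a < x_b < x_c < x_a`, excluded by the
 second condition of `LS`, and `x_a > x_b > x_c > x_a`, excluded by the first one. `perm_exists` gives `e i`. It avoids 321 by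
 the first condition, the overlap condition holds by `std_eq_iff` (both sides are given by `D (i+1+a) (b-a)`), and `e ↦ D`.
Everything is cast into `ZMod d`: `(i + 1) + a = i + (a+1 : ℕ)`.
-/

set_option autoImplicit false

open Finset

noncomputable section

namespace Pool.Agent.H63.CY

private def WKB_f {n d : ℕ} (e : ZMod d → Equiv.Perm (Fin (n + 1))) (i : ZMod d) (m : ℕ) : Prop :=
  1 ≤ m ∧ ∃ h : m < n + 1, e i ⟨m, h⟩ < e i 0

private theorem WKB_step {n d : ℕ} {e : ZMod d → Equiv.Perm (Fin (n + 1))} (he : e ∈ CW n d) (i : ZMod d)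
    (a b : Fin n) : e i a.succ < e i b.succ ↔ e (i + 1) a.castSucc < e (i + 1) b.castSucc := by
  have h := (he i).2
  rw [std_eq_iff] at h
  · exact h a b
  · intro x y hxy
    exact Fin.succ_injective n ((e i).injective hxy)
  · intro x y hxy
    exact Fin.castSucc_injective n ((e (i + 1)).injective hxy)

private theorem WKB_shift {n d : ℕ} {e : ZMod d → Equiv.Perm (Fin (n + 1))} (he : e ∈ CW n d) :
    ∀ (a : ℕ) (i : ZMod d) (c : ℕ) (h1 : a + c < n + 1) (h2 : a < n + 1) (h3 : c < n + 1),
      e i ⟨a + c, h1⟩ < e i ⟨a, h2⟩ ↔ e (i + (a : ℕ)) ⟨c, h3⟩ < e (i + (a : ℕ)) 0 := by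
  intro a
  induction a with
  | zero =>
    intro i c h1 h2 h3
    simp only [Nat.cast_zero, add_zero, zero_add]
    rfl
  | succ a ih =>
    intro i c h1 h2 h3
    have e1 : i + ((a + 1 : ℕ) : ZMod d) = i + 1 + (a : ℕ) := by push_cast; ring
    rw [e1, ← ih (i + 1) c (by omega) (by omega) h3]
    have h4 := WKB_step he i ⟨a + c, by omega⟩ ⟨a, by omega⟩
    have e2 : (⟨a + c, by omega⟩ : Fin n).succ = (⟨a + 1 + c, h1⟩ : Fin (n + 1)) := by
      apply Fin.ext
      simp only [Fin.val_succ]
      omega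
    have e3 : (⟨a, by omega⟩ : Fin n).succ = (⟨a + 1, h2⟩ : Fin (n + 1)) := rfl
    rw [e2, e3] at h4
    exact h4

private theorem WKB_cmp {n d : ℕ} {e : ZMod d → Equiv.Perm (Fin (n + 1))} (he : e ∈ CW n d) (i : ZMod d)
    (a b : Fin (n + 1)) (hab : a < b) :
    e i b < e i a ↔ WKB_f e (i + ((a : ℕ) : ZMod d)) ((b : ℕ) - (a : ℕ)) := by
  have hab' : (a : ℕ) < (b : ℕ) := hab
  have hb := b.isLt
  have h1 := WKB_shift he (a : ℕ) i ((b : ℕ) - (a : ℕ)) (by omega) (by omega) (by omega)
  have e1 : (⟨(a : ℕ) + ((b : ℕ) - (a : ℕ)), by omega⟩ : Fin (n + 1)) = b := by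
    apply Fin.ext
    simp only
    omega
  rw [e1] at h1
  have e2 : (⟨(a : ℕ), by omega⟩ : Fin (n + 1)) = a := rfl
  rw [e2] at h1
  rw [h1]
  constructor
  · intro h
    exact ⟨by omega, by omega, h⟩
  · rintro ⟨_, _, h⟩
    exact h

private theorem WKB_mem {n d : ℕ} {e : ZMod d → Equiv.Perm (Fin (n + 1))} (he : e ∈ CW n d) :
    WKB_f e ∈ LS n d := by
  refine ⟨?_, ?_⟩
  · rintro i m ⟨h1, h2, _⟩
    exact ⟨h1, by omega⟩
  · intro i a c ha hc hac
    have k1 := WKB_cmp he i 0 ⟨a, by omega⟩ (by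
      rw [Fin.lt_def]
      exact ha)
    have k2 := WKB_cmp he i 0 ⟨a + c, by omega⟩ (by
      rw [Fin.lt_def]
      change 0 < a + c
      omega)
    have k3 := WKB_cmp he i ⟨a, by omega⟩ ⟨a + c, by omega⟩ (by
      rw [Fin.lt_def]
      change a < a + c
      omega)
    simp only [Fin.val_zero, Nat.cast_zero, add_zero, Nat.sub_zero, add_tsub_cancel_left] at k1 k2 k3
    rw [← k1, ← k2, ← k3]
    refine ⟨?_, ?_⟩
    · rintro ⟨h1, h2⟩
      refine (he i).1 0 ⟨a, by omega⟩ ⟨a + c, by omega⟩ ?_ ?_ ⟨h2, h1⟩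
      · rw [Fin.lt_def]
        exact ha
      · rw [Fin.lt_def]
        change a < a + c
        omega
    · intro h
      by_contra hcon
      rw [not_or] at hcon
      exact absurd (lt_of_le_of_lt ((not_lt.mp hcon.1).trans (not_lt.mp hcon.2)) h) (lt_irrefl _)

private def WKB_r {n d : ℕ} (D : ZMod d → ℕ → Prop) (i : ZMod d) (a b : Fin (n + 1)) : Prop :=
  (a < b ∧ ¬ D (i + ((a : ℕ) : ZMod d)) ((b : ℕ) - (a : ℕ))) ∨
    (b < a ∧ D (i + ((b : ℕ) : ZMod d)) ((a : ℕ) - (b : ℕ)))

private theorem WKB_tri {n d : ℕ} {D : ZMod d → ℕ → Prop} (hD : D ∈ LS n d) (i : ZMod d)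
    {a b c : Fin (n + 1)} (hab : a < b) (hbc : b < c) :
    ¬ (D (i + ((a : ℕ) : ZMod d)) ((b : ℕ) - (a : ℕ)) ∧ D (i + ((b : ℕ) : ZMod d)) ((c : ℕ) - (b : ℕ))) ∧
    (D (i + ((a : ℕ) : ZMod d)) ((c : ℕ) - (a : ℕ)) →
      D (i + ((a : ℕ) : ZMod d)) ((b : ℕ) - (a : ℕ)) ∨ D (i + ((b : ℕ) : ZMod d)) ((c : ℕ) - (b : ℕ))) := by
  rw [Fin.lt_def] at hab hbc
  have hc := c.isLt
  have h := hD.2 (i + ((a : ℕ) : ZMod d)) ((b : ℕ) - (a : ℕ)) ((c : ℕ) - (b : ℕ)) (by omega) (by omega)
    (by omega)
  have e1 : i + ((a : ℕ) : ZMod d) + (((b : ℕ) - (a : ℕ) : ℕ) : ZMod d) = i + ((b : ℕ) : ZMod d) := by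
    rw [add_assoc, ← Nat.cast_add]
    congr 2
    omega
  have e2 : (b : ℕ) - (a : ℕ) + ((c : ℕ) - (b : ℕ)) = (c : ℕ) - (a : ℕ) := by omega
  rw [e1, e2] at h
  exact h

private theorem WKB_perm {n d : ℕ} {D : ZMod d → ℕ → Prop} (hD : D ∈ LS n d) (i : ZMod d) :
    ∃ σ : Equiv.Perm (Fin (n + 1)), ∀ a b, σ a < σ b ↔ WKB_r D i a b := by
  refine perm_exists (WKB_r D i) ?_ ?_ ?_
  · intro a h
    rcases h with h | h
    · exact lt_irrefl _ h.1
    · exact lt_irrefl _ h.1
  · intro a b hab
    rcases lt_or_gt_of_ne hab with h | h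
    · have h' := not_lt_of_gt h
      simp only [WKB_r, h, h', true_and, false_and, or_false, false_or]
    · have h' := not_lt_of_gt h
      simp only [WKB_r, h, h', true_and, false_and, or_false, false_or, not_not]
  · intro a b c h1 h2
    have hab : a ≠ b := by
      rintro rfl
      rcases h1 with h | h
      · exact lt_irrefl _ h.1
      · exact lt_irrefl _ h.1
    have hbc : b ≠ c := by
      rintro rfl
      rcases h2 with h | h
      · exact lt_irrefl _ h.1
      · exact lt_irrefl _ h.1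
    have hac : a ≠ c := by
      rintro rfl
      rcases lt_or_gt_of_ne hab with h | h
      · have h' := not_lt_of_gt h
        simp only [WKB_r, h, h', true_and, false_and, or_false, false_or] at h1 h2
        exact h1 h2
      · have h' := not_lt_of_gt h
        simp only [WKB_r, h, h', true_and, false_and, or_false, false_or] at h1 h2
        exact h2 h1
    rcases lt_or_gt_of_ne hab with p | p <;> rcases lt_or_gt_of_ne hbc with q | q <;>
      rcases lt_or_gt_of_ne hac with s | s
    · -- a < b < c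
      have t := WKB_tri hD i p q
      have p' := not_lt_of_gt p
      have q' := not_lt_of_gt q
      have s' := not_lt_of_gt s
      simp only [WKB_r, p, q, s, p', q', s', true_and, false_and, or_false, false_or] at h1 h2 ⊢
      tauto
    · exact absurd (p.trans q) (not_lt_of_gt s)
    · -- a < c < b
      have t := WKB_tri hD i s q
      have p' := not_lt_of_gt p
      have q' := not_lt_of_gt q
      have s' := not_lt_of_gt s
      simp only [WKB_r, p, q, s, p', q', s', true_and, false_and, or_false, false_or] at h1 h2 ⊢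
      tauto
    · -- c < a < b
      have t := WKB_tri hD i s p
      have p' := not_lt_of_gt p
      have q' := not_lt_of_gt q
      have s' := not_lt_of_gt s
      simp only [WKB_r, p, q, s, p', q', s', true_and, false_and, or_false, false_or] at h1 h2 ⊢
      tauto
    · -- b < a < c
      have t := WKB_tri hD i p s
      have p' := not_lt_of_gt p
      have q' := not_lt_of_gt q
      have s' := not_lt_of_gt s
      simp only [WKB_r, p, q, s, p', q', s', true_and, false_and, or_false, false_or] at h1 h2 ⊢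
      tauto
    · -- b < c < a
      have t := WKB_tri hD i q s
      have p' := not_lt_of_gt p
      have q' := not_lt_of_gt q
      have s' := not_lt_of_gt s
      simp only [WKB_r, p, q, s, p', q', s', true_and, false_and, or_false, false_or] at h1 h2 ⊢
      tauto
    · exact absurd (q.trans p) (not_lt_of_gt s)
    · -- c < b < a
      have t := WKB_tri hD i q p
      have p' := not_lt_of_gt p
      have q' := not_lt_of_gt q
      have s' := not_lt_of_gt s
      simp only [WKB_r, p, q, s, p', q', s', true_and, false_and, or_false, false_or] at h1 h2 ⊢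
      tauto

private theorem WKB_surj {n d : ℕ} {D : ZMod d → ℕ → Prop} (hD : D ∈ LS n d) :
    ∃ e ∈ CW n d, WKB_f e = D := by
  choose e he using WKB_perm (n := n) hD
  refine ⟨e, ?_, ?_⟩
  · intro i
    refine ⟨?_, ?_⟩
    · intro a b c hab hbc h
      rw [he i, he i] at h
      have p' := not_lt_of_gt hab
      have q' := not_lt_of_gt hbc
      simp only [WKB_r, hab, hbc, p', q', true_and, false_and, false_or] at h
      exact (WKB_tri hD i hab hbc).1 ⟨h.2, h.1⟩
    · rw [std_eq_iff]
      · intro a b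
        rw [he i, he (i + 1)]
        simp only [WKB_r, Fin.succ_lt_succ_iff, Fin.castSucc_lt_castSucc_iff, Fin.val_succ,
          Fin.val_castSucc, Nat.add_sub_add_right]
        have e1 : ∀ x : ℕ, i + ((x + 1 : ℕ) : ZMod d) = i + 1 + (x : ℕ) := by
          intro x
          push_cast
          ring
        rw [e1, e1]
      · intro x y hxy
        exact Fin.succ_injective n ((e i).injective hxy)
      · intro x y hxy
        exact Fin.castSucc_injective n ((e (i + 1)).injective hxy)
  · funext i m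
    refine propext ⟨?_, ?_⟩
    · rintro ⟨h1, h2, h3⟩
      rw [he i] at h3
      have h4 : (0 : Fin (n + 1)) < ⟨m, h2⟩ := by
        rw [Fin.lt_def]
        exact h1
      have h5 := not_lt_of_gt h4
      simp only [WKB_r, h4, h5, true_and, false_and, false_or, Fin.val_zero, Nat.cast_zero, add_zero,
        Nat.sub_zero] at h3
      exact h3
    · intro h
      obtain ⟨h1, h2⟩ := hD.1 i m h
      refine ⟨h1, by omega, ?_⟩
      rw [he i]
      have h4 : (0 : Fin (n + 1)) < ⟨m, by omega⟩ := by
        rw [Fin.lt_def]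
        exact h1
      have h5 := not_lt_of_gt h4
      simp only [WKB_r, h4, h5, true_and, false_and, false_or, Fin.val_zero, Nat.cast_zero, add_zero,
        Nat.sub_zero]
      exact h

theorem W_eq (n d : ℕ) : W n d = (LS n d).ncard := by
  rw [W]
  refine Set.ncard_congr (fun e _ => WKB_f e) ?_ ?_ ?_
  · intro e he
    exact WKB_mem he
  · intro e e' he he' h
    have h' : WKB_f e = WKB_f e' := h
    funext i
    refine perm_unique fun a b hab => ?_
    rw [WKB_cmp he i a b hab, WKB_cmp he' i a b hab, h']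
  · intro D hD
    obtain ⟨e, he, h⟩ := WKB_surj hD
    exact ⟨e, he, h⟩

end Pool.Agent.H63.CY
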