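import Pool.Agent.H63.CY.TSF
import Pool.Agent.H63.CY.WKB
import Pool.Agent.H63.CY.TY
import Pool.Agent.H63.CY.BJ
import Pool.Agent.H63.CY.SRC

/-!
# The number of closed walks
-/

set_option autoImplicit false

open Finset

noncomputable section

namespace Pool.Agent.H63.CY

theorem W_TS {n d : ℕ} (hd : 1 ≤ d) (hn : d < n) : W n d = (TS n d).ncard := by
  rw [W_eq, ← LS_TS]
  congr 1
  ext D
  exact ⟨fun h => ⟨h, disj hd hn h⟩, fun h => h.1⟩

theorem LS_finite {n d : ℕ} (hd : 1 ≤ d) : (LS n d).Finite := by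
  haveI : NeZero d := ⟨by omega⟩
  have h1 : Set.InjOn (fun D : ZMod d → ℕ → Prop => fun i (m : Fin (n + 1)) => D i m) (LS n d) := by
    intro D hD E hE h
    funext i m
    by_cases hm : m < n + 1
    · exact congrFun (congrFun h i) ⟨m, hm⟩
    · have h2 : ¬ D i m := fun hh => by have := (hD.1 i m hh).2; omega
      have h3 : ¬ E i m := fun hh => by have := (hE.1 i m hh).2; omega
      exact propext ⟨fun hh => absurd hh h2, fun hh => absurd hh h3⟩
  exact Set.Finite.of_finite_image (Set.toFinite _) h1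

theorem LS_split {n d : ℕ} (hd : 1 ≤ d) : (LS n d).ncard = (TS n d).ncard + {D ∈ LS n d | ¬ Disj D}.ncard := by
  have hdis : Disjoint {D ∈ LS n d | Disj D} {D ∈ LS n d | ¬ Disj D} := by
    rw [Set.disjoint_left]
    rintro D h h'
    exact h'.2 h.2
  rw [← LS_TS, ← Set.ncard_union_eq hdis ((LS_finite hd).subset fun D h => h.1) ((LS_finite hd).subset fun D h => h.1)]
  congr 1
  ext D
  constructor
  · intro h
    by_cases h' : Disj D
    · exact Or.inl ⟨h, h'⟩
    · exact Or.inr ⟨h, h'⟩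
  · rintro (h | h) <;> exact h.1

theorem ND_eq {n d c : ℕ} (hd : 1 ≤ d) (hn : n = d ∨ (n + 1 = d ∧ 3 ≤ d)) (hc : (RN n d).ncard = c) :
    {D ∈ LS n d | ¬ Disj D}.ncard + d * 2 ^ (d - 1) = d * c := by
  have hdis : Disjoint {f ∈ RN n d | 1 ≤ f (f d)} {f ∈ RN n d | f (f d) = 0} := by
    rw [Set.disjoint_left]
    rintro f h h'
    have := h.2
    have := h'.2
    omega
  rw [ND_card hd hn, ← RN_disj hd (n := n) (by omega), ← mul_add, ← hc,
    ← Set.ncard_union_eq hdis ((RN_finite n d).subset fun D h => h.1) ((RN_finite n d).subset fun D h => h.1)]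
  congr 2
  ext f
  constructor
  · rintro (h | h) <;> exact h.1
  · intro h
    by_cases h' : f (f d) = 0
    · exact Or.inr ⟨h, h'⟩
    · exact Or.inl ⟨h, by omega⟩

/-- linear growth in `n` -/
theorem main_rec {n d : ℕ} (hd : 1 ≤ d) (hn : d < n) : W (n + d) d = W n d + (d - 1) * (2 * d - 2).choose (d - 1) := by
  rw [W_TS hd hn, W_TS hd (by omega), TS_rec hd hn.le]

theorem TS_mul {d : ℕ} (hd : 1 ≤ d) (e : ℕ) :
    (TS ((e + 1) * d) d).ncard = (TS d d).ncard + e * ((d - 1) * (2 * d - 2).choose (d - 1)) := by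
  induction e with
  | zero => simp
  | succ e ih =>
    rw [show (e + 1 + 1) * d = (e + 1) * d + d by ring, TS_rec hd (by nlinarith), ih]
    ring

/-- `d` divides `n` or `n + 1`; here `n` or `n + 1` is `e * d` -/
theorem main_dvd {n d e : ℕ} (hd : 1 ≤ d) (hn : d < n) (h : n = e * d ∨ n + 1 = e * d) :
    2 * (W n d : ℤ) = 3 * (2 * d).choose d - 4 ^ d + 2 * e * ((d - 1) * (2 * d - 2).choose (d - 1)) := by
  obtain ⟨f, rfl⟩ : ∃ f, e = f + 1 := by
    refine ⟨e - 1, ?_⟩
    rcases Nat.eq_zero_or_pos e with h0 | h0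
    · subst h0; omega
    · omega
  have h1 : (TS n d).ncard = (TS ((f + 1) * d) d).ncard := by
    rcases h with h | h
    · rw [h]
    · rw [← h, ← TS_dvd ⟨f + 1, by rw [h]; ring⟩]
  rw [W_TS hd hn, h1, TS_mul hd]
  push_cast [Nat.cast_sub hd]
  have h2 := TS_d hd
  linear_combination h2

/-- `d = n` -/
theorem main_eq {n : ℕ} (hn : 1 ≤ n) :
    2 * (W n n : ℤ) = 3 * (2 * n).choose n - 4 ^ n + 2 * ((n - 1) * (2 * n - 2).choose (n - 1)) +
      2 * n * (catalan (n + 1) - 2 ^ (n - 1)) := by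
  have h1 := LS_split hn (n := n)
  have h2 := ND_eq hn (n := n) (Or.inl rfl) (RN_card_d hn)
  have h3 := TS_d hn
  rw [W_eq, h1]
  push_cast
  have h4 : (({D ∈ LS n n | ¬ Disj D}.ncard : ℤ)) + n * 2 ^ (n - 1) = n * catalan (n + 1) := by exact_mod_cast h2
  linear_combination h3 + 2 * h4

/-- `d = n + 1` -/
theorem main_succ {n : ℕ} (hn : 2 ≤ n) :
    2 * (W n (n + 1) : ℤ) = 3 * (2 * (n + 1)).choose (n + 1) - 4 ^ (n + 1) + 2 * (n * (2 * n).choose n) +
      2 * (n + 1) * (catalan (n + 1) - 2 ^ n) := by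
  have hd : 1 ≤ n + 1 := by omega
  have h1 := LS_split hd (n := n)
  have hc : (RN n (n + 1)).ncard = catalan (n + 1) := RN_card_d1 hd
  have h2 := ND_eq hd (n := n) (Or.inr ⟨rfl, by omega⟩) hc
  have h3 := TS_d hd
  rw [W_eq, h1, TS_dvd (n := n) (d := n + 1) dvd_rfl]
  push_cast
  have h4 : (({D ∈ LS n (n + 1) | ¬ Disj D}.ncard : ℤ)) + (n + 1) * 2 ^ n = (n + 1) * catalan (n + 1) := by
    exact_mod_cast h2
  have h5 : (2 * (n + 1) - 2).choose (n + 1 - 1) = (2 * n).choose n := by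
    congr 1
  rw [h5] at h3
  push_cast at h3
  linear_combination h3 + 2 * h4

end Pool.Agent.H63.CY
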