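import Mathlib

/-!
# RFA: the reflection formula for pairs of words

For a word `w : Fin d → Bool × Bool` let `df w j = ∑_{c < j} ([w c = (true, _)] - [w c = (_, true)])` be the difference of the two counting functions.
`cnt d a m = #{w : df w d = a, ∃ j ≤ d, df w j ≤ -m}`.

Decomposition by the first letter (`Fin.cons`): for `m ≥ 1` (so that `j = 0` does not count):
`cnt (d+1) a m = cnt d (a-1) (m+1) + 2 cnt d a m + cnt d (a+1) (m-1)`; and `cnt d a m = #{w : df w d = a} = C(2d, d+a)` for `m ≤ 0`
(`j = 0`) as well as for `a ≤ -m` (`j = d`). Claim: `cnt d a m = C(2d, d-a-2m)` for `m ≥ 0`, `a ≥ -m` (reflection; binomials with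
negative lower index are `0`), by induction on `d` from the recursion and Pascal's rule
`C(2d, k-1) + 2 C(2d, k) + C(2d, k+1) = C(2d+2, k+1)`; for `m ≥ 1`, `a ≥ -m` all three terms are of the form with the claim
(`(a-1, m+1)`, `(a, m)`, `(a+1, m-1)`), except that `(a+1, m-1)` may have `m - 1 = 0`, fine.
`d = 0`: `cnt 0 a m = [a = 0 ∧ 0 ≤ -m]`.
Only the case `a = 0` is needed in the end.
-/

set_option autoImplicit false

open Finset

noncomputable section

namespace Pool.Agent.H63.CY

/-- difference of the counting functions of the two words -/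
def df {d : ℕ} (w : Fin d → Bool × Bool) (j : ℕ) : ℤ :=
  (((univ : Finset (Fin d)).filter (fun c : Fin d => (c : ℕ) < j ∧ (w c).1 = true)).card : ℤ) -
    ((univ : Finset (Fin d)).filter (fun c : Fin d => (c : ℕ) < j ∧ (w c).2 = true)).card

theorem RFA_card {d : ℕ} (P : (Fin (d + 1) → Bool × Bool) → Prop) [DecidablePred P] :
    ((univ : Finset (Fin (d + 1) → Bool × Bool)).filter P).card =
      ∑ x : Bool × Bool, ((univ : Finset (Fin d → Bool × Bool)).filter
        (fun w => P (Fin.cons x w))).card := by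
  simp only [Finset.card_filter]
  rw [← (Fin.consEquiv (fun _ => Bool × Bool)).sum_comp, Fintype.sum_prod_type]
  rfl

/-- the step -/
def RFA_st (x : Bool × Bool) : ℤ := (if x.1 = true then 1 else 0) - (if x.2 = true then 1 else 0)

theorem RFA_df_zero {d : ℕ} (w : Fin d → Bool × Bool) : df w 0 = 0 := by
  simp [df]

theorem RFA_df_succ {d : ℕ} (x : Bool × Bool) (w : Fin d → Bool × Bool) (j : ℕ) :
    df (Fin.cons x w : Fin (d + 1) → Bool × Bool) (j + 1) = RFA_st x + df w j := by
  unfold df RFA_st
  simp only [Finset.card_filter, Fin.sum_univ_succ, Fin.cons_zero, Fin.cons_succ, Fin.val_zero,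
    Fin.val_succ, Nat.succ_pos, true_and, Nat.add_lt_add_iff_right]
  push_cast
  ring

/-- binomial coefficient with an integer lower index -/
def RFA_bz (n : ℕ) (k : ℤ) : ℕ := if k < 0 then 0 else n.choose k.toNat

theorem RFA_bz_succ (n : ℕ) (k : ℤ) : RFA_bz (n + 1) k = RFA_bz n (k - 1) + RFA_bz n k := by
  unfold RFA_bz
  by_cases h : k < 0
  · rw [if_pos h, if_pos (by omega), if_pos h]
  · rw [if_neg h, if_neg h]
    by_cases h1 : k = 0
    · subst h1
      simp
    · rw [if_neg (by omega)]
      obtain ⟨j, rfl⟩ : ∃ j : ℕ, k = (j : ℤ) + 1 := ⟨(k - 1).toNat, by omega⟩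
      have h2 : ((j : ℤ) + 1).toNat = j + 1 := by omega
      have h3 : ((j : ℤ) + 1 - 1).toNat = j := by omega
      rw [h2, h3, Nat.choose_succ_succ]

theorem RFA_bz_two (d : ℕ) (k : ℤ) : RFA_bz (2 * (d + 1)) k =
    RFA_bz (2 * d) (k - 2) + 2 * RFA_bz (2 * d) (k - 1) + RFA_bz (2 * d) k := by
  rw [show 2 * (d + 1) = 2 * d + 1 + 1 by ring, RFA_bz_succ, RFA_bz_succ, RFA_bz_succ (2 * d) k,
    show k - 1 - 1 = k - 2 by ring]
  ring

theorem RFA_bz_symm (d : ℕ) (a : ℤ) : RFA_bz (2 * d) (d + a) = RFA_bz (2 * d) (d - a) := by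
  unfold RFA_bz
  rcases lt_or_ge (d : ℤ) (-a) with h | h
  · rw [if_pos (by omega), if_neg (by omega)]
    exact (Nat.choose_eq_zero_of_lt (by omega)).symm
  · rcases lt_or_ge (d : ℤ) a with h' | h'
    · rw [if_neg (by omega), if_pos (by omega)]
      exact Nat.choose_eq_zero_of_lt (by omega)
    · rw [if_neg (by omega), if_neg (by omega)]
      exact Nat.choose_symm_of_eq_add (by omega)

/-- the number of the words with a given end -/
theorem RFA_end (d : ℕ) : ∀ a : ℤ,
    ((univ : Finset (Fin d → Bool × Bool)).filter (fun w => df w d = a)).card =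
      RFA_bz (2 * d) (d + a) := by
  induction d with
  | zero =>
    intro a
    simp only [RFA_df_zero]
    unfold RFA_bz
    by_cases h : a = 0
    · subst h
      simp
    · have h2 : (Finset.filter (fun _ : Fin 0 → Bool × Bool => (0 : ℤ) = a) univ) = ∅ := by
        rw [Finset.filter_eq_empty_iff]
        intro _ _ h3
        exact h h3.symm
      rw [h2]
      rw [Finset.card_empty]
      by_cases h3 : ((0 : ℕ) : ℤ) + a < 0
      · rw [if_pos h3]
      · rw [if_neg h3]
        exact (Nat.choose_eq_zero_of_lt (by omega)).symm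
  | succ d ih =>
    intro a
    rw [RFA_card]
    have h1 : ∀ x : Bool × Bool, ((univ : Finset (Fin d → Bool × Bool)).filter
        (fun w => df (Fin.cons x w : Fin (d + 1) → Bool × Bool) (d + 1) = a)).card =
        RFA_bz (2 * d) (d + (a - RFA_st x)) := by
      intro x
      rw [← ih]
      congr 1
      refine Finset.filter_congr fun w _ => ?_
      rw [RFA_df_succ]
      constructor <;> intro h <;> linarith
    rw [Finset.sum_congr rfl fun x _ => h1 x]
    rw [Fintype.sum_prod_type]
    simp only [Fintype.sum_bool, RFA_st]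
    rw [RFA_bz_two]
    simp only [if_true, Bool.false_eq_true, if_false, sub_self, sub_zero, zero_sub]
    rw [show ((d + 1 : ℕ) : ℤ) + a - 2 = d + (a - 1) by push_cast; ring,
      show ((d + 1 : ℕ) : ℤ) + a - 1 = d + a by push_cast; ring,
      show ((d + 1 : ℕ) : ℤ) + a = d + (a - -1) by push_cast; ring]
    ring

/-- the reflection formula -/
theorem RFA_refl (d : ℕ) : ∀ a m : ℤ, 0 ≤ m → -m ≤ a →
    ((univ : Finset (Fin d → Bool × Bool)).filter
      (fun w => df w d = a ∧ ∃ j ≤ d, df w j ≤ -m)).card = RFA_bz (2 * d) (d - a - 2 * m) := by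
  induction d with
  | zero =>
    intro a m hm ha
    unfold RFA_bz
    by_cases h : a = 0 ∧ m = 0
    · obtain ⟨rfl, rfl⟩ := h
      simp [RFA_df_zero]
    · rw [if_pos (by omega), Finset.card_eq_zero, Finset.filter_eq_empty_iff]
      rintro w _ ⟨h3, j, hj, h4⟩
      obtain rfl : j = 0 := by omega
      rw [RFA_df_zero] at h3 h4
      exact h ⟨h3.symm, by omega⟩
  | succ d ih =>
    intro a m hm ha
    rcases hm.eq_or_lt with h0 | h0
    · subst h0
      have h1 : ((univ : Finset (Fin (d + 1) → Bool × Bool)).filter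
          (fun w => df w (d + 1) = a ∧ ∃ j ≤ d + 1, df w j ≤ -0)) =
          (univ : Finset (Fin (d + 1) → Bool × Bool)).filter (fun w => df w (d + 1) = a) := by
        refine Finset.filter_congr fun w _ => ?_
        constructor
        · exact fun h => h.1
        · exact fun h => ⟨h, 0, by omega, by rw [RFA_df_zero]; simp⟩
      rw [h1, RFA_end, RFA_bz_symm, mul_zero, sub_zero]
    · rw [RFA_card]
      have h1 : ∀ x : Bool × Bool, ((univ : Finset (Fin d → Bool × Bool)).filter
          (fun w => df (Fin.cons x w : Fin (d + 1) → Bool × Bool) (d + 1) = a ∧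
            ∃ j ≤ d + 1, df (Fin.cons x w : Fin (d + 1) → Bool × Bool) j ≤ -m)).card =
          RFA_bz (2 * d) (d - (a - RFA_st x) - 2 * (m + RFA_st x)) := by
        intro x
        have hst : -1 ≤ RFA_st x ∧ RFA_st x ≤ 1 := by
          unfold RFA_st
          constructor <;> split_ifs <;> norm_num
        rw [← ih (a - RFA_st x) (m + RFA_st x) (by omega) (by omega)]
        congr 1
        refine Finset.filter_congr fun w _ => ?_
        rw [RFA_df_succ]
        constructor
        · rintro ⟨h2, j, hj, h3⟩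
          refine ⟨by linarith, ?_⟩
          rcases j with _ | j
          · rw [RFA_df_zero] at h3
            omega
          · rw [RFA_df_succ] at h3
            exact ⟨j, by omega, by linarith⟩
        · rintro ⟨h2, j, hj, h3⟩
          refine ⟨by linarith, j + 1, by omega, ?_⟩
          rw [RFA_df_succ]
          linarith
      rw [Finset.sum_congr rfl fun x _ => h1 x]
      rw [Fintype.sum_prod_type]
      simp only [Fintype.sum_bool, RFA_st]
      rw [RFA_bz_two]
      simp only [if_true, Bool.false_eq_true, if_false, sub_self, sub_zero, zero_sub, add_zero]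
      rw [show ((d + 1 : ℕ) : ℤ) - a - 2 * m - 2 = d - (a - 1) - 2 * (m + 1) by push_cast; ring,
        show ((d + 1 : ℕ) : ℤ) - a - 2 * m - 1 = d - a - 2 * m by push_cast; ring,
        show ((d + 1 : ℕ) : ℤ) - a - 2 * m = d - (a - -1) - 2 * (m + -1) by push_cast; ring]
      ring

theorem cnt_zero (d : ℕ) : ((univ : Finset (Fin d → Bool × Bool)).filter (fun w => df w d = 0)).card = (2 * d).choose d := by
  rw [RFA_end]
  unfold RFA_bz
  rw [if_neg (by omega)]
  congr 1

/-- reflection -/
theorem cnt_refl (d m : ℕ) (hm : 2 * m ≤ d) :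
    ((univ : Finset (Fin d → Bool × Bool)).filter (fun w => df w d = 0 ∧ ∃ j ≤ d, df w j ≤ -(m : ℤ))).card =
      (2 * d).choose (d - 2 * m) := by
  rw [RFA_refl d 0 m (by positivity) (by simp)]
  unfold RFA_bz
  rw [if_neg (by omega)]
  congr 1
  omega

theorem cnt_refl' (d m : ℕ) (hm : d < 2 * m) :
    ((univ : Finset (Fin d → Bool × Bool)).filter (fun w => df w d = 0 ∧ ∃ j ≤ d, df w j ≤ -(m : ℤ))).card = 0 := by
  rw [RFA_refl d 0 m (by positivity) (by simp)]
  unfold RFA_bz
  rw [if_pos (by omega)]

end Pool.Agent.H63.CY
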