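import Pool.Agent.H63.CY.RFA
import Pool.Agent.H63.CY.CTC

/-!
# RFB: the sum of the minima

`∑_{p ≤ d} MM d p = ∑_{w : df w d = 0} min_{0 ≤ j < d} df w j`: bijection between `⋃_p L0 d p × L0 d p` and the words `w : Fin d → Bool × Bool` with
`df w d = 0`: `w c = (U (c+1) ≠ U c, V (c+1) ≠ V c)` (as in CTA), `df w j = U j - V j` for `0 ≤ j ≤ d`; `p = U d = V d`. The value at `j = d` is `0`, the
same as at `j = 0`. The minimum is `≤ 0` and `≥ -d`, and `min = - ∑_{m=1}^{d} [∃ j ≤ d, df w j ≤ -m]`. So the sum is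
`- ∑_{m=1}^{d} cnt = - ∑_{m ≥ 1, 2m ≤ d} C(2d, d-2m)` (`cnt_refl`, `cnt_refl'`). Finally
`2 ∑_{m ≥ 1} C(2d, d-2m) = ∑_{k ≡ d mod 2} C(2d, k) - C(2d, d) = 2^(2d-1) - C(2d, d)` (`d ≥ 1`; the sum of the binomials over one parity class).
-/

/-!
# RFB: the sum of the minima
-/

set_option autoImplicit false

open Finset

noncomputable section

namespace Pool.Agent.H63.CY

/-- number of letters `true` before `j` -/
def RFB_ct {d : ℕ} (s : Fin d → Bool) (j : ℕ) : ℤ :=
  (((univ : Finset (Fin d)).filter (fun c : Fin d => (c : ℕ) < j ∧ s c = true)).card : ℤ)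

/-- number of letters `true` -/
def RFB_n {d : ℕ} (s : Fin d → Bool) : ℕ := ((univ : Finset (Fin d)).filter (fun c : Fin d => s c = true)).card

/-- the word of a counting function -/
def RFB_w (d : ℕ) (U : ℤ → ℤ) (c : Fin d) : Bool := decide (U (((c : ℕ) : ℤ) + 1) ≠ U ((c : ℕ) : ℤ))

theorem RFB_df {d : ℕ} (w : Fin d → Bool × Bool) (j : ℕ) :
    df w j = RFB_ct (fun c => (w c).1) j - RFB_ct (fun c => (w c).2) j := rfl

theorem RFB_ct_zero {d : ℕ} (s : Fin d → Bool) : RFB_ct s 0 = 0 := by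
  simp [RFB_ct]

theorem RFB_ct_succ {d : ℕ} (s : Fin d → Bool) (j : ℕ) (hj : j < d) :
    RFB_ct s (j + 1) = RFB_ct s j + (if s ⟨j, hj⟩ = true then 1 else 0) := by
  unfold RFB_ct
  split_ifs with h
  · have e : (univ : Finset (Fin d)).filter (fun c : Fin d => (c : ℕ) < j + 1 ∧ s c = true) =
        insert (⟨j, hj⟩ : Fin d) ((univ : Finset (Fin d)).filter (fun c : Fin d => (c : ℕ) < j ∧ s c = true)) := by
      ext c
      simp only [mem_filter, mem_univ, true_and, mem_insert, Fin.ext_iff]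
      constructor
      · rintro ⟨h1, h2⟩
        rcases Nat.lt_succ_iff_lt_or_eq.mp h1 with h3 | h3
        · exact Or.inr ⟨h3, h2⟩
        · exact Or.inl h3
      · rintro (h1 | ⟨h1, h2⟩)
        · refine ⟨by omega, ?_⟩
          have : c = ⟨j, hj⟩ := Fin.ext h1
          rw [this, h]
        · exact ⟨by omega, h2⟩
    rw [e, card_insert_of_notMem (by simp)]
    push_cast
    ring
  · have e : (univ : Finset (Fin d)).filter (fun c : Fin d => (c : ℕ) < j + 1 ∧ s c = true) =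
        (univ : Finset (Fin d)).filter (fun c : Fin d => (c : ℕ) < j ∧ s c = true) := by
      ext c
      simp only [mem_filter, mem_univ, true_and]
      constructor
      · rintro ⟨h1, h2⟩
        refine ⟨?_, h2⟩
        rcases Nat.lt_succ_iff_lt_or_eq.mp h1 with h3 | h3
        · exact h3
        · exfalso
          apply h
          have : c = ⟨j, hj⟩ := Fin.ext h3
          rw [← this, h2]
      · rintro ⟨h1, h2⟩
        exact ⟨by omega, h2⟩
    rw [e, add_zero]

theorem RFB_ct_d {d : ℕ} (s : Fin d → Bool) : RFB_ct s d = (RFB_n s : ℤ) := by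
  unfold RFB_ct RFB_n
  congr 2
  ext c
  simp

theorem RFB_ct_nonneg {d : ℕ} (s : Fin d → Bool) (j : ℕ) : 0 ≤ RFB_ct s j := by
  unfold RFB_ct
  positivity

theorem RFB_ct_le {d : ℕ} (s : Fin d → Bool) (j : ℕ) : RFB_ct s j ≤ d := by
  unfold RFB_ct
  have h := card_le_univ ((univ : Finset (Fin d)).filter (fun c : Fin d => (c : ℕ) < j ∧ s c = true))
  rw [Fintype.card_fin] at h
  exact_mod_cast h

theorem RFB_n_le {d : ℕ} (s : Fin d → Bool) : RFB_n s ≤ d := by
  have h := RFB_ct_le s d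
  rw [RFB_ct_d] at h
  exact_mod_cast h

theorem RFB_val {d p : ℕ} {U : ℤ → ℤ} (hU : U ∈ LF0 d p) (j : ℕ) (hj : j ≤ d) :
    U j = RFB_ct (RFB_w d U) j := by
  induction j with
  | zero =>
    rw [RFB_ct_zero]
    exact hU.2
  | succ j ih =>
    rw [RFB_ct_succ _ j (by omega), ← ih (by omega)]
    have h := hU.1.1 (j : ℤ)
    simp only [RFB_w, decide_eq_true_eq]
    push_cast
    split_ifs with h1
    · omega
    · push Not at h1
      omega

theorem RFB_per {d p : ℕ} {U : ℤ → ℤ} (hU : U ∈ LF0 d p) (r k : ℤ) : U (r + d * k) = U r + k * p := by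
  induction k using Int.induction_on with
  | zero => simp
  | succ k ih =>
    have h := hU.1.2 (r + d * (k : ℤ))
    have e : r + (d : ℤ) * ((k : ℤ) + 1) = r + d * (k : ℤ) + d := by ring
    rw [e, h, ih]
    ring
  | pred k ih =>
    have h := hU.1.2 (r + d * (-(k : ℤ) - 1))
    have e : r + (d : ℤ) * (-(k : ℤ) - 1) + d = r + d * (-(k : ℤ)) := by ring
    rw [e, ih] at h
    linarith

theorem RFB_inj {d p : ℕ} (hd : 1 ≤ d) {U V : ℤ → ℤ} (hU : U ∈ LF0 d p) (hV : V ∈ LF0 d p)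
    (h : RFB_w d U = RFB_w d V) : U = V := by
  funext i
  have hd' : (0 : ℤ) < d := by exact_mod_cast hd
  have e : i = i % d + d * (i / d) := (Int.emod_add_mul_ediv i d).symm
  rw [e, RFB_per hU, RFB_per hV]
  have h1 := Int.emod_nonneg i hd'.ne'
  have h2 := Int.emod_lt_of_pos i hd'
  obtain ⟨j, hj⟩ := Int.eq_ofNat_of_zero_le h1
  rw [hj]
  have hj2 : j ≤ d := by omega
  rw [RFB_val hU j hj2, RFB_val hV j hj2, h]

theorem RFB_card (d p : ℕ) : ((univ : Finset (Fin d → Bool)).filter (fun s => RFB_n s = p)).card = d.choose p := by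
  have e : d.choose p = (powersetCard p (univ : Finset (Fin d))).card := by
    rw [card_powersetCard, card_univ, Fintype.card_fin]
  rw [e]
  refine card_bij (fun s _ => (univ : Finset (Fin d)).filter (fun c => s c = true)) ?_ ?_ ?_
  · intro s hs
    rw [mem_filter] at hs
    rw [mem_powersetCard]
    exact ⟨subset_univ _, hs.2⟩
  · intro s _ t _ h
    funext c
    have h1 := Finset.ext_iff.mp h c
    simp only [mem_filter, mem_univ, true_and] at h1
    exact Bool.eq_iff_iff.mpr h1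
  · intro A hA
    rw [mem_powersetCard] at hA
    refine ⟨fun c => decide (c ∈ A), ?_, ?_⟩
    · rw [mem_filter]
      refine ⟨mem_univ _, ?_⟩
      unfold RFB_n
      simp [hA.2]
    · ext c
      simp

theorem RFB_image {d : ℕ} (hd : 1 ≤ d) (p : ℕ) :
    (L0 d p).image (RFB_w d) = (univ : Finset (Fin d → Bool)).filter (fun s => RFB_n s = p) := by
  apply eq_of_subset_of_card_le
  · intro s hs
    rw [mem_image] at hs
    obtain ⟨U, hU, rfl⟩ := hs
    rw [mem_L0 hd] at hU
    rw [mem_filter]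
    refine ⟨mem_univ _, ?_⟩
    have h1 := RFB_val hU d le_rfl
    rw [RFB_ct_d] at h1
    have h2 := hU.1.2 0
    rw [zero_add, hU.2, zero_add] at h2
    rw [h2] at h1
    exact_mod_cast h1.symm
  · rw [RFB_card, card_image_of_injOn, card_L0 hd]
    intro U hU V hV h
    exact RFB_inj hd ((mem_L0 hd).mp hU) ((mem_L0 hd).mp hV) h

theorem RFB_sum {d : ℕ} (hd : 1 ≤ d) (p : ℕ) (F : (Fin d → Bool) → ℤ) :
    ∑ U ∈ L0 d p, F (RFB_w d U) = ∑ s ∈ (univ : Finset (Fin d → Bool)).filter (fun s => RFB_n s = p), F s := by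
  rw [← RFB_image hd p, sum_image]
  intro U hU V hV h
  exact RFB_inj hd ((mem_L0 hd).mp hU) ((mem_L0 hd).mp hV) h

open Classical in
/-- minus the depth of a word -/
def RFB_g {d : ℕ} (w : Fin d → Bool × Bool) : ℤ :=
  -∑ m ∈ Icc 1 d, (if ∃ j ≤ d, df w j ≤ -(m : ℤ) then (1 : ℤ) else 0)

theorem RFB_mn {d p : ℕ} (hd : 1 ≤ d) {U V : ℤ → ℤ} (hU : U ∈ LF0 d p) (hV : V ∈ LF0 d p) :
    mn d (fun i => U i - V i) = RFB_g (fun c => (RFB_w d U c, RFB_w d V c)) := by
  have hd' : (0 : ℤ) < d := by exact_mod_cast hd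
  have hf : ∀ i : ℤ, (fun i => U i - V i) (i + d) = (fun i => U i - V i) i := by
    intro i
    have h1 := hU.1.2 i
    have h2 := hV.1.2 i
    simp only [h1, h2]
    ring
  have hle := fun h => le_mn (f := fun i => U i - V i) hd hf h
  set M := mn d (fun i => U i - V i) with hM
  have hdf : ∀ j : ℕ, j ≤ d → df (fun c => (RFB_w d U c, RFB_w d V c)) j = U j - V j := by
    intro j hj
    rw [RFB_df, RFB_val hU j hj, RFB_val hV j hj]
  have hM0 : M ≤ 0 := by
    have h := (hle M).mp le_rfl 0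
    simp only [hU.2, hV.2] at h
    omega
  have hred : ∀ i : ℤ, ∃ j : ℕ, j ≤ d ∧ U i - V i = U j - V j := by
    intro i
    have h1 := Int.emod_nonneg i hd'.ne'
    have h2 := Int.emod_lt_of_pos i hd'
    obtain ⟨j, hj⟩ := Int.eq_ofNat_of_zero_le h1
    refine ⟨j, by omega, ?_⟩
    have e : i = i % d + d * (i / d) := (Int.emod_add_mul_ediv i d).symm
    rw [e, RFB_per hU, RFB_per hV, hj]
    ring
  have hMd : -(d : ℤ) ≤ M := by
    rw [hle]
    intro i
    obtain ⟨j, hj, e⟩ := hred i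
    simp only [e]
    rw [RFB_val hU j hj, RFB_val hV j hj]
    have h1 := RFB_ct_nonneg (RFB_w d U) j
    have h2 := RFB_ct_le (RFB_w d V) j
    omega
  have hiff : ∀ m : ℕ, (∃ j ≤ d, df (fun c => (RFB_w d U c, RFB_w d V c)) j ≤ -(m : ℤ)) ↔ M ≤ -(m : ℤ) := by
    intro m
    constructor
    · rintro ⟨j, hj, h⟩
      rw [hdf j hj] at h
      exact ((hle M).mp le_rfl j).trans h
    · intro h
      by_contra hcon
      push Not at hcon
      have h3 : -(m : ℤ) + 1 ≤ M := by
        rw [hle]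
        intro i
        obtain ⟨j, hj, e⟩ := hred i
        have h4 := hcon j hj
        rw [hdf j hj] at h4
        simp only [e]
        omega
      omega
  unfold RFB_g
  have e1 : ∑ m ∈ Icc 1 d, (if ∃ j ≤ d, df (fun c => (RFB_w d U c, RFB_w d V c)) j ≤ -(m : ℤ) then (1 : ℤ) else 0) =
      ∑ m ∈ Icc 1 d, (if m ≤ (-M).toNat then (1 : ℤ) else 0) := by
    refine sum_congr rfl fun m _ => ?_
    congr 1
    rw [hiff, eq_iff_iff]
    omega
  rw [e1, ← sum_filter, sum_const, nsmul_eq_mul, mul_one]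
  have e2 : (Icc 1 d).filter (fun m => m ≤ (-M).toNat) = Icc 1 (-M).toNat := by
    ext m
    simp only [mem_filter, mem_Icc]
    omega
  rw [e2, Nat.card_Icc]
  omega

theorem RFB_split (d : ℕ) (F : ℕ → ℤ) : ∑ k ∈ range (2 * d + 1), F k =
    F d + ∑ k ∈ range d, (F (d - 1 - k) + F (d + (k + 1))) := by
  have e : 2 * d + 1 = d + (d + 1) := by ring
  rw [e, sum_range_add, sum_range_succ', sum_add_distrib, sum_range_reflect (fun k => F k) d, add_zero]
  ring

theorem RFB_sign (n : ℕ) : (1 : ℤ) + (-1) ^ n = if Even n then 2 else 0 := by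
  split_ifs with h
  · rw [h.neg_one_pow]
    norm_num
  · rw [(Nat.not_even_iff_odd.mp h).neg_one_pow]
    norm_num

theorem RFB_even (d : ℕ) (G : ℕ → ℤ) : ∑ m ∈ Icc 1 d, (if 2 * m ≤ d then G (2 * m) else 0) =
    ∑ j ∈ Icc 1 d, (if Even j then G j else 0) := by
  rw [← sum_filter, ← sum_filter]
  refine sum_bij' (fun m _ => 2 * m) (fun j _ => j / 2) ?_ ?_ ?_ ?_ ?_
  · intro m hm
    simp only [mem_filter, mem_Icc] at hm ⊢
    exact ⟨⟨by omega, hm.2⟩, even_two_mul m⟩
  · intro j hj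
    simp only [mem_filter, mem_Icc] at hj ⊢
    obtain ⟨⟨h1, h2⟩, r, hr⟩ := hj
    omega
  · intro m _
    simp
  · intro j hj
    simp only [mem_filter, mem_Icc] at hj ⊢
    obtain ⟨⟨h1, h2⟩, r, hr⟩ := hj
    omega
  · intro m _
    rfl

theorem RFB_Icc (d : ℕ) (G : ℕ → ℤ) : ∑ j ∈ Icc 1 d, G j = ∑ k ∈ range d, G (k + 1) := by
  rw [range_eq_Ico, sum_Ico_add' G 0 d 1]
  rfl

theorem RFB_bin {d : ℕ} (hd : 1 ≤ d) :
    2 * ∑ m ∈ Icc 1 d, (if 2 * m ≤ d then ((2 * d).choose (d - 2 * m) : ℤ) else 0) =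
      2 ^ (2 * d - 1) - ((2 * d).choose d : ℤ) := by
  rw [RFB_even d (fun j => ((2 * d).choose (d - j) : ℤ)), RFB_Icc]
  have s1 : ∑ k ∈ range (2 * d + 1), ((2 * d).choose k : ℤ) = 2 ^ (2 * d) := by
    exact_mod_cast Nat.sum_range_choose (2 * d)
  have s2 : ∑ k ∈ range (2 * d + 1), ((-1 : ℤ)) ^ k * ((2 * d).choose k : ℤ) = 0 :=
    Int.alternating_sum_range_choose_of_ne (by omega)
  have s3 : ∑ k ∈ range (2 * d + 1), (1 + (-1 : ℤ) ^ (k + d)) * ((2 * d).choose k : ℤ) = 2 ^ (2 * d) := by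
    have e : ∀ k ∈ range (2 * d + 1), (1 + (-1 : ℤ) ^ (k + d)) * ((2 * d).choose k : ℤ) =
        ((2 * d).choose k : ℤ) + (-1) ^ d * ((-1 : ℤ) ^ k * ((2 * d).choose k : ℤ)) := by
      intro k _
      rw [pow_add]
      ring
    rw [sum_congr rfl e, sum_add_distrib, ← mul_sum, s1, s2, mul_zero, add_zero]
  rw [RFB_split] at s3
  have e4 : ∀ k ∈ range d, (1 + (-1 : ℤ) ^ (d - 1 - k + d)) * ((2 * d).choose (d - 1 - k) : ℤ) +
      (1 + (-1 : ℤ) ^ (d + (k + 1) + d)) * ((2 * d).choose (d + (k + 1)) : ℤ) =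
      4 * (if Even (k + 1) then ((2 * d).choose (d - (k + 1)) : ℤ) else 0) := by
    intro k hk
    rw [mem_range] at hk
    have c1 : (2 * d).choose (d + (k + 1)) = (2 * d).choose (d - (k + 1)) := by
      rw [← Nat.choose_symm_of_eq_add]
      omega
    have c2 : d - 1 - k = d - (k + 1) := by omega
    rw [c1, c2, RFB_sign, RFB_sign]
    have p1 : Even (d - (k + 1) + d) ↔ Even (k + 1) := by
      have : d - (k + 1) + d + (k + 1) = 2 * d := by omega
      have h2 : Even (d - (k + 1) + d + (k + 1)) := by rw [this]; exact even_two_mul d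
      exact Nat.even_add.mp h2
    have p2 : Even (d + (k + 1) + d) ↔ Even (k + 1) := by
      have : d + (k + 1) + d = (k + 1) + 2 * d := by ring
      rw [this, Nat.even_add]
      simp
    simp only [p1, p2]
    split_ifs with h
    · ring
    · ring
  rw [sum_congr rfl e4, ← mul_sum, ← two_mul d, RFB_sign] at s3
  rw [if_pos (even_two_mul d)] at s3
  have e5 : (2 : ℤ) ^ (2 * d) = 2 * 2 ^ (2 * d - 1) := by
    rw [← pow_succ']
    congr 1
    omega
  rw [e5] at s3
  linarith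

theorem RFB_total {d : ℕ} (hd : 1 ≤ d) : ∑ p ∈ range (d + 1), MM d p =
    ∑ w ∈ (univ : Finset (Fin d → Bool × Bool)).filter (fun w => df w d = 0), RFB_g w := by
  have h1 : ∀ p ∈ range (d + 1), MM d p =
      ∑ s ∈ (univ : Finset (Fin d → Bool)).filter (fun s => RFB_n s = p),
        ∑ t ∈ (univ : Finset (Fin d → Bool)).filter (fun t => RFB_n t = RFB_n s), RFB_g (fun c => (s c, t c)) := by
    intro p _
    unfold MM
    have e1 : ∀ U ∈ L0 d p, ∑ V ∈ L0 d p, mn d (fun i => U i - V i) =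
        ∑ t ∈ (univ : Finset (Fin d → Bool)).filter (fun t => RFB_n t = p), RFB_g (fun c => (RFB_w d U c, t c)) := by
      intro U hU
      rw [← RFB_sum hd p (fun t => RFB_g (fun c => (RFB_w d U c, t c)))]
      exact sum_congr rfl fun V hV => RFB_mn hd ((mem_L0 hd).mp hU) ((mem_L0 hd).mp hV)
    rw [sum_congr rfl e1, RFB_sum hd p (fun s => ∑ t ∈ (univ : Finset (Fin d → Bool)).filter
      (fun t => RFB_n t = p), RFB_g (fun c => (s c, t c)))]
    refine sum_congr rfl fun s hs => ?_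
    rw [mem_filter] at hs
    rw [hs.2]
  rw [sum_congr rfl h1, sum_fiberwise_of_maps_to (fun s _ => mem_range.mpr (Nat.lt_succ_of_le (RFB_n_le s)))]
  rw [sum_filter, ← Equiv.sum_comp (Equiv.arrowProdEquivProdArrow (Fin d) (fun _ => Bool) (fun _ => Bool)).symm,
    Fintype.sum_prod_type]
  refine sum_congr rfl fun s _ => ?_
  rw [sum_filter]
  refine sum_congr rfl fun t _ => ?_
  have e : df ((Equiv.arrowProdEquivProdArrow (Fin d) (fun _ => Bool) (fun _ => Bool)).symm (s, t)) d =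
      (RFB_n s : ℤ) - RFB_n t := by
    rw [RFB_df, ← RFB_ct_d, ← RFB_ct_d]
    rfl
  rw [e]
  have e2 : (RFB_n t = RFB_n s) ↔ ((RFB_n s : ℤ) - RFB_n t = 0) := by omega
  simp only [e2]
  rfl

theorem sum_MM {d : ℕ} (hd : 1 ≤ d) : 2 * ∑ p ∈ range (d + 1), MM d p = ((2 * d).choose d : ℤ) - 2 ^ (2 * d - 1) := by
  classical
  rw [RFB_total hd]
  have h1 : ∑ w ∈ (univ : Finset (Fin d → Bool × Bool)).filter (fun w => df w d = 0), RFB_g w =
      -∑ m ∈ Icc 1 d, (if 2 * m ≤ d then ((2 * d).choose (d - 2 * m) : ℤ) else 0) := by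
    unfold RFB_g
    rw [sum_neg_distrib, sum_comm]
    congr 1
    refine sum_congr rfl fun m _ => ?_
    rw [← sum_filter, filter_filter, sum_const, nsmul_eq_mul, mul_one]
    split_ifs with h
    · rw [← cnt_refl d m h]
    · rw [cnt_refl' d m (by omega), Nat.cast_zero]
  rw [h1]
  have h2 := RFB_bin hd
  linarith

theorem RFB_word {d p : ℕ} (hd : 1 ≤ d) (hp : p = 0 ∨ p = d) {U : ℤ → ℤ} (hU : U ∈ L0 d p) :
    RFB_w d U = fun _ => decide (p = d) := by
  have h1 : RFB_w d U ∈ (L0 d p).image (RFB_w d) := mem_image_of_mem _ hU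
  rw [RFB_image hd p, mem_filter] at h1
  have h2 := h1.2
  unfold RFB_n at h2
  funext c
  rcases hp with rfl | rfl
  · rw [card_eq_zero, filter_eq_empty_iff] at h2
    have h3 := h2 (mem_univ c)
    have h4 : decide (0 = d) = false := by
      rw [decide_eq_false_iff_not]
      omega
    rw [h4]
    exact Bool.eq_false_iff.mpr h3
  · have h3 : ((univ : Finset (Fin p)).filter (fun c : Fin p => RFB_w p U c = true)).card = (univ : Finset (Fin p)).card := by
      rw [h2, card_univ, Fintype.card_fin]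
    rw [card_filter_eq_iff] at h3
    rw [h3 c (mem_univ c)]
    simp

theorem RFB_zero {d p : ℕ} (hd : 1 ≤ d) (hp : p = 0 ∨ p = d) : MM d p = 0 := by
  unfold MM
  refine sum_eq_zero fun U hU => sum_eq_zero fun V hV => ?_
  have e : U = V := RFB_inj hd ((mem_L0 hd).mp hU) ((mem_L0 hd).mp hV)
    (by rw [RFB_word hd hp hU, RFB_word hd hp hV])
  subst e
  have hle := fun h => le_mn (f := fun i => U i - U i) hd (by intro i; simp) h
  apply le_antisymm
  · have h := (hle _).mp le_rfl 0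
    simpa using h
  · rw [hle]
    intro i
    simp

theorem MM_zero {d : ℕ} (hd : 1 ≤ d) : MM d 0 = 0 ∧ MM d d = 0 :=
  ⟨RFB_zero hd (Or.inl rfl), RFB_zero hd (Or.inr rfl)⟩

end Pool.Agent.H63.CY
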