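import Pool.Agent.H63.CY.Defs

/-!
# SRA: structures which are not disjoint, `n = d` or `n = d - 1`: there is a single descent

Let `D ∈ LS n d`, not `Disj D`, and `n = d`, or `n = d - 1` and `d ≥ 3`. In `ZMod d`, `i + (a + d : ℕ) = i + a`.
Choose `D i a`, `D (i+a) c` with `a + c` minimal (`1 ≤ a, c ≤ n ≤ d`). By `LS`, `a + c > n`.
(1) `D i m` for `1 ≤ m ≤ a` (else `D (i+m) (a-m)`, smaller pair `(i+m, a-m, c)`).
(2) `D (i+a+m) (c-m)` for `0 ≤ m < c` (else `D (i+a) m`, smaller pair `(i, a, m)`).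
(3) `a + c ≤ d + 1`: if `a + c > d + 1` put `m = d+1-a ∈ [1, c)` in (2): `D (i+d+1) (a+c-d-1) = D (i+1) (a+c-d-1)`, with `D i 1` the total is
  `a + c - d ≤ n` (`a, c ≤ n ≤ d`), contradiction.
(4) `a + c ≠ d`: this could only happen for `n = d - 1`, `d ≥ 3`: (2) with `m = c - 1`: `D (i+d-1) 1`, and `D (i+d) 1 = D i 1`: total `2 ≤ n`.
So `a + c = d + 1`.
(5) `¬ D (i+j) k` for `1 ≤ j`, `1 ≤ k`, `j + k ≤ d`:
  case A, `j ≤ a` and `j + k ≤ n`: `D i j` and `D (i+j) k`: contradiction.
  case B, `a ≤ j` and `d + 1 - j ≤ n` (i.e. `j ≥ 2` if `n = d - 1`, always true if `n = d`): by (2), `D (i+(j+k)) (d+1-j-k)`, with `D (i+j) k` the total is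
   `d + 1 - j ≤ n`: contradiction.
  If `n = d` A or B applies. If `n = d - 1`: `a = d + 1 - c ≥ 2`. If `j ≥ a`, B applies. If `j < a` and `j + k ≤ n`, A applies. Left: `j < a`, `j + k = d`:
   `D (i+j) ((a-j) + (d-a))` (`d - a ≥ 1` as `a ≤ n`) gives `D (i+j) (a-j)` (excluded by A: `a ≤ n`) or `D (i+a) (d-a)` (excluded by B).
-/

set_option autoImplicit false

open Finset

noncomputable section

namespace Pool.Agent.H63.CY

theorem single_run {n d : ℕ} (hd : 1 ≤ d) (hn : n = d ∨ (n + 1 = d ∧ 3 ≤ d)) {D : ZMod d → ℕ → Prop} (hD : D ∈ LS n d)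
    (h : ¬ Disj D) : ∃ i : ZMod d, D i 1 ∧ ∀ j k : ℕ, 1 ≤ j → 1 ≤ k → j + k ≤ d → ¬ D (i + j) k := by
  classical
  obtain ⟨hD1, hD2⟩ := hD
  have hdd : ((d : ℕ) : ZMod d) = 0 := ZMod.natCast_self d
  have hnd : n ≤ d := by omega
  have hex : ∃ s : ℕ, ∃ (i : ZMod d) (a c : ℕ), a + c = s ∧ D i a ∧ D (i + a) c := by
    unfold Disj at h
    push Not at h
    obtain ⟨i, a, c, h1, h2⟩ := h
    exact ⟨a + c, i, a, c, rfl, h1, h2⟩
  obtain ⟨i, a, c, hs, hia, hac⟩ := Nat.find_spec hex
  have hmin : ∀ (i' : ZMod d) (a' c' : ℕ), D i' a' → D (i' + a') c' → a + c ≤ a' + c' := by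
    intro i' a' c' h1 h2
    rw [hs]
    exact Nat.find_min' hex ⟨i', a', c', rfl, h1, h2⟩
  obtain ⟨ha1, ha2⟩ := hD1 _ _ hia
  obtain ⟨hc1, hc2⟩ := hD1 _ _ hac
  have hgt : n < a + c := by
    by_contra hcon
    exact (hD2 i a c ha1 hc1 (by omega)).1 ⟨hia, hac⟩
  -- (1)
  have s1 : ∀ m : ℕ, 1 ≤ m → m ≤ a → D i m := by
    intro m hm1 hm2
    rcases Nat.lt_or_ge m a with hlt | hge
    · obtain ⟨k, rfl⟩ : ∃ k, a = m + k := ⟨a - m, by omega⟩
      rcases (hD2 i m k hm1 (by omega) ha2).2 hia with h1 | h1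
      · exact h1
      · exfalso
        have h2 : D (i + (m : ZMod d) + (k : ZMod d)) c := by
          have : i + (m : ZMod d) + (k : ZMod d) = i + ((m + k : ℕ) : ZMod d) := by
            push_cast; ring
          rw [this]; exact hac
        have := hmin _ _ _ h1 h2
        omega
    · obtain rfl : m = a := by omega
      exact hia
  -- (2)
  have s2 : ∀ m : ℕ, m < c → D (i + ((a + m : ℕ) : ZMod d)) (c - m) := by
    intro m hm
    rcases Nat.eq_zero_or_pos m with rfl | hm1
    · simpa using hac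
    · have h0 : D (i + a) (m + (c - m)) := by
        rw [show m + (c - m) = c by omega]; exact hac
      rcases (hD2 (i + a) m (c - m) hm1 (by omega) (by omega)).2 h0 with h1 | h1
      · exfalso
        have := hmin _ _ _ hia h1
        omega
      · have : i + ((a + m : ℕ) : ZMod d) = i + (a : ZMod d) + (m : ZMod d) := by
          push_cast; ring
        rw [this]; exact h1
  have s11 : D i 1 := s1 1 le_rfl ha1
  -- (3)
  have s3 : a + c ≤ d + 1 := by
    by_contra hcon
    have h1 := s2 (d + 1 - a) (by omega)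
    have h2 : i + ((a + (d + 1 - a) : ℕ) : ZMod d) = i + ((1 : ℕ) : ZMod d) := by
      rw [show a + (d + 1 - a) = d + 1 by omega]
      push_cast
      rw [hdd]; ring
    rw [h2] at h1
    have := hmin _ _ _ s11 h1
    omega
  -- (4)
  have s4 : a + c ≠ d := by
    intro hcon
    have hd3 : 3 ≤ d := by
      rcases hn with hn | hn
      · omega
      · exact hn.2
    have h1 := s2 (c - 1) (by omega)
    have h2 : c - (c - 1) = 1 := by omega
    rw [h2] at h1
    have h3 : i + ((a + (c - 1) : ℕ) : ZMod d) + ((1 : ℕ) : ZMod d) = i := by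
      have : i + ((a + (c - 1) : ℕ) : ZMod d) + ((1 : ℕ) : ZMod d)
          = i + ((a + (c - 1) + 1 : ℕ) : ZMod d) := by
        push_cast; ring
      rw [this, show a + (c - 1) + 1 = d by omega, hdd, add_zero]
    have h4 : D (i + ((a + (c - 1) : ℕ) : ZMod d) + ((1 : ℕ) : ZMod d)) 1 := by
      rw [h3]; exact s11
    have := hmin _ _ _ h1 h4
    omega
  have s5 : a + c = d + 1 := by
    rcases hn with hn | hn <;> omega
  -- case A
  have cA : ∀ j k : ℕ, 1 ≤ j → 1 ≤ k → j ≤ a → j + k ≤ n → ¬ D (i + j) k := by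
    intro j k hj hk hja hjk hDk
    exact (hD2 i j k hj hk hjk).1 ⟨s1 j hj hja, hDk⟩
  -- case B
  have cB : ∀ j k : ℕ, 1 ≤ j → 1 ≤ k → j + k ≤ d → a ≤ j → d + 1 - j ≤ n → ¬ D (i + j) k := by
    intro j k hj hk hjd haj hjn hDk
    have h1 := s2 (j + k - a) (by omega)
    have h2 : i + ((a + (j + k - a) : ℕ) : ZMod d) = i + (j : ZMod d) + (k : ZMod d) := by
      rw [show a + (j + k - a) = j + k by omega]
      push_cast; ring
    rw [h2] at h1
    exact (hD2 (i + j) k (c - (j + k - a)) hk (by omega) (by omega)).1 ⟨hDk, h1⟩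
  refine ⟨i, s11, ?_⟩
  intro j k hj hk hjk hDk
  rcases hn with hn | hn
  · rcases Nat.lt_or_ge a j with hlt | hge
    · exact cB j k hj hk hjk hlt.le (by omega) hDk
    · exact cA j k hj hk hge (by omega) hDk
  · rcases Nat.lt_or_ge j a with hlt | hge
    · rcases Nat.lt_or_ge n (j + k) with h1 | h1
      · have hk2 : k = (a - j) + (d - a) := by omega
        have hDk' : D (i + j) ((a - j) + (d - a)) := by rw [← hk2]; exact hDk
        rcases (hD2 (i + j) (a - j) (d - a) (by omega) (by omega) (by omega)).2 hDk' with h2 | h2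
        · exact cA j (a - j) hj (by omega) hlt.le (by omega) h2
        · have h3 : i + (j : ZMod d) + ((a - j : ℕ) : ZMod d) = i + (a : ZMod d) := by
            have : i + (j : ZMod d) + ((a - j : ℕ) : ZMod d) = i + ((j + (a - j) : ℕ) : ZMod d) := by
              push_cast; ring
            rw [this, show j + (a - j) = a by omega]
          rw [h3] at h2
          exact cB a (d - a) ha1 (by omega) (by omega) le_rfl (by omega) h2
      · exact cA j k hj hk hlt.le h1 hDk
    · exact cB j k hj hk hjk hge (by omega) hDk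

end Pool.Agent.H63.CY
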