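import Pool.Agent.H63.CY.SRA

/-!
# SRB: structures with a single run and monotone functions

`e = d - n ∈ {0, 1}`. `RN n d` is the set of `f : ℕ → ℕ` with `f j = 0` outside `[1, d]`, nondecreasing on `[1, d]`, `f j ≤ j - e`.
For `f ∈ RN n d`, `i : ZMod d` let `Df f i`: `Df f i (i + j) k := d + 1 ≤ j + k ∧ j + k - d ≤ f j` for `1 ≤ j ≤ d`, `1 ≤ k ≤ n`: position `i + j` is above position
`i + j + k = i + d + m`, `m = j + k - d`, iff `m ≤ f j`. (Every `x : ZMod d` is `i + j` for exactly one `j ∈ [1, d]`.)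

(1) `Df f i ∈ LS n d`. Let `x = i + j`. `D x a` and `D (x+a) c`: `j + a = d + m`, `1 ≤ m ≤ f j ≤ j ≤ d`, `x + a = i + m`, so `m + c = d + m'`, `m' ≥ 1`, and
 `a + c = 2d + m' - j ≥ d + 1 > n`: impossible. `D x (a+c)`: `j + a + c = d + m`, `1 ≤ m ≤ f j`. If `j + a ≤ d`: `x + a = i + (j+a)`, `f (j+a) ≥ f j ≥ m`, so `D (x+a) c`.
 If `j + a = d + m''`, `m'' ≥ 1`: `m'' < m ≤ f j`, so `D x a`. (Also `f j ≤ j - e` gives `k ≤ n` from `m ≤ f j`: `k = d + m - j ≤ d - e = n`.)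
(2) If `D ∈ LS n d` and `¬ D (i+j) k` for all `j, k ≥ 1`, `j + k ≤ d`, then `D = Df f i` with `f j = #{m ∈ [1, j-e] : D (i+j) (d+m-j)}`:
 if `D (i+j) (d+m-j)` and `1 ≤ m' < m`: `D (i+j) ((d+m'-j) + (m-m'))` (if `d + m' - j ≥ 1`; `m' ≥ 1`, `j ≤ d` ok) gives `D (i+j) (d+m'-j)`, as
 `D (i+m') (m-m')` is excluded (`m ≤ d`). If `j < j' ≤ d` and `D (i+j) (d+m-j)`: `D (i+j) ((j'-j) + (d+m-j'))` gives `D (i+j') (d+m-j')`. So `D (i+j) (d+m-j) ↔ m ≤ f j` and
 `f` is nondecreasing.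
(3) `f` is determined by `Df f i`; `Df f i i 1 ↔ 1 ≤ f d` (`j = d`, `k = 1`; this needs `1 ≤ n`); if `1 ≤ f d`, `i` is the only `i'` with `Df f i i' 1`: for `i' = i + j`,
 `1 ≤ j < d`, `j + 1 ≤ d`, so `¬ D (i+j) 1`.
(4) `¬ Disj (Df f i) ↔ 1 ≤ f (f d)`: `D (i+j) (d+m-j)`, `D (i+m) _` means `1 ≤ m ≤ f j`, `1 ≤ f m`; then `m ≤ f d`, `1 ≤ f m ≤ f (f d)`. Conversely take `j = d`, `m = f d`
 (`f 0 = 0`, so `1 ≤ f d`), `D i (f d)` (as `i = i + d`, `k = f d ≤ n`), and `D (i + f d) (d + 1 - f d)` (`k ≤ n` from `1 ≤ f (f d) ≤ f d - e`).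
(5) By `single_run` the set `{D ∈ LS n d | ¬ Disj D}` is in bijection with `ZMod d × {f ∈ RN n d | 1 ≤ f (f d)}` by `(i, f) ↦ Df f i`.
-/

set_option autoImplicit false

open Finset

noncomputable section

namespace Pool.Agent.H63.CY

/-- monotone functions describing the structures with a single run -/
def RN (n d : ℕ) : Set (ℕ → ℕ) :=
  {f | (∀ j, j = 0 ∨ d < j → f j = 0) ∧ (∀ j k, 1 ≤ j → j ≤ k → k ≤ d → f j ≤ f k) ∧ ∀ j, 1 ≤ j → j ≤ d → f j + (d - n) ≤ j}

/-- the representative in `[1, d]` of a residue class -/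
def SRB_ix {d : ℕ} (y : ZMod d) : ℕ := if y.val = 0 then d else y.val

theorem SRB_ix_pos {d : ℕ} (hd : 1 ≤ d) (y : ZMod d) : 1 ≤ SRB_ix y := by
  unfold SRB_ix; split_ifs <;> omega

theorem SRB_ix_le {d : ℕ} (hd : 1 ≤ d) (y : ZMod d) : SRB_ix y ≤ d := by
  haveI : NeZero d := ⟨by omega⟩
  have := ZMod.val_lt y
  unfold SRB_ix; split_ifs <;> omega

theorem SRB_ix_cast {d : ℕ} (hd : 1 ≤ d) (y : ZMod d) : ((SRB_ix y : ℕ) : ZMod d) = y := by
  haveI : NeZero d := ⟨by omega⟩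
  unfold SRB_ix
  split_ifs with h
  · rw [ZMod.natCast_self]
    exact ((ZMod.val_eq_zero y).1 h).symm
  · exact ZMod.natCast_zmod_val y

theorem SRB_ix_eq {d : ℕ} (hd : 1 ≤ d) (y : ZMod d) {j : ℕ} (h1 : 1 ≤ j) (h2 : j ≤ d)
    (h : ((j : ℕ) : ZMod d) = y) : SRB_ix y = j := by
  haveI : NeZero d := ⟨by omega⟩
  subst h
  unfold SRB_ix
  rw [ZMod.val_natCast]
  rcases Nat.lt_or_eq_of_le h2 with h3 | h3
  · rw [Nat.mod_eq_of_lt h3, if_neg (by omega)]
  · subst h3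
    simp

/-- the structure attached to a monotone function -/
def SRB_Df (n d : ℕ) (f : ℕ → ℕ) (i : ZMod d) : ZMod d → ℕ → Prop := fun x k =>
  1 ≤ k ∧ k ≤ n ∧ d + 1 ≤ SRB_ix (x - i) + k ∧ SRB_ix (x - i) + k ≤ f (SRB_ix (x - i)) + d

theorem SRB_Df_iff {n d : ℕ} (hd : 1 ≤ d) (f : ℕ → ℕ) (i : ZMod d) {j : ℕ} (h1 : 1 ≤ j)
    (h2 : j ≤ d) (k : ℕ) :
    SRB_Df n d f i (i + j) k ↔ 1 ≤ k ∧ k ≤ n ∧ d + 1 ≤ j + k ∧ j + k ≤ f j + d := by
  have : SRB_ix (i + (j : ZMod d) - i) = j := SRB_ix_eq hd _ h1 h2 (by ring)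
  unfold SRB_Df
  rw [this]

theorem SRB_Df_mem {n d : ℕ} (hd : 1 ≤ d) (hn : n = d ∨ (n + 1 = d ∧ 3 ≤ d)) {f : ℕ → ℕ}
    (hf : f ∈ RN n d) (i : ZMod d) : SRB_Df n d f i ∈ LS n d := by
  obtain ⟨hf0, hfm, hfj⟩ := hf
  refine ⟨fun x m h => ⟨h.1, h.2.1⟩, fun x a c ha hc hac => ?_⟩
  set j := SRB_ix (x - i) with hj
  have hj1 : 1 ≤ j := SRB_ix_pos hd _
  have hjd : j ≤ d := SRB_ix_le hd _
  have hx : x = i + (j : ZMod d) := by rw [hj, SRB_ix_cast hd]; ring
  have hfjj := hfj j hj1 hjd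
  rw [hx]
  rcases Nat.lt_or_ge d (j + a) with h | h
  · have hxa : i + (j : ZMod d) + (a : ZMod d) = i + ((j + a - d : ℕ) : ZMod d) := by
      have : ((j + a : ℕ) : ZMod d) = ((j + a - d : ℕ) : ZMod d) := by
        conv_lhs => rw [show j + a = (j + a - d) + d by omega]
        push_cast
        rw [ZMod.natCast_self, add_zero]
      rw [← this]; push_cast; ring
    rw [hxa, SRB_Df_iff hd f i hj1 hjd, SRB_Df_iff hd f i hj1 hjd,
      SRB_Df_iff hd f i (by omega) (by omega)]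
    constructor
    · rintro ⟨⟨_, _, h3, h4⟩, ⟨_, _, h7, h8⟩⟩
      omega
    · rintro ⟨_, _, h3, h4⟩
      left
      refine ⟨ha, by omega, by omega, by omega⟩
  · have hxa : i + (j : ZMod d) + (a : ZMod d) = i + ((j + a : ℕ) : ZMod d) := by
      push_cast; ring
    rw [hxa, SRB_Df_iff hd f i hj1 hjd, SRB_Df_iff hd f i hj1 hjd,
      SRB_Df_iff hd f i (by omega) (by omega)]
    have hm := hfm j (j + a) hj1 (by omega) h
    constructor
    · rintro ⟨⟨_, _, h3, h4⟩, ⟨_, _, h7, h8⟩⟩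
      omega
    · rintro ⟨_, _, h3, h4⟩
      right
      refine ⟨hc, by omega, by omega, by omega⟩

/-- a set of positive integers which is closed downwards -/
theorem SRB_down {N : ℕ} {p : ℕ → Prop} [DecidablePred p]
    (h : ∀ m m', p m → 1 ≤ m' → m' < m → m ≤ N → p m') {m : ℕ} (h1 : 1 ≤ m) (h2 : m ≤ N) :
    p m ↔ m ≤ ((Finset.Icc 1 N).filter p).card := by
  constructor
  · intro hp
    have : Finset.Icc 1 m ⊆ (Finset.Icc 1 N).filter p := by
      intro x hx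
      rw [Finset.mem_Icc] at hx
      rw [Finset.mem_filter, Finset.mem_Icc]
      refine ⟨⟨hx.1, by omega⟩, ?_⟩
      rcases Nat.lt_or_eq_of_le hx.2 with h3 | h3
      · exact h m x hp hx.1 h3 h2
      · rw [h3]; exact hp
    have := Finset.card_le_card this
    rwa [Nat.card_Icc, Nat.add_sub_cancel] at this
  · intro hc
    by_contra hp
    have : (Finset.Icc 1 N).filter p ⊆ Finset.Icc 1 (m - 1) := by
      intro x hx
      rw [Finset.mem_filter, Finset.mem_Icc] at hx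
      rw [Finset.mem_Icc]
      refine ⟨hx.1.1, ?_⟩
      by_contra hlt
      have hmx : m ≤ x := by omega
      rcases Nat.lt_or_eq_of_le hmx with h3 | h3
      · exact hp (h x m hx.2 h1 h3 hx.1.2)
      · rw [h3] at hp; exact hp hx.2
    have := Finset.card_le_card this
    rw [Nat.card_Icc] at this
    omega

theorem SRB_exists {n d : ℕ} (hd : 1 ≤ d) (hn : n = d ∨ (n + 1 = d ∧ 3 ≤ d))
    {D : ZMod d → ℕ → Prop} (hD : D ∈ LS n d) (i : ZMod d)
    (hi : ∀ j k : ℕ, 1 ≤ j → 1 ≤ k → j + k ≤ d → ¬ D (i + j) k) :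
    ∃ f ∈ RN n d, D = SRB_Df n d f i := by
  classical
  obtain ⟨hD1, hD2⟩ := hD
  let P : ℕ → ℕ → Prop := fun j m => D (i + j) (d + m - j)
  have hPd : ∀ j, 1 ≤ j → j ≤ d → ∀ m m', P j m → 1 ≤ m' → m' < m → m ≤ j - (d - n) →
      P j m' := by
    intro j hj1 hjd m m' hP h1 h2 h3
    have hP' : D (i + j) ((d + m' - j) + (m - m')) := by
      have : (d + m' - j) + (m - m') = d + m - j := by omega
      rw [this]; exact hP
    rcases (hD2 (i + j) (d + m' - j) (m - m') (by omega) (by omega) (by omega)).2 hP' with h | h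
    · exact h
    · exfalso
      have e : i + (j : ZMod d) + ((d + m' - j : ℕ) : ZMod d) = i + (m' : ZMod d) := by
        have : ((j + (d + m' - j) : ℕ) : ZMod d) = ((m' + d : ℕ) : ZMod d) := by
          congr 1; omega
        push_cast at this
        rw [ZMod.natCast_self, add_zero] at this
        rw [add_assoc, this]
      rw [e] at h
      exact hi m' (m - m') h1 (by omega) (by omega) h
  have hPm : ∀ j j', 1 ≤ j → j < j' → j' ≤ d → ∀ m, 1 ≤ m → m ≤ j - (d - n) → P j m → P j' m := by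
    intro j j' hj1 hjj hjd m hm1 hm2 hP
    have hP' : D (i + j) ((j' - j) + (d + m - j')) := by
      have : (j' - j) + (d + m - j') = d + m - j := by omega
      rw [this]; exact hP
    rcases (hD2 (i + j) (j' - j) (d + m - j') (by omega) (by omega) (by omega)).2 hP' with h | h
    · exact absurd h (hi j (j' - j) hj1 (by omega) (by omega))
    · have e : i + (j : ZMod d) + ((j' - j : ℕ) : ZMod d) = i + (j' : ZMod d) := by
        have : ((j + (j' - j) : ℕ) : ZMod d) = ((j' : ℕ) : ZMod d) := by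
          congr 1; omega
        push_cast at this
        rw [add_assoc, this]
      rw [e] at h
      exact h
  let f : ℕ → ℕ := fun j => if j = 0 ∨ d < j then 0 else
    ((Finset.Icc 1 (j - (d - n))).filter (P j)).card
  have hfv : ∀ j, 1 ≤ j → j ≤ d →
      f j = ((Finset.Icc 1 (j - (d - n))).filter (P j)).card := by
    intro j h1 h2
    simp only [f]
    rw [if_neg (by omega)]
  have hfle : ∀ j, 1 ≤ j → j ≤ d → f j + (d - n) ≤ j := by
    intro j h1 h2
    rw [hfv j h1 h2]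
    have := Finset.card_filter_le (Finset.Icc 1 (j - (d - n))) (P j)
    rw [Nat.card_Icc] at this
    omega
  have hK : ∀ j, 1 ≤ j → j ≤ d → ∀ m, 1 ≤ m → m ≤ j - (d - n) → (P j m ↔ m ≤ f j) := by
    intro j h1 h2 m h3 h4
    rw [hfv j h1 h2]
    exact SRB_down (fun m m' => hPd j h1 h2 m m') h3 h4
  refine ⟨f, ⟨?_, ?_, hfle⟩, ?_⟩
  · intro j hj
    simp only [f]
    rw [if_pos hj]
  · intro j k h1 h2 h3
    rcases Nat.lt_or_eq_of_le h2 with h4 | h4
    · rw [hfv j h1 (by omega), hfv k (by omega) h3]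
      apply Finset.card_le_card
      intro m hm
      rw [Finset.mem_filter, Finset.mem_Icc] at hm ⊢
      exact ⟨⟨hm.1.1, by omega⟩, hPm j k h1 h4 h3 m hm.1.1 hm.1.2 hm.2⟩
    · rw [h4]
  · funext x k
    apply propext
    set j := SRB_ix (x - i) with hj
    have hj1 : 1 ≤ j := SRB_ix_pos hd _
    have hjd : j ≤ d := SRB_ix_le hd _
    have hx : x = i + (j : ZMod d) := by rw [hj, SRB_ix_cast hd]; ring
    rw [hx, SRB_Df_iff hd f i hj1 hjd]
    constructor
    · intro h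
      obtain ⟨hk1, hk2⟩ := hD1 _ _ h
      have h3 : d + 1 ≤ j + k := by
        by_contra hlt
        exact hi j k hj1 hk1 (by omega) h
      refine ⟨hk1, hk2, h3, ?_⟩
      have h4 : P j (j + k - d) := by
        have : d + (j + k - d) - j = k := by omega
        simp only [P]
        rw [this]; exact h
      have := (hK j hj1 hjd (j + k - d) (by omega) (by omega)).1 h4
      omega
    · rintro ⟨hk1, hk2, h3, h4⟩
      have h5 : P j (j + k - d) := (hK j hj1 hjd (j + k - d) (by omega) (by omega)).2 (by omega)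
      have : d + (j + k - d) - j = k := by omega
      simp only [P] at h5
      rwa [this] at h5

theorem SRB_disj {n d : ℕ} (hd : 1 ≤ d) (hn : n = d ∨ (n + 1 = d ∧ 3 ≤ d)) {f : ℕ → ℕ}
    (hf : f ∈ RN n d) (i : ZMod d) : ¬ Disj (SRB_Df n d f i) ↔ 1 ≤ f (f d) := by
  obtain ⟨hf0, hfm, hfj⟩ := hf
  constructor
  · intro h
    unfold Disj at h
    push Not at h
    obtain ⟨x, a, c, h1, h2⟩ := h
    set j := SRB_ix (x - i) with hj
    have hj1 : 1 ≤ j := SRB_ix_pos hd _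
    have hjd : j ≤ d := SRB_ix_le hd _
    have hx : x = i + (j : ZMod d) := by rw [hj, SRB_ix_cast hd]; ring
    rw [hx] at h1 h2
    rw [SRB_Df_iff hd f i hj1 hjd] at h1
    obtain ⟨ha1, ha2, ha3, ha4⟩ := h1
    have hfjj := hfj j hj1 hjd
    have hxa : i + (j : ZMod d) + (a : ZMod d) = i + ((j + a - d : ℕ) : ZMod d) := by
      have : ((j + a : ℕ) : ZMod d) = ((j + a - d : ℕ) : ZMod d) := by
        conv_lhs => rw [show j + a = (j + a - d) + d by omega]
        push_cast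
        rw [ZMod.natCast_self, add_zero]
      rw [← this]; push_cast; ring
    rw [hxa, SRB_Df_iff hd f i (by omega) (by omega)] at h2
    obtain ⟨hc1, hc2, hc3, hc4⟩ := h2
    have h5 := hfm j d hj1 hjd le_rfl
    have h6 := hfj d hd le_rfl
    have h7 := hfm (j + a - d) (f d) (by omega) (by omega) (by omega)
    omega
  · intro h h'
    have h1 : 1 ≤ f d := by
      by_contra hlt
      have : f d = 0 := by omega
      rw [this, hf0 0 (Or.inl rfl)] at h
      omega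
    have h6 := hfj d hd le_rfl
    have h7 := hfj (f d) h1 (by omega)
    have e1 : SRB_Df n d f i (i + (d : ZMod d)) (f d) :=
      (SRB_Df_iff hd f i hd le_rfl _).2 ⟨h1, by omega, by omega, by omega⟩
    have e2 : SRB_Df n d f i (i + ((f d : ℕ) : ZMod d)) (d + 1 - f d) :=
      (SRB_Df_iff hd f i h1 (by omega) _).2 ⟨by omega, by omega, by omega, by omega⟩
    rw [ZMod.natCast_self, add_zero] at e1
    exact h' i (f d) (d + 1 - f d) e1 e2

theorem SRB_inj {n d : ℕ} (hd : 1 ≤ d) (hn : n = d ∨ (n + 1 = d ∧ 3 ≤ d)) {f g : ℕ → ℕ}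
    (hf : f ∈ RN n d) (hg : g ∈ RN n d) (i : ZMod d) (h : SRB_Df n d f i = SRB_Df n d g i)
    {j : ℕ} (hj1 : 1 ≤ j) (hjd : j ≤ d) : f j ≤ g j := by
  rcases Nat.eq_zero_or_pos (f j) with h0 | h0
  · omega
  have hfj := hf.2.2 j hj1 hjd
  have h1 : SRB_Df n d f i (i + (j : ZMod d)) (d + f j - j) :=
    (SRB_Df_iff hd f i hj1 hjd _).2 ⟨by omega, by omega, by omega, by omega⟩
  rw [h, SRB_Df_iff hd g i hj1 hjd] at h1
  omega

theorem ND_card {n d : ℕ} (hd : 1 ≤ d) (hn : n = d ∨ (n + 1 = d ∧ 3 ≤ d)) :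
    {D ∈ LS n d | ¬ Disj D}.ncard = d * {f ∈ RN n d | 1 ≤ f (f d)}.ncard := by
  haveI : NeZero d := ⟨by omega⟩
  have himg : {D ∈ LS n d | ¬ Disj D} =
      (fun q : ZMod d × (ℕ → ℕ) => SRB_Df n d q.2 q.1) ''
        ((Set.univ : Set (ZMod d)) ×ˢ {f ∈ RN n d | 1 ≤ f (f d)}) := by
    ext D
    constructor
    · rintro ⟨hD, hnd⟩
      obtain ⟨i, _, hi⟩ := single_run hd hn hD hnd
      obtain ⟨f, hf, hDf⟩ := SRB_exists hd hn hD i hi
      refine ⟨(i, f), ⟨Set.mem_univ _, hf, ?_⟩, hDf.symm⟩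
      rw [hDf] at hnd
      exact (SRB_disj hd hn hf i).1 hnd
    · rintro ⟨⟨i, f⟩, ⟨_, hf, hff⟩, rfl⟩
      exact ⟨SRB_Df_mem hd hn hf i, (SRB_disj hd hn hf i).2 hff⟩
  rw [himg, Set.ncard_image_of_injOn, Set.ncard_prod, Set.ncard_univ, Nat.card_zmod]
  rintro ⟨i, f⟩ ⟨_, hf, hff⟩ ⟨i', g⟩ ⟨_, hg, hgg⟩ h
  simp only at h hff hgg hf hg
  have hfd : 1 ≤ f d := by
    by_contra hlt
    have : f d = 0 := by omega
    rw [this, hf.1 0 (Or.inl rfl)] at hff
    omega
  have hfdd := hf.2.2 d hd le_rfl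
  have h1 : SRB_Df n d f i (i + (d : ZMod d)) 1 :=
    (SRB_Df_iff hd f i hd le_rfl _).2 ⟨le_rfl, by omega, by omega, by omega⟩
  rw [ZMod.natCast_self, add_zero, h] at h1
  have hii : i = i' := by
    obtain ⟨_, _, h2, _⟩ := h1
    have h3 := SRB_ix_le hd (i - i')
    have h4 : SRB_ix (i - i') = d := by omega
    have h5 := SRB_ix_cast hd (i - i')
    rw [h4, ZMod.natCast_self] at h5
    exact (sub_eq_zero.1 h5.symm)
  subst hii
  refine Prod.ext rfl ?_
  funext j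
  by_cases hj : j = 0 ∨ d < j
  · change f j = g j
    rw [hf.1 j hj, hg.1 j hj]
  · push Not at hj
    change f j = g j
    exact le_antisymm (SRB_inj hd hn hf hg i h (by omega) (by omega))
      (SRB_inj hd hn hg hf i h.symm (by omega) (by omega))

end Pool.Agent.H63.CY
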