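import Pool.Agent.H63.CY.UVD
import Pool.Agent.H63.CY.RFB
import Pool.Agent.H63.CY.BIN

/-!
# TSF: the number of reduced structures
-/

set_option autoImplicit false

open Finset

noncomputable section

namespace Pool.Agent.H63.CY

theorem TSF_split {d : ℕ} (hd : 1 ≤ d) (f : ℕ → ℕ) : ∑ p ∈ range (d + 1), f p = f 0 + ∑ p ∈ Ico 1 d, f p + f d := by
  rw [sum_range_succ, range_eq_Ico, sum_eq_sum_Ico_succ_bot (by omega)]

/-- linear growth -/
theorem TS_rec {n d : ℕ} (hd : 1 ≤ d) (hn : d ≤ n) :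
    (TS (n + d) d).ncard = (TS n d).ncard + (d - 1) * (2 * d - 2).choose (d - 1) := by
  rw [TS_card _ hd, TS_card _ hd, TSF_split hd, TSF_split hd, GP_zero _ hd, GP_zero _ hd, GP_top _ hd, GP_top _ hd,
    ← bin1 hd]
  have h : ∑ p ∈ Ico 1 d, (GP (n + d) d p).ncard =
      ∑ p ∈ Ico 1 d, (GP n d p).ncard + ∑ p ∈ Ico 1 d, (d - p) * d.choose p * (d - 1).choose (p - 1) := by
    rw [← sum_add_distrib]
    refine sum_congr rfl fun p hp => ?_
    rw [mem_Ico] at hp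
    exact GP_rec hd hn hp.1 hp.2
  rw [h]
  ring

/-- the number of reduced structures for `n = d` -/
theorem TS_d {d : ℕ} (hd : 1 ≤ d) :
    2 * ((TS d d).ncard : ℤ) = 3 * (2 * d).choose d - 4 ^ d + 2 * (d - 1) * (2 * d - 2).choose (d - 1) := by
  have h1 : ((TS d d).ncard : ℤ) = 1 + ∑ p ∈ Ico 1 d, ((d.choose p : ℤ) ^ 2 + 2 * MM d p +
      ((d : ℤ) - p - 1) * d.choose p * (d - 1).choose (p - 1)) := by
    rw [TS_card _ hd, TSF_split hd, GP_zero _ hd, GP_top _ hd]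
    push_cast
    rw [add_zero]
    congr 1
    refine sum_congr rfl fun p hp => ?_
    rw [mem_Ico] at hp
    exact GP_d hp.1 hp.2
  have h2 : ∑ p ∈ range (d + 1), MM d p = ∑ p ∈ Ico 1 d, MM d p := by
    rw [sum_range_succ, range_eq_Ico, sum_eq_sum_Ico_succ_bot (by omega), (MM_zero hd).1, (MM_zero hd).2]
    ring
  have h3 := sum_MM hd
  rw [h2] at h3
  have h4 : (∑ p ∈ Ico 1 d, (d.choose p : ℤ) ^ 2) + 2 = (2 * d).choose d := by
    exact_mod_cast bin2 hd
  have h5 : 2 * (∑ p ∈ Ico 1 d, (d.choose p : ℤ) * (d - 1).choose (p - 1)) + 2 = (2 * d).choose d := by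
    exact_mod_cast bin3 hd
  have h6 : ∑ p ∈ Ico 1 d, (((d : ℤ) - p) * d.choose p * (d - 1).choose (p - 1)) =
      (d - 1) * (2 * d - 2).choose (d - 1) := by
    have := bin1 hd
    have h7 : ((∑ p ∈ Ico 1 d, (d - p) * d.choose p * (d - 1).choose (p - 1) : ℕ) : ℤ) =
        ((d - 1) * (2 * d - 2).choose (d - 1) : ℕ) := by rw [this]
    push_cast [Nat.cast_sub hd] at h7
    rw [← h7]
    refine sum_congr rfl fun p hp => ?_
    rw [mem_Ico] at hp
    rw [Nat.cast_sub hp.2.le]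
  have h8 : ∑ p ∈ Ico 1 d, ((d.choose p : ℤ) ^ 2 + 2 * MM d p + ((d : ℤ) - p - 1) * d.choose p * (d - 1).choose (p - 1)) =
      (∑ p ∈ Ico 1 d, (d.choose p : ℤ) ^ 2) + 2 * ∑ p ∈ Ico 1 d, MM d p +
      ∑ p ∈ Ico 1 d, (((d : ℤ) - p) * d.choose p * (d - 1).choose (p - 1)) -
      ∑ p ∈ Ico 1 d, (d.choose p : ℤ) * (d - 1).choose (p - 1) := by
    rw [mul_sum, ← sum_add_distrib, ← sum_add_distrib, ← sum_sub_distrib]
    refine sum_congr rfl fun p _ => ?_
    ring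
  rw [h1, h8, h6]
  have h9 : (4 : ℤ) ^ d = 2 * 2 ^ (2 * d - 1) := by
    rw [← pow_succ', show 2 * d - 1 + 1 = 2 * d by omega, pow_mul]
    norm_num
  rw [h9]
  linarith

/-- if `d` divides `n + 1` the level `n` and `n + 1` structures agree -/
theorem TS_dvd {n d : ℕ} (h : d ∣ n + 1) : TS n d = TS (n + 1) d := by
  have hz : ∀ (δ : ZMod d → ℕ) (i : ZMod d), 0 < δ i → z δ i (n + 1) = z δ i n := by
    intro δ i hi
    unfold z
    rw [range_add_one, filter_insert, if_neg]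
    have : ((n + 1 : ℕ) : ZMod d) = 0 := (ZMod.natCast_eq_zero_iff _ _).2 h
    rw [this, add_zero]
    omega
  ext δ
  constructor
  · intro hδ i hi
    rw [hz δ i hi]
    exact hδ i hi
  · intro hδ i hi
    rw [← hz δ i hi]
    exact hδ i hi

end Pool.Agent.H63.CY
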