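import Pool.Agent.H63.CY.Defs

/-!
# UVA: from `δ` to the pair of counting functions

`cU δ` counts the tops (`δ > 0`) in `(0, i]` (negatively for `i < 0`), `cH` is the number of tops `t ≤ i` with `t + δ t > i`,
`cV = cU - cH` counts the values `t + δ t` up to a constant.

* `cU_step`, `cU_zero`: from the definition (`Finset.Ioc` in `ℤ`).
* `cU_per`: `cU δ (i + d) = cU δ i + cp δ`: induction on `i` from `cU_step`; for `i = 0` the casts of `1, ..., d` are all of `ZMod d`.
* `cV_step`: `cV (i+1) = cU i - #{s < n : δ (i+1-s) > s, s ≥ 1} = cV i + #{s < n : δ (i-s) = s + 1}` (use `δ ≤ n`, from `δ i ≤ z δ i n ≤ n`);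
  the last number is at most 1: if `δ (i-s) = s+1`, `δ (i-s') = s'+1`, `s' < s`, then `TS` at `i-s` with `a = s-s'` gives
  `s + 1 ≤ z δ (i-s) a + s' + 1 ≤ (a - 1) + s' + 1 = s` (position `a` is a top, so `z ≤ a - 1`), contradiction.
* `cV_le`: `cV (i+1) ≤ cU i`, since `cH i ≥ #{s < n : δ (i-s) = s+1}`.
* `z_eq`: `z δ i m = m - (cU (i+m) - cU i)`, induction on `m`.
* `key`: for a top `t` and `m : ℕ`: `cU t ≤ cV (t+m) ↔ δ t ≤ m`. `cU t ≤ cV (t+m)` means `cH (t+m) ≤ cU (t+m) - cU t` = number of tops in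
  `(t, t+m]`. If `m < δ t`: `t` itself is counted in `cH (t+m)`, and so is every top `t'' = t + a`, `1 ≤ a ≤ m`: `δ t'' ≥ δ t - z δ t a ≥ m + 1 - (a-1)`.
  If `m ≥ δ t`: no top `t'' ≤ t` is counted: for `t'' = t - a`, `a ≥ 1`: `δ t'' ≤ z δ t'' a + δ t ≤ (a - 1) + δ t < a + m + ...`, and for
  `t'' = t`: `δ t ≤ m`.
* `cUV_mem`: `cU ∈ LF0`, `cV ∈ LF`, `cV_le`, and the upper inequality `cU i ≤ cV (i + n - (cU (i+n) - cU i))`: for a top `i` it is `key` with
  `m = z δ i n ≥ δ i`; in general induction downwards to the previous top: if `i` is not a top, `cU i = cU (i-1)`, `cV` is monotone and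
  `(i-1) + n - (cU (i-1+n) - cU (i-1)) ≤ i + n - (cU (i+n) - cU i)`. (If there is no top at all, `cU = cV = 0`; if there is a top,
  there is one in `(i - d, i]`.)
-/

set_option autoImplicit false

open Finset

noncomputable section

namespace Pool.Agent.H63.CY

/-- number of tops in a period -/
def cp {d : ℕ} (δ : ZMod d → ℕ) : ℕ := {i : ZMod d | 0 < δ i}.ncard

/-- counting function of the tops -/
def cU {d : ℕ} (δ : ZMod d → ℕ) (i : ℤ) : ℤ :=
  ((Ioc 0 i).filter (fun c : ℤ => 0 < δ (c : ZMod d))).card - ((Ioc i 0).filter (fun c : ℤ => 0 < δ (c : ZMod d))).card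

/-- number of tops `t ≤ i` with `t + δ t > i` -/
def cH {d : ℕ} (δ : ZMod d → ℕ) (n : ℕ) (i : ℤ) : ℤ :=
  ((range n).filter (fun s : ℕ => s < δ ((i - s : ℤ) : ZMod d))).card

/-- counting function of the values -/
def cV {d : ℕ} (δ : ZMod d → ℕ) (n : ℕ) (i : ℤ) : ℤ := cU δ i - cH δ n i

variable {n d : ℕ} {δ : ZMod d → ℕ}

theorem cU_zero (δ : ZMod d → ℕ) : cU δ 0 = 0 := by
  simp [cU]

theorem cU_step (δ : ZMod d → ℕ) (i : ℤ) :
    cU δ (i + 1) = cU δ i + if 0 < δ ((i + 1 : ℤ) : ZMod d) then 1 else 0 := by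
  unfold cU
  by_cases hi : 0 ≤ i
  · have h1 : Ioc (i + 1) 0 = ∅ := Finset.Ioc_eq_empty (by omega)
    have h2 : Ioc i 0 = ∅ := Finset.Ioc_eq_empty (by omega)
    have h3 : Ioc 0 (i + 1) = insert (i + 1) (Ioc 0 i) := by
      ext c
      simp only [Finset.mem_insert, Finset.mem_Ioc]
      omega
    have h4 : (i + 1) ∉ (Ioc 0 i).filter (fun c : ℤ => 0 < δ (c : ZMod d)) := by
      simp
    rw [h1, h2, h3, Finset.filter_insert]
    split_ifs with h
    · rw [Finset.card_insert_of_notMem h4]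
      push_cast
      simp
    · simp
  · have h1 : Ioc 0 (i + 1) = ∅ := Finset.Ioc_eq_empty (by omega)
    have h2 : Ioc 0 i = ∅ := Finset.Ioc_eq_empty (by omega)
    have h3 : Ioc i 0 = insert (i + 1) (Ioc (i + 1) 0) := by
      ext c
      simp only [Finset.mem_insert, Finset.mem_Ioc]
      omega
    have h4 : (i + 1) ∉ (Ioc (i + 1) 0).filter (fun c : ℤ => 0 < δ (c : ZMod d)) := by
      simp
    rw [h1, h2, h3, Finset.filter_insert]
    split_ifs with h
    · rw [Finset.card_insert_of_notMem h4]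
      push_cast
      simp
    · simp

theorem UVA_cast_add (i : ℤ) : ((i + d : ℤ) : ZMod d) = (i : ZMod d) := by
  push_cast
  simp

theorem UVA_base (hd : 1 ≤ d) (δ : ZMod d → ℕ) :
    ((Ioc (0 : ℤ) d).filter (fun c : ℤ => 0 < δ (c : ZMod d))).card = cp δ := by
  have : NeZero d := ⟨by omega⟩
  unfold cp
  rw [Set.ncard_eq_toFinset_card']
  refine Finset.card_bij (fun c _ => (c : ZMod d)) ?_ ?_ ?_
  · intro c hc
    rw [Finset.mem_filter] at hc
    simpa using hc.2
  · intro c hc c' hc' h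
    rw [Finset.mem_filter, Finset.mem_Ioc] at hc hc'
    rw [ZMod.intCast_eq_intCast_iff_dvd_sub] at h
    have h1 : |c' - c| < (d : ℤ) := by
      rw [abs_lt]
      omega
    have h2 := Int.eq_zero_of_abs_lt_dvd h h1
    omega
  · intro b hb
    have hb' : 0 < δ b := by simpa using hb
    by_cases h0 : b = 0
    · refine ⟨(d : ℤ), ?_, ?_⟩
      · rw [Finset.mem_filter, Finset.mem_Ioc]
        refine ⟨⟨by omega, le_refl _⟩, ?_⟩
        rw [h0] at hb'
        simpa using hb'
      · rw [h0]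
        simp
    · refine ⟨(b.val : ℤ), ?_, ?_⟩
      · rw [Finset.mem_filter, Finset.mem_Ioc]
        have h1 := ZMod.val_lt b
        have h2 : b.val ≠ 0 := by
          intro h
          exact h0 ((ZMod.val_eq_zero b).1 h)
        refine ⟨⟨by omega, by omega⟩, ?_⟩
        rw [Int.cast_natCast, ZMod.natCast_zmod_val]
        exact hb'
      · rw [Int.cast_natCast, ZMod.natCast_zmod_val]

theorem cU_per (hd : 1 ≤ d) (δ : ZMod d → ℕ) (i : ℤ) : cU δ (i + d) = cU δ i + cp δ := by
  have step : ∀ i : ℤ, (cU δ (i + 1 + d) = cU δ (i + 1) + cp δ) ↔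
      (cU δ (i + d) = cU δ i + cp δ) := by
    intro i
    have h1 := cU_step δ (i + d)
    have h2 := cU_step δ i
    have h3 : ((i + d + 1 : ℤ) : ZMod d) = ((i + 1 : ℤ) : ZMod d) := by
      rw [show (i + d + 1 : ℤ) = (i + 1) + d by ring]
      exact UVA_cast_add _
    rw [h3] at h1
    rw [show (i + 1 + d : ℤ) = i + d + 1 by ring]
    constructor
    · intro h
      linarith
    · intro h
      linarith
  induction i using Int.induction_on with
  | zero =>
    have h1 : Ioc (d : ℤ) 0 = ∅ := Finset.Ioc_eq_empty (by omega)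
    have h2 := UVA_base hd δ
    rw [zero_add, cU_zero, zero_add]
    unfold cU
    rw [h1, h2]
    simp
  | succ i ih => exact (step _).2 ih
  | pred i ih =>
    have := (step (-(i : ℤ) - 1)).1
    rw [sub_add_cancel] at this
    exact this ih

theorem UVA_z_succ (δ : ZMod d → ℕ) (i : ZMod d) (m : ℕ) : z δ i (m + 1) =
    z δ i m + if δ (i + ((m + 1 : ℕ) : ZMod d)) = 0 then 1 else 0 := by
  unfold z
  rw [Finset.range_add_one, Finset.filter_insert]
  split_ifs with h
  · rw [Finset.card_insert_of_notMem (by simp)]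
  · rfl

theorem UVA_z_le (δ : ZMod d → ℕ) (i : ZMod d) (m : ℕ) : z δ i m ≤ m := by
  unfold z
  refine (Finset.card_filter_le _ _).trans ?_
  rw [Finset.card_range]

theorem UVA_z_lt (δ : ZMod d → ℕ) (i : ZMod d) {a : ℕ} (ha : 1 ≤ a)
    (h : 0 < δ (i + a)) : z δ i a + 1 ≤ a := by
  obtain ⟨k, rfl⟩ : ∃ k, a = k + 1 := ⟨a - 1, by omega⟩
  rw [UVA_z_succ, if_neg (by omega)]
  have := UVA_z_le δ i k
  omega

theorem z_eq (δ : ZMod d → ℕ) (i : ℤ) (m : ℕ) : (z δ (i : ZMod d) m : ℤ) = m - (cU δ (i + m) - cU δ i) := by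
  induction m with
  | zero => simp [z]
  | succ m ih =>
    have h1 := cU_step δ (i + m)
    have h2 : (i : ZMod d) + ((m + 1 : ℕ) : ZMod d) = ((i + m + 1 : ℤ) : ZMod d) := by
      push_cast
      ring
    rw [UVA_z_succ, h2]
    rw [show (i + ((m + 1 : ℕ) : ℤ) : ℤ) = i + m + 1 by push_cast; ring, h1]
    push_cast at ih ⊢
    split_ifs with h3 h4 h4
    · omega
    · omega
    · omega
    · omega

theorem UVA_le_n (hδ : δ ∈ TS n d) (i : ZMod d) : δ i ≤ n := by
  rcases Nat.eq_zero_or_pos (δ i) with h | h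
  · omega
  · exact (hδ i h).1.trans (UVA_z_le δ i n)

theorem UVA_TS (hδ : δ ∈ TS n d) {t : ℤ} (ht : 0 < δ (t : ZMod d)) {a : ℕ} (ha : 1 ≤ a)
    (h : 0 < δ ((t + a : ℤ) : ZMod d)) :
    δ (t : ZMod d) + 1 ≤ a + δ ((t + a : ℤ) : ZMod d) := by
  have h1 : ((t + a : ℤ) : ZMod d) = (t : ZMod d) + (a : ZMod d) := by push_cast; ring
  rw [h1] at h ⊢
  have h2 := (hδ _ ht).2 a ha h
  have h3 := UVA_z_lt δ (t : ZMod d) ha h
  omega

/-- tops `t ≤ i` with `t + δ t > i + 1` -/
def UVA_K (δ : ZMod d → ℕ) (n : ℕ) (i : ℤ) : ℤ :=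
  ((range n).filter (fun s : ℕ => s + 1 < δ ((i - s : ℤ) : ZMod d))).card

/-- tops `t ≤ i` with `t + δ t = i + 1` -/
def UVA_E (δ : ZMod d → ℕ) (n : ℕ) (i : ℤ) : ℤ :=
  ((range n).filter (fun s : ℕ => δ ((i - s : ℤ) : ZMod d) = s + 1)).card

theorem UVA_cH_eq (δ : ZMod d → ℕ) (n : ℕ) (i : ℤ) : cH δ n i = UVA_K δ n i + UVA_E δ n i := by
  unfold cH UVA_K UVA_E
  rw [← Nat.cast_add, ← Finset.card_union_of_disjoint]
  · congr 2
    ext s
    simp only [Finset.mem_filter, Finset.mem_union, Finset.mem_range]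
    omega
  · rw [Finset.disjoint_filter]
    intro s _ h1 h2
    omega

theorem UVA_cH_succ (hδ : δ ∈ TS n d) (i : ℤ) :
    cH δ n (i + 1) = UVA_K δ n i + if 0 < δ ((i + 1 : ℤ) : ZMod d) then 1 else 0 := by
  have hn := UVA_le_n hδ
  rcases Nat.eq_zero_or_pos n with h0 | h0
  · subst h0
    have h1 := hn ((i + 1 : ℤ) : ZMod d)
    rw [if_neg (by omega)]
    simp [cH, UVA_K]
  · obtain ⟨k, rfl⟩ : ∃ k, n = k + 1 := ⟨n - 1, by omega⟩
    have h1 : (range (k + 1)).filter (fun s : ℕ => s < δ ((i + 1 - s : ℤ) : ZMod d)) =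
        ((range (k + 1)).filter (fun s : ℕ => s + 1 < δ ((i - s : ℤ) : ZMod d))).image (· + 1) ∪
        (if 0 < δ ((i + 1 : ℤ) : ZMod d) then {0} else ∅) := by
      ext s
      simp only [Finset.mem_filter, Finset.mem_union, Finset.mem_range, Finset.mem_image]
      rcases Nat.eq_zero_or_pos s with hs | hs
      · subst hs
        constructor
        · rintro ⟨-, h2⟩
          right
          rw [Nat.cast_zero, sub_zero] at h2
          rw [if_pos h2]
          exact Finset.mem_singleton_self 0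
        · rintro (⟨a, -, h⟩ | h)
          · omega
          · split_ifs at h with h2
            · refine ⟨by omega, ?_⟩
              rw [Nat.cast_zero, sub_zero]
              exact h2
            · exact absurd h (Finset.notMem_empty _)
      · obtain ⟨r, rfl⟩ : ∃ r, s = r + 1 := ⟨s - 1, by omega⟩
        have h3 : (i + 1 - ((r + 1 : ℕ) : ℤ) : ℤ) = i - r := by push_cast; ring
        rw [h3]
        constructor
        · rintro ⟨h2, h4⟩
          exact Or.inl ⟨r, ⟨by omega, h4⟩, rfl⟩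
        · rintro (⟨a, ⟨h2, h4⟩, h5⟩ | h)
          · have h6 : a = r := by omega
            subst h6
            have h7 := hn ((i - a : ℤ) : ZMod d)
            exact ⟨by omega, h4⟩
          · split_ifs at h with h2
            · rw [Finset.mem_singleton] at h
              omega
            · exact absurd h (Finset.notMem_empty _)
    unfold cH UVA_K
    rw [h1, Finset.card_union_of_disjoint, Finset.card_image_of_injective _
      (fun a b h => Nat.succ_injective h)]
    · split_ifs with h2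
      · simp
      · simp
    · rw [Finset.disjoint_left]
      intro a ha hb
      rw [Finset.mem_image] at ha
      obtain ⟨b, -, hb2⟩ := ha
      split_ifs at hb with h2
      · rw [Finset.mem_singleton] at hb
        omega
      · exact absurd hb (Finset.notMem_empty _)

theorem UVA_cV_succ (hδ : δ ∈ TS n d) (i : ℤ) : cV δ n (i + 1) = cU δ i - UVA_K δ n i := by
  unfold cV
  rw [cU_step, UVA_cH_succ hδ]
  ring

theorem UVA_cV_succ' (hδ : δ ∈ TS n d) (i : ℤ) : cV δ n (i + 1) = cV δ n i + UVA_E δ n i := by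
  rw [UVA_cV_succ hδ]
  unfold cV
  rw [UVA_cH_eq]
  ring

theorem UVA_E_le (hδ : δ ∈ TS n d) (i : ℤ) : UVA_E δ n i ≤ 1 := by
  have key : ∀ s s' : ℕ, δ ((i - s : ℤ) : ZMod d) = s + 1 → δ ((i - s' : ℤ) : ZMod d) = s' + 1 →
      ¬ s' < s := by
    intro s s' h1 h2 h3
    have h4 : (i - s + ((s - s' : ℕ) : ℤ) : ℤ) = i - s' := by
      rw [Nat.cast_sub h3.le]
      ring
    have h5 := UVA_TS hδ (t := i - s) (by omega) (a := s - s') (by omega) (by rw [h4]; omega)
    rw [h4] at h5
    omega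
  unfold UVA_E
  have h : ((range n).filter (fun s : ℕ => δ ((i - s : ℤ) : ZMod d) = s + 1)).card ≤ 1 := by
    rw [Finset.card_le_one]
    intro a ha b hb
    rw [Finset.mem_filter] at ha hb
    have h1 := key a b ha.2 hb.2
    have h2 := key b a hb.2 ha.2
    omega
  exact_mod_cast h

theorem UVA_E_nonneg (δ : ZMod d → ℕ) (n : ℕ) (i : ℤ) : 0 ≤ UVA_E δ n i := by
  unfold UVA_E
  positivity

theorem UVA_K_nonneg (δ : ZMod d → ℕ) (n : ℕ) (i : ℤ) : 0 ≤ UVA_K δ n i := by
  unfold UVA_K
  positivity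

theorem cV_step (hδ : δ ∈ TS n d) (i : ℤ) : cV δ n i ≤ cV δ n (i + 1) ∧ cV δ n (i + 1) ≤ cV δ n i + 1 := by
  have h1 := UVA_cV_succ' hδ i
  have h2 := UVA_E_le hδ i
  have h3 := UVA_E_nonneg δ n i
  constructor <;> linarith

theorem cV_le (hδ : δ ∈ TS n d) (i : ℤ) : cV δ n (i + 1) ≤ cU δ i := by
  have h1 := UVA_cV_succ hδ i
  have h2 := UVA_K_nonneg δ n i
  linarith

theorem cV_per (hd : 1 ≤ d) (δ : ZMod d → ℕ) (n : ℕ) (i : ℤ) : cV δ n (i + d) = cV δ n i + cp δ := by
  have h1 : cH δ n (i + d) = cH δ n i := by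
    unfold cH
    congr 2
    ext s
    simp only [Finset.mem_filter]
    have h2 : ((i + d - s : ℤ) : ZMod d) = ((i - s : ℤ) : ZMod d) := by
      rw [show (i + d - s : ℤ) = (i - s) + d by ring]
      exact UVA_cast_add _
    rw [h2]
  unfold cV
  rw [cU_per hd, h1]
  ring

theorem UVA_cU_sub (δ : ZMod d → ℕ) (i : ℤ) (m : ℕ) : cU δ i - cU δ (i - m) =
    ((range m).filter (fun s : ℕ => 0 < δ ((i - s : ℤ) : ZMod d))).card := by
  induction m with
  | zero => simp
  | succ m ih =>
    rw [Finset.range_add_one, Finset.filter_insert]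
    have h1 := cU_step δ (i - ((m + 1 : ℕ) : ℤ))
    rw [show (i - ((m + 1 : ℕ) : ℤ) + 1 : ℤ) = i - m by push_cast; ring] at h1
    split_ifs with h
    · rw [if_pos h] at h1
      rw [Finset.card_insert_of_notMem (by simp)]
      push_cast at ih h1 ⊢
      linarith
    · rw [if_neg h] at h1
      push_cast at ih h1 ⊢
      linarith

theorem key (hδ : δ ∈ TS n d) (t : ℤ) (ht : 0 < δ (t : ZMod d)) (m : ℕ) :
    cU δ t ≤ cV δ n (t + m) ↔ δ (t : ZMod d) ≤ m := by
  have h1 := UVA_cU_sub δ (t + m) m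
  rw [add_sub_cancel_right] at h1
  have h2 : cV δ n (t + m) = cU δ (t + m) - cH δ n (t + m) := rfl
  have hn := UVA_le_n hδ (t : ZMod d)
  constructor
  · intro h
    by_contra h3
    push Not at h3
    have h4 : insert m ((range m).filter (fun s : ℕ => 0 < δ ((t + m - s : ℤ) : ZMod d))) ⊆
        (range n).filter (fun s : ℕ => s < δ ((t + m - s : ℤ) : ZMod d)) := by
      intro s hs
      rw [Finset.mem_insert] at hs
      rw [Finset.mem_filter, Finset.mem_range]
      rcases hs with rfl | hs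
      · rw [add_sub_cancel_right]
        exact ⟨by omega, h3⟩
      · rw [Finset.mem_filter, Finset.mem_range] at hs
        obtain ⟨hs1, hs2⟩ := hs
        have h5 : (t + ((m - s : ℕ) : ℤ) : ℤ) = t + m - s := by
          rw [Nat.cast_sub hs1.le]
          ring
        have h6 := UVA_TS hδ ht (a := m - s) (by omega) (by rw [h5]; exact hs2)
        rw [h5] at h6
        exact ⟨by omega, by omega⟩
    have h5 := Finset.card_le_card h4
    rw [Finset.card_insert_of_notMem (by simp)] at h5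
    have h6 : cH δ n (t + m) = (((range n).filter (fun s : ℕ => s <
      δ ((t + m - s : ℤ) : ZMod d))).card : ℤ) := rfl
    have h7 : ((((range m).filter (fun s : ℕ => 0 < δ ((t + m - s : ℤ) : ZMod d))).card + 1 : ℕ) : ℤ)
        ≤ cH δ n (t + m) := by
      rw [h6]
      exact_mod_cast h5
    rw [Nat.cast_add, Nat.cast_one] at h7
    linarith
  · intro h
    have h4 : (range n).filter (fun s : ℕ => s < δ ((t + m - s : ℤ) : ZMod d)) ⊆
        (range m).filter (fun s : ℕ => 0 < δ ((t + m - s : ℤ) : ZMod d)) := by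
      intro s hs
      rw [Finset.mem_filter, Finset.mem_range] at hs ⊢
      obtain ⟨hs1, hs2⟩ := hs
      refine ⟨?_, by omega⟩
      by_contra h3
      push Not at h3
      rcases Nat.eq_or_lt_of_le h3 with h5 | h5
      · rw [← h5, add_sub_cancel_right] at hs2
        omega
      · have h6 : (t + m - s + ((s - m : ℕ) : ℤ) : ℤ) = t := by
          rw [Nat.cast_sub h5.le]
          ring
        have h7 := UVA_TS hδ (t := t + m - s) (by omega) (a := s - m) (by omega)
          (by rw [h6]; exact ht)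
        rw [h6] at h7
        omega
    have h5 := Finset.card_le_card h4
    have h6 : cH δ n (t + m) = (((range n).filter (fun s : ℕ => s <
      δ ((t + m - s : ℤ) : ZMod d))).card : ℤ) := rfl
    have h7 : cH δ n (t + m) ≤
        ((((range m).filter (fun s : ℕ => 0 < δ ((t + m - s : ℤ) : ZMod d))).card : ℕ) : ℤ) := by
      rw [h6]
      exact_mod_cast h5
    linarith

theorem UVA_mono {f : ℤ → ℤ} (hf : ∀ i, f i ≤ f (i + 1)) {i j : ℤ} (hij : i ≤ j) : f i ≤ f j := by
  obtain ⟨k, hk⟩ := Int.eq_ofNat_of_zero_le (sub_nonneg.2 hij)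
  have h1 : j = i + k := by
    have : (j - i : ℤ) = k := hk
    linarith
  rw [h1]
  clear hk h1 hij
  induction k with
  | zero => simp
  | succ k ih =>
    refine ih.trans ?_
    have := hf (i + k)
    rw [show (i + ((k + 1 : ℕ) : ℤ) : ℤ) = i + k + 1 by push_cast; ring]
    exact this

theorem UVA_cU_le (δ : ZMod d → ℕ) (i : ℤ) : cU δ i ≤ cU δ (i + 1) ∧ cU δ (i + 1) ≤ cU δ i + 1 := by
  rw [cU_step]
  split_ifs <;> omega

theorem UVA_upper (hδ : δ ∈ TS n d) (k : ℕ) : ∀ i : ℤ, 0 < δ ((i - k : ℤ) : ZMod d) →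
    cU δ i ≤ cV δ n (i + n - (cU δ (i + n) - cU δ i)) := by
  have htop : ∀ i : ℤ, 0 < δ (i : ZMod d) →
      cU δ i ≤ cV δ n (i + n - (cU δ (i + n) - cU δ i)) := by
    intro i hi
    have h1 := z_eq δ i n
    have h2 : (i + n - (cU δ (i + n) - cU δ i) : ℤ) = i + (z δ (i : ZMod d) n : ℤ) := by
      rw [h1]
      ring
    rw [h2]
    exact (key hδ i hi _).2 (hδ _ hi).1
  induction k with
  | zero =>
    intro i hi
    rw [Nat.cast_zero, sub_zero] at hi
    exact htop i hi
  | succ k ih =>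
    intro i hi
    by_cases h : 0 < δ (i : ZMod d)
    · exact htop i h
    · have h1 := ih (i - 1) (by
        rw [show (i - 1 - (k : ℤ) : ℤ) = i - ((k + 1 : ℕ) : ℤ) by push_cast; ring]
        exact hi)
      have h2 := cU_step δ (i - 1)
      rw [sub_add_cancel, if_neg h, add_zero] at h2
      have h3 := (UVA_cU_le δ (i - 1 + n)).2
      rw [show (i - 1 + (n : ℤ) + 1 : ℤ) = i + n by ring] at h3
      rw [h2]
      refine h1.trans (UVA_mono (fun j => (cV_step hδ j).1) ?_)
      linarith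

theorem cUV_mem (hd : 1 ≤ d) (hδ : δ ∈ TS n d) : (cU δ, cV δ n) ∈ GP n d (cp δ) := by
  have : NeZero d := ⟨by omega⟩
  refine ⟨⟨⟨UVA_cU_le δ, cU_per hd δ⟩, cU_zero δ⟩, ⟨cV_step hδ, cV_per hd δ n⟩,
    fun i => ⟨cV_le hδ i, ?_⟩⟩
  show cU δ i ≤ cV δ n (i + n - (cU δ (i + n) - cU δ i))
  by_cases hex : ∃ r : ZMod d, 0 < δ r
  · obtain ⟨r, hr⟩ := hex
    refine UVA_upper hδ ((i : ZMod d) - r).val i ?_
    have h1 : ((i - (((i : ZMod d) - r).val : ℤ) : ℤ) : ZMod d) = r := by
      push_cast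
      rw [ZMod.natCast_zmod_val]
      ring
    rw [h1]
    exact hr
  · push Not at hex
    have h0 : ∀ j : ℤ, cU δ (j + 1) = cU δ j := by
      intro j
      rw [cU_step, if_neg (by have := hex ((j + 1 : ℤ) : ZMod d); omega), add_zero]
    have h1 : ∀ j : ℤ, cU δ j = 0 := by
      intro j
      rcases le_total 0 j with h | h
      · refine le_antisymm ?_ ?_
        · have := UVA_mono (f := fun j => - cU δ j) (fun i => by rw [h0]) h
          simp only [cU_zero] at this
          linarith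
        · have := UVA_mono (f := fun j => cU δ j) (fun i => by rw [h0]) h
          simp only [cU_zero] at this
          linarith
      · refine le_antisymm ?_ ?_
        · have := UVA_mono (f := fun j => cU δ j) (fun i => by rw [h0]) h
          simp only [cU_zero] at this
          linarith
        · have := UVA_mono (f := fun j => - cU δ j) (fun i => by rw [h0]) h
          simp only [cU_zero] at this
          linarith
    have h2 : ∀ j : ℤ, cH δ n j = 0 := by
      intro j
      unfold cH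
      rw [Finset.filter_false_of_mem]
      · simp
      · intro s _
        have := hex ((j - s : ℤ) : ZMod d)
        omega
    unfold cV
    rw [h1, h1, h2]
    simp

end Pool.Agent.H63.CY
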