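import Pool.Agent.H63.CY.Defs

/-!
# UVB: from the pair of counting functions to `δ`

`(U, V) ∈ GP n d p`. Position `t : ℤ` is a top iff `U t = U (t-1) + 1`. `dlz P t = min {m : ℕ | U t ≤ V (t+m)}` for tops, `0` otherwise.
It is `d`-periodic, and defines `dl P : ZMod d → ℕ`.

* `dlz_per`: periodicity of `U`, `V`. `dl_cast`: `dl P (t : ZMod d) = dlz P t` (`(ZMod.val _ : ℤ) ≡ t mod d`).
* `dlz_pos`: for a top `t`: `V t ≤ U (t-1) < U t`, so `0` is not in the set; the set is nonempty, it contains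
  `n - (U (t+n) - U t)` (a natural number, as `U (t+n) ≤ U t + n`).
* `dlz_le`: for a top `t` and `m : ℕ`: `dlz P t ≤ m ↔ U t ≤ V (t+m)` (`V` is monotone).
* `zcount`: `z (dl P) t m = m - (U (t+m) - U t)`, induction on `m`, by `dlz_pos`.
* `dl_mem`: `dl P ∈ TS n d`: `δ t ≤ z δ t n` by `dlz_le` and the upper inequality. For `a ≥ 1`, `t + a` a top: `V (t+a+δ(t+a)) ≥ U (t+a)
  = U t + (a - z δ t a)` and `V` increases by at most `a - z δ t a` from `t + z δ t a + δ (t+a)` to `t + a + δ (t+a)`, so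
  `V (t + z δ t a + δ (t+a)) ≥ U t`, i.e. `δ t ≤ z δ t a + δ (t+a)`.
* `cp_dl`: the number of tops in a period is `U d - U 0 = p`.
-/

set_option autoImplicit false

open Finset

noncomputable section

namespace Pool.Agent.H63.CY

open Classical in
/-- the function `δ` on `ℤ` -/
def dlz (P : (ℤ → ℤ) × (ℤ → ℤ)) (t : ℤ) : ℕ := if P.1 t = P.1 (t - 1) + 1 then sInf {m : ℕ | P.1 t ≤ P.2 (t + m)} else 0

/-- the function `δ` on `ZMod d` -/
def dl (d : ℕ) (P : (ℤ → ℤ) × (ℤ → ℤ)) (i : ZMod d) : ℕ := dlz P (i.val : ℤ)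

variable {n d p : ℕ} {P : (ℤ → ℤ) × (ℤ → ℤ)}

private theorem UVB_grow {d p : ℕ} {U : ℤ → ℤ} (hU : U ∈ LF d p) (i : ℤ) (m : ℕ) :
    U i ≤ U (i + m) ∧ U (i + m) ≤ U i + m := by
  induction m with
  | zero => simp
  | succ m ih =>
    have h := hU.1 (i + m)
    have h2 : i + ((m + 1 : ℕ) : ℤ) = i + m + 1 := by push_cast; ring
    rw [h2]
    push_cast
    constructor
    · exact ih.1.trans h.1
    · linarith [ih.2, h.2]

private theorem UVB_mono {d p : ℕ} {U : ℤ → ℤ} (hU : U ∈ LF d p) {i j : ℤ} (h : i ≤ j) :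
    U i ≤ U j ∧ U j ≤ U i + (j - i) := by
  obtain ⟨m, hm⟩ := Int.le.dest h
  have := UVB_grow hU i m
  rw [hm] at this
  refine ⟨this.1, this.2.trans ?_⟩
  linarith

private theorem UVB_per (hP : P ∈ GP n d p) (t : ℤ) : dlz P (t + d) = dlz P t := by
  obtain ⟨⟨h1, -⟩, h2, -⟩ := hP
  have e1 : P.1 (t + d) = P.1 t + p := h1.2 t
  have e2 : P.1 (t + d - 1) = P.1 (t - 1) + p := by
    rw [show t + (d : ℤ) - 1 = t - 1 + d by ring]
    exact h1.2 (t - 1)
  have e3 : ∀ m : ℕ, P.2 (t + d + m) = P.2 (t + m) + p := fun m => by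
    rw [show t + (d : ℤ) + m = t + m + d by ring]
    exact h2.2 (t + m)
  have e4 : (P.1 (t + d) = P.1 (t + d - 1) + 1) ↔ (P.1 t = P.1 (t - 1) + 1) := by
    rw [e1, e2]
    constructor <;> intro h <;> linarith
  have e5 : {m : ℕ | P.1 (t + d) ≤ P.2 (t + d + m)} = {m : ℕ | P.1 t ≤ P.2 (t + m)} := by
    ext m
    show P.1 (t + d) ≤ P.2 (t + d + m) ↔ P.1 t ≤ P.2 (t + m)
    rw [e1, e3]
    constructor <;> intro h <;> linarith
  unfold dlz
  simp only [e4, e5]

private theorem UVB_per_nat (hP : P ∈ GP n d p) (t : ℤ) (k : ℕ) : dlz P (t + k * d) = dlz P t := by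
  induction k with
  | zero => simp
  | succ k ih =>
    rw [show t + ((k + 1 : ℕ) : ℤ) * d = t + k * d + d by push_cast; ring, UVB_per hP, ih]

private theorem UVB_per_int (hP : P ∈ GP n d p) (t : ℤ) (k : ℤ) : dlz P (t + k * d) = dlz P t := by
  rcases Int.eq_nat_or_neg k with ⟨m, rfl | rfl⟩
  · exact UVB_per_nat hP t m
  · have h := UVB_per_nat hP (t + (-(m : ℤ)) * d) m
    rw [show t + -(m : ℤ) * d + m * d = t by ring] at h
    exact h.symm

theorem dl_cast (hd : 1 ≤ d) (hP : P ∈ GP n d p) (t : ℤ) : dl d P (t : ZMod d) = dlz P t := by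
  have : NeZero d := ⟨by omega⟩
  unfold dl
  rw [ZMod.val_intCast]
  have h := UVB_per_int hP (t % d) (t / d)
  rw [show t % (d : ℤ) + t / d * d = t by rw [mul_comm]; exact Int.emod_add_mul_ediv t d] at h
  exact h.symm

private theorem UVB_mem (hP : P ∈ GP n d p) (t : ℤ) :
    P.1 t ≤ P.2 (t + ((sInf {m : ℕ | P.1 t ≤ P.2 (t + m)} : ℕ) : ℤ)) := by
  have h1 := UVB_grow hP.1.1 t n
  have h2 := (hP.2.2 t).2
  have h3 : ∃ m : ℕ, (m : ℤ) = n - (P.1 (t + n) - P.1 t) := by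
    refine ⟨(n - (P.1 (t + n) - P.1 t)).toNat, ?_⟩
    rw [Int.toNat_of_nonneg]
    linarith [h1.2]
  obtain ⟨m, hm⟩ := h3
  have h4 : m ∈ {m : ℕ | P.1 t ≤ P.2 (t + m)} := by
    show P.1 t ≤ P.2 (t + m)
    rw [hm]
    rw [show t + (n - (P.1 (t + n) - P.1 t)) = t + n - (P.1 (t + n) - P.1 t) by ring]
    exact h2
  exact Nat.sInf_mem ⟨m, h4⟩

theorem dlz_pos (hP : P ∈ GP n d p) (t : ℤ) : 0 < dlz P t ↔ P.1 t = P.1 (t - 1) + 1 := by
  unfold dlz
  by_cases ht : P.1 t = P.1 (t - 1) + 1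
  · rw [if_pos ht]
    refine ⟨fun _ => ht, fun _ => ?_⟩
    rcases Nat.eq_zero_or_pos (sInf {m : ℕ | P.1 t ≤ P.2 (t + m)}) with h0 | h0
    · exfalso
      have h1 := UVB_mem hP t
      rw [h0] at h1
      have h2 := (hP.2.2 (t - 1)).1
      rw [sub_add_cancel] at h2
      simp only [Nat.cast_zero, add_zero] at h1
      linarith
    · exact h0
  · rw [if_neg ht]
    exact ⟨fun h => absurd h (lt_irrefl 0), fun h => absurd h ht⟩

theorem dlz_le (hP : P ∈ GP n d p) {t : ℤ} (ht : P.1 t = P.1 (t - 1) + 1) (m : ℕ) : dlz P t ≤ m ↔ P.1 t ≤ P.2 (t + m) := by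
  unfold dlz
  rw [if_pos ht]
  constructor
  · intro h
    refine (UVB_mem hP t).trans (UVB_mono hP.2.1 ?_).1
    have : ((sInf {m : ℕ | P.1 t ≤ P.2 (t + m)} : ℕ) : ℤ) ≤ m := by exact_mod_cast h
    linarith
  · intro h
    exact Nat.sInf_le h

private theorem UVB_zero (hP : P ∈ GP n d p) (t : ℤ) : dlz P t = 0 ↔ P.1 t = P.1 (t - 1) := by
  have h1 := dlz_pos hP t
  have h2 := hP.1.1.1 (t - 1)
  rw [sub_add_cancel] at h2
  constructor
  · intro h
    rw [h] at h1
    have h3 : ¬ (P.1 t = P.1 (t - 1) + 1) := fun h4 => absurd (h1.2 h4) (lt_irrefl 0)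
    omega
  · intro h
    rcases Nat.eq_zero_or_pos (dlz P t) with h0 | h0
    · exact h0
    · have := h1.1 h0
      omega

private theorem UVB_z (hd : 1 ≤ d) (hP : P ∈ GP n d p) (t : ℤ) (m : ℕ) :
    ((z (dl d P) (t : ZMod d) m : ℕ) : ℤ) = m - (P.1 (t + m) - P.1 t) := by
  induction m with
  | zero => simp [z]
  | succ m ih =>
    have h1 : z (dl d P) (t : ZMod d) (m + 1) = z (dl d P) (t : ZMod d) m +
        if dlz P (t + m + 1) = 0 then 1 else 0 := by
      unfold z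
      rw [range_add_one, filter_insert]
      have h2 : (t : ZMod d) + ((m + 1 : ℕ) : ZMod d) = ((t + m + 1 : ℤ) : ZMod d) := by
        push_cast
        ring
      rw [h2, dl_cast hd hP]
      split_ifs with h3
      · rw [card_insert_of_notMem]
        simp
      · simp
    have h4 := hP.1.1.1 (t + m)
    have h5 := UVB_zero hP (t + m + 1)
    rw [add_sub_cancel_right] at h5
    rw [h1]
    push_cast
    rw [ih]
    have h6 : t + ((m : ℤ) + 1) = t + m + 1 := by ring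
    rw [h6]
    by_cases h7 : dlz P (t + m + 1) = 0
    · rw [if_pos h7]
      have := h5.1 h7
      omega
    · rw [if_neg h7]
      have h8 : ¬ (P.1 (t + m + 1) = P.1 (t + m)) := fun h => h7 (h5.2 h)
      omega

theorem dl_mem (hd : 1 ≤ d) (hP : P ∈ GP n d p) : dl d P ∈ TS n d := by
  have : NeZero d := ⟨by omega⟩
  intro i hi
  obtain ⟨t, rfl⟩ : ∃ t : ℤ, (t : ZMod d) = i := ⟨(i.val : ℤ), by simp⟩
  rw [dl_cast hd hP] at hi ⊢
  have ht := (dlz_pos hP t).1 hi
  constructor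
  · rw [dlz_le hP ht, UVB_z hd hP]
    have h := (hP.2.2 t).2
    rw [show t + (n - (P.1 (t + n) - P.1 t)) = t + n - (P.1 (t + n) - P.1 t) by ring]
    exact h
  · intro a ha hta
    have h0 : (t : ZMod d) + (a : ZMod d) = ((t + a : ℤ) : ZMod d) := by push_cast; ring
    rw [h0, dl_cast hd hP] at hta ⊢
    have hta' := (dlz_pos hP (t + a)).1 hta
    rw [dlz_le hP ht]
    have h1 := (dlz_le hP hta' (dlz P (t + a))).1 le_rfl
    have h2 := UVB_z hd hP t a
    have h3 := UVB_grow hP.1.1 t a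
    have h4 := UVB_mono hP.2.1 (i := t + (z (dl d P) (t : ZMod d) a : ℕ) + (dlz P (t + a) : ℕ))
      (j := t + a + (dlz P (t + a) : ℕ)) (by linarith [h3.1])
    push_cast
    rw [show t + (((z (dl d P) (t : ZMod d) a : ℕ) : ℤ) + (dlz P (t + a) : ℕ)) =
      t + (z (dl d P) (t : ZMod d) a : ℕ) + (dlz P (t + a) : ℕ) by ring]
    linarith [h4.2, h1, h2]

private theorem UVB_count (hP : P ∈ GP n d p) (m : ℕ) :
    (((range m).filter (fun k : ℕ => 0 < dlz P (k : ℤ))).card : ℤ) = P.1 ((m : ℤ) - 1) - P.1 (-1) := by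
  induction m with
  | zero => simp
  | succ m ih =>
    rw [range_add_one, filter_insert]
    have h4 := hP.1.1.1 ((m : ℤ) - 1)
    rw [sub_add_cancel] at h4
    have h5 := dlz_pos hP (m : ℤ)
    have h6 : (((m + 1 : ℕ) : ℤ) - 1) = m := by push_cast; ring
    rw [h6]
    split_ifs with h7
    · rw [card_insert_of_notMem (by simp)]
      push_cast
      rw [ih]
      have := h5.1 h7
      omega
    · rw [ih]
      have h8 : ¬ (P.1 (m : ℤ) = P.1 ((m : ℤ) - 1) + 1) := fun h => h7 (h5.2 h)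
      omega

theorem cp_dl (hd : 1 ≤ d) (hP : P ∈ GP n d p) : {i : ZMod d | 0 < dl d P i}.ncard = p := by
  classical
  have : NeZero d := ⟨by omega⟩
  have h1 : {i : ZMod d | 0 < dl d P i}.ncard =
      ((range d).filter (fun k : ℕ => 0 < dlz P (k : ℤ))).card := by
    rw [Set.ncard_eq_toFinset_card']
    refine Finset.card_nbij' (fun i : ZMod d => i.val) (fun k : ℕ => (k : ZMod d)) ?_ ?_ ?_ ?_
    · intro i hi
      have hi' : 0 < dl d P i := by simpa using hi
      have : i.val < d ∧ 0 < dlz P (i.val : ℤ) := ⟨ZMod.val_lt i, hi'⟩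
      simpa using this
    · intro k hk
      have hk' : k < d ∧ 0 < dlz P (k : ℤ) := by simpa using hk
      have h3 : dl d P (k : ZMod d) = dlz P (k : ℤ) := by
        have := dl_cast hd hP (k : ℤ)
        rwa [Int.cast_natCast] at this
      have : 0 < dl d P (k : ZMod d) := by rw [h3]; exact hk'.2
      simpa using this
    · intro i _
      exact ZMod.natCast_zmod_val i
    · intro k hk
      have hk' : k < d ∧ 0 < dlz P (k : ℤ) := by simpa using hk
      show ((k : ZMod d)).val = k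
      rw [ZMod.val_natCast, Nat.mod_eq_of_lt hk'.1]
  have h2 := UVB_count hP d
  have h3 := hP.1.1.2 (-1)
  rw [show (-1 : ℤ) + d = d - 1 by ring] at h3
  rw [h1]
  rw [h3] at h2
  have : ((((range d).filter (fun k : ℕ => 0 < dlz P (k : ℤ))).card : ℕ) : ℤ) = p := by
    rw [h2]; ring
  exact_mod_cast this

end Pool.Agent.H63.CY
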