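import Pool.Agent.H63.CY.UVA
import Pool.Agent.H63.CY.UVB

/-!
# UVC: the two maps are inverse to each other

* `rt1`: `dl d (cU δ, cV δ n) = δ` for `δ ∈ TS n d`: at a non-top both are `0` (`cU_step`); at a top `t`, `dlz_le` and `key`:
  `dlz ≤ m ↔ cU t ≤ cV (t+m) ↔ δ t ≤ m` for all `m`.
* `rt2`: `(cU (dl d P), cV (dl d P) n) = P` for `P = (U, V) ∈ GP n d p`. `cU (dl d P) = U`: both vanish at `0` and have the same steps
  (`dlz_pos`, `U ∈ LF0`); induction on `ℤ`. Then `cH i = #{s < n : δ (i-s) > s}`, and for a top `i-s`: `δ (i-s) > s ↔ V i < U (i-s)` (`dlz_le`),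
  so (as `δ ≤ n` this is the number of all `s : ℕ`) `cH i = #{tops t ≤ i with U t > V i} = U i - V i`: every integer `v ≤ U i` is `U t` for exactly one
  top `t ≤ i`; formally by induction: `#{s < n : i - s top, V i < U (i-s)}`: for `m ≤ n`: `#{s < m : i-s top, V i < U (i-s)} = U i - max (V i) (U (i-m))`
  (induction on `m`, using `V i ≤ U i`), and `U (i-n) ≤ V i`: `U (i-n) ≤ V (i - n + n - (U i - U (i-n))) = V (i - (U i - U (i-n))) ≤ V i`.
-/

set_option autoImplicit false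

open Finset

noncomputable section

namespace Pool.Agent.H63.CY

theorem rt1 {n d : ℕ} (hd : 1 ≤ d) {δ : ZMod d → ℕ} (hδ : δ ∈ TS n d) : dl d (cU δ, cV δ n) = δ := by
  have : NeZero d := ⟨by omega⟩
  have hP := cUV_mem hd hδ
  funext i
  have hcast : (((i.val : ℤ)) : ZMod d) = i := by
    rw [Int.cast_natCast, ZMod.natCast_zmod_val]
  have hst := cU_step δ ((i.val : ℤ) - 1)
  rw [sub_add_cancel, hcast] at hst
  show dlz (cU δ, cV δ n) (i.val : ℤ) = δ i
  by_cases h : 0 < δ i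
  · rw [if_pos h] at hst
    have hle := dlz_le hP (t := (i.val : ℤ)) hst
    have hk := key hδ (i.val : ℤ) (by rw [hcast]; exact h)
    rw [hcast] at hk
    refine le_antisymm ?_ ?_
    · exact (hle (δ i)).2 ((hk (δ i)).2 (le_refl _))
    · exact (hk _).1 ((hle _).1 (le_refl _))
  · rw [if_neg h, add_zero] at hst
    have h1 := (dlz_pos hP (i.val : ℤ))
    have h2 : ¬ 0 < dlz (cU δ, cV δ n) (i.val : ℤ) := by
      intro h3
      have h4 := h1.1 h3
      change cU δ (i.val : ℤ) = cU δ ((i.val : ℤ) - 1) + 1 at h4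
      omega
    omega

theorem UVC_cU {n d p : ℕ} (hd : 1 ≤ d) {P : (ℤ → ℤ) × (ℤ → ℤ)} (hP : P ∈ GP n d p) :
    cU (dl d P) = P.1 := by
  have hst : ∀ i : ℤ, cU (dl d P) (i + 1) - cU (dl d P) i = P.1 (i + 1) - P.1 i := by
    intro i
    have h1 := cU_step (dl d P) i
    rw [dl_cast hd hP] at h1
    have h2 := dlz_pos hP (i + 1)
    rw [add_sub_cancel_right] at h2
    have h3 := hP.1.1.1 i
    rw [h1]
    split_ifs with h
    · have := h2.1 h
      omega
    · have h4 : ¬ P.1 (i + 1) = P.1 i + 1 := fun h5 => h (h2.2 h5)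
      omega
  funext i
  induction i using Int.induction_on with
  | zero => rw [cU_zero, hP.1.2]
  | succ i ih =>
    have := hst i
    omega
  | pred i ih =>
    have := hst (-(i : ℤ) - 1)
    rw [sub_add_cancel] at this
    omega

theorem UVC_cnt {n d p : ℕ} (hd : 1 ≤ d) {P : (ℤ → ℤ) × (ℤ → ℤ)} (hP : P ∈ GP n d p) (i : ℤ)
    (hVU : P.2 i ≤ P.1 i) (m : ℕ) :
    (((range m).filter (fun s : ℕ => s < dl d P ((i - s : ℤ) : ZMod d))).card : ℤ) =
      P.1 i - max (P.2 i) (P.1 (i - m)) := by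
  induction m with
  | zero => simp [max_eq_right hVU]
  | succ m ih =>
    rw [Finset.range_add_one, Finset.filter_insert]
    have h3 := hP.1.1.1 (i - ((m + 1 : ℕ) : ℤ))
    rw [show (i - ((m + 1 : ℕ) : ℤ) + 1 : ℤ) = i - m by push_cast; ring] at h3
    have h5 : (i - (m : ℤ) - 1 : ℤ) = i - ((m + 1 : ℕ) : ℤ) := by push_cast; ring
    have h6 : (i - (m : ℤ) + m : ℤ) = i := by ring
    have hmax1 := max_def (P.2 i) (P.1 (i - m))
    have hmax2 := max_def (P.2 i) (P.1 (i - ((m + 1 : ℕ) : ℤ)))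
    by_cases ht : P.1 (i - m) = P.1 (i - m - 1) + 1
    · have hle := dlz_le hP ht m
      rw [h6] at hle
      rw [h5] at ht
      rw [dl_cast hd hP]
      split_ifs with h
      · have h7 : ¬ P.1 (i - m) ≤ P.2 i := fun h8 => by
          have := hle.2 h8
          omega
        rw [Finset.card_insert_of_notMem (by simp), Nat.cast_add, Nat.cast_one, ih]
        rw [hmax1, hmax2]
        split_ifs <;> omega
      · have h7 : P.1 (i - m) ≤ P.2 i := hle.1 (by omega)
        rw [ih, hmax1, hmax2]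
        split_ifs <;> omega
    · have hz : ¬ 0 < dlz P (i - m) := fun h8 => ht ((dlz_pos hP _).1 h8)
      rw [dl_cast hd hP]
      rw [if_neg (by omega), ih]
      rw [h5] at ht
      have h9 : P.1 (i - m) = P.1 (i - ((m + 1 : ℕ) : ℤ)) := by omega
      rw [h9]

theorem UVC_low {n d p : ℕ} {P : (ℤ → ℤ) × (ℤ → ℤ)} (hP : P ∈ GP n d p) (i : ℤ) :
    P.1 (i - n) ≤ P.2 i := by
  have h1 := (hP.2.2 (i - n)).2
  rw [show (i - (n : ℤ) + n : ℤ) = i by ring] at h1
  have h2 : P.1 (i - n) ≤ P.1 i := UVA_mono (fun j => (hP.1.1.1 j).1) (by omega)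
  exact h1.trans (UVA_mono (fun j => (hP.2.1.1 j).1) (by omega))

theorem UVC_VU {n d p : ℕ} {P : (ℤ → ℤ) × (ℤ → ℤ)} (hP : P ∈ GP n d p) (i : ℤ) :
    P.2 i ≤ P.1 i := by
  have h1 := (hP.2.2 (i - 1)).1
  rw [sub_add_cancel] at h1
  have h2 := (hP.1.1.1 (i - 1)).1
  rw [sub_add_cancel] at h2
  exact h1.trans h2

theorem rt2 {n d p : ℕ} (hd : 1 ≤ d) {P : (ℤ → ℤ) × (ℤ → ℤ)} (hP : P ∈ GP n d p) :
    (cU (dl d P), cV (dl d P) n) = P := by
  refine Prod.ext (UVC_cU hd hP) ?_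
  funext i
  show cU (dl d P) i - cH (dl d P) n i = P.2 i
  have h1 := UVC_cnt hd hP i (UVC_VU hP i) n
  have h2 : cH (dl d P) n i =
    (((range n).filter (fun s : ℕ => s < dl d P ((i - s : ℤ) : ZMod d))).card : ℤ) := rfl
  rw [h2, h1, UVC_cU hd hP, max_eq_left (UVC_low hP i)]
  ring

end Pool.Agent.H63.CY
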