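import Pool.Agent.H63.CY.UVC

/-!
# UVD: counting

`TS n d` is the disjoint union over `p ≤ d` of `{δ ∈ TS n d : cp δ = p}`, and this set is in bijection with `GP n d p` by
`δ ↦ (cU δ, cV δ n)` (`cUV_mem`, `dl_mem`, `cp_dl`, `rt1`, `rt2`). `TS n d` is finite: `δ i ≤ z δ i n ≤ n`.
`GP n d 0` is a singleton (`U = 0`, `V` constant `≤ 0` and `≥ 0`); `GP n d d` is empty: `U i = i`, `V i = i + h`,
`V (i+1) ≤ U i` gives `h ≤ -1`, and `U i ≤ V (i + n - n)` gives `h ≥ 0`.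
-/

set_option autoImplicit false

open Finset

noncomputable section

namespace Pool.Agent.H63.CY

theorem UVD_grow {d p : ℕ} {U : ℤ → ℤ} (hU : U ∈ LF d p) (i : ℤ) (m : ℕ) :
    U i ≤ U (i + m) ∧ U (i + m) ≤ U i + m := by
  induction m with
  | zero => simp
  | succ m ih =>
    have h := hU.1 (i + m)
    have h2 : i + ((m + 1 : ℕ) : ℤ) = i + m + 1 := by push_cast; ring
    rw [h2]
    push_cast
    constructor
    · exact ih.1.trans h.1
    · linarith [ih.2, h.2]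

/-- a function with constant steps is linear -/
theorem UVD_lin {U : ℤ → ℤ} {c : ℤ} (h : ∀ i, U (i + 1) = U i + c) (i : ℤ) :
    U i = U 0 + c * i := by
  induction i using Int.induction_on with
  | zero => simp
  | succ i ih =>
    rw [h, ih]
    ring
  | pred i ih =>
    have h1 := h (-(i : ℤ) - 1)
    rw [sub_add_cancel, ih] at h1
    linarith

theorem UVD_const {d : ℕ} (hd : 1 ≤ d) {U : ℤ → ℤ} (hU : U ∈ LF d 0) (i : ℤ) : U i = U 0 := by
  have h : ∀ i, U (i + 1) = U i + 0 := by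
    intro i
    have h1 := hU.1 i
    have h2 := hU.2 i
    have h3 := (UVD_grow hU (i + 1) (d - 1)).1
    rw [show i + 1 + ((d - 1 : ℕ) : ℤ) = i + d by omega, h2] at h3
    simp only [Nat.cast_zero] at h3
    omega
  rw [UVD_lin h i]
  ring

theorem UVD_top {d : ℕ} (hd : 1 ≤ d) {U : ℤ → ℤ} (hU : U ∈ LF d d) (i : ℤ) : U i = U 0 + i := by
  have h : ∀ i, U (i + 1) = U i + 1 := by
    intro i
    have h1 := hU.1 i
    have h2 := hU.2 i
    have h3 := (UVD_grow hU (i + 1) (d - 1)).2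
    rw [show i + 1 + ((d - 1 : ℕ) : ℤ) = i + d by omega, h2] at h3
    omega
  rw [UVD_lin h i]
  ring

theorem TS_finite (n : ℕ) {d : ℕ} (hd : 1 ≤ d) : (TS n d).Finite := by
  have : NeZero d := ⟨by omega⟩
  have h1 : {δ : ZMod d → ℕ | ∀ i, δ i ∈ Set.Iic n}.Finite :=
    Set.Finite.pi' fun _ => Set.finite_Iic n
  exact h1.subset fun δ hδ i => UVA_le_n hδ i

theorem GP_zero (n : ℕ) {d : ℕ} (hd : 1 ≤ d) : (GP n d 0).ncard = 1 := by
  have h1 : GP n d 0 = {((fun _ => 0), (fun _ => 0))} := by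
    ext P
    rw [Set.mem_singleton_iff]
    constructor
    · rintro ⟨⟨hU, hU0⟩, hV, h⟩
      have h2 : ∀ i, P.1 i = 0 := fun i => by rw [UVD_const hd hU i, hU0]
      have h3 : ∀ i, P.2 i = P.2 0 := UVD_const hd hV
      have h4 := h 0
      rw [h2 0, h3 (0 + 1), h3 (0 + n - (P.1 (0 + n) - 0))] at h4
      have h5 : P.2 0 = 0 := le_antisymm h4.1 h4.2
      refine Prod.ext ?_ ?_
      · funext i
        exact h2 i
      · funext i
        show P.2 i = 0
        rw [h3 i, h5]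
    · rintro rfl
      refine ⟨⟨⟨fun i => ?_, fun i => ?_⟩, rfl⟩, ⟨fun i => ?_, fun i => ?_⟩, fun i => ?_⟩ <;> simp
  rw [h1, Set.ncard_singleton]

theorem GP_top (n : ℕ) {d : ℕ} (hd : 1 ≤ d) : (GP n d d).ncard = 0 := by
  have h1 : GP n d d = ∅ := by
    rw [Set.eq_empty_iff_forall_notMem]
    rintro P ⟨⟨hU, hU0⟩, hV, h⟩
    have h2 : ∀ i, P.1 i = i := fun i => by rw [UVD_top hd hU i, hU0, zero_add]
    have h3 : ∀ i, P.2 i = P.2 0 + i := UVD_top hd hV
    have h4 := h 0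
    rw [h2 0, h2 (0 + n), h3 (0 + 1), h3 (0 + n - (0 + n - 0))] at h4
    omega
  rw [h1, Set.ncard_empty]

theorem TS_card (n : ℕ) {d : ℕ} (hd : 1 ≤ d) : (TS n d).ncard = ∑ p ∈ range (d + 1), (GP n d p).ncard := by
  classical
  have : NeZero d := ⟨by omega⟩
  have hfin := TS_finite n hd
  rw [Set.ncard_eq_toFinset_card _ hfin]
  have h1 : ∀ δ ∈ hfin.toFinset, cp δ ∈ range (d + 1) := by
    intro δ _
    rw [mem_range, Nat.lt_succ_iff]
    unfold cp
    refine (Set.ncard_le_ncard (Set.subset_univ _) Set.finite_univ).trans ?_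
    rw [Set.ncard_univ, Nat.card_zmod]
  rw [Finset.card_eq_sum_card_fiberwise h1]
  refine Finset.sum_congr rfl fun p _ => ?_
  have h2 : (hfin.toFinset.filter (fun δ => cp δ = p)).card = {δ | δ ∈ TS n d ∧ cp δ = p}.ncard := by
    rw [← Set.ncard_coe_finset]
    congr 1
    ext δ
    simp
  rw [h2]
  refine Set.ncard_congr (fun δ _ => (cU δ, cV δ n)) ?_ ?_ ?_
  · rintro δ ⟨hδ, rfl⟩
    exact cUV_mem hd hδ
  · intro δ δ' hδ hδ' h
    have h3 := rt1 hd hδ.1
    have h4 := rt1 hd hδ'.1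
    rw [← h3, ← h4]
    exact congrArg (dl d) h
  · intro P hP
    exact ⟨dl d P, ⟨dl_mem hd hP, cp_dl hd hP⟩, rt2 hd hP⟩

end Pool.Agent.H63.CY
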