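import Pool.Agent.H63.CY.Defs

/-!
# WKA: standardization and permutations of a given order type

* `std_eq_iff`: (←) the filtered sets agree. (→) `x a < x b` implies `std x a < std x b` (the set for `a` is a proper subset of the set
  for `b`: `a` itself is new), so by trichotomy `x a < x b ↔ std x a < std x b`.
* `perm_exists`: the rank `a ↦ #{b : r b a}` is injective with values `< m` (if `r a b` then the set of `a` is a proper subset of the
  set of `b`), hence a bijection `Fin m → Fin m`; `r a b ↔ rank a < rank b`.
* `perm_unique`: `σ ∘ τ⁻¹` is strictly monotone from `Fin m` to itself, hence the identity (or: both are the rank function).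
-/

set_option autoImplicit false

open Finset

noncomputable section

namespace Pool.Agent.H63.CY

private theorem WKA_lt {m k : ℕ} {x : Fin m → Fin k} {a b : Fin m} (h : x a < x b) : std x a < std x b := by
  unfold std
  apply Finset.card_lt_card
  rw [Finset.ssubset_iff_of_subset]
  · exact ⟨a, by simp [h], by simp⟩
  · intro j hj
    simp only [Finset.mem_filter, Finset.mem_univ, true_and] at hj ⊢
    exact hj.trans h

private theorem WKA_iff {m k : ℕ} (x : Fin m → Fin k) (a b : Fin m) : x a < x b ↔ std x a < std x b := by
  refine ⟨WKA_lt, fun h => ?_⟩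
  rcases lt_trichotomy (x a) (x b) with h1 | h1 | h1
  · exact h1
  · exfalso
    unfold std at h
    rw [h1] at h
    exact lt_irrefl _ h
  · exact absurd (WKA_lt h1) (not_lt.2 h.le)

theorem std_eq_iff {m k : ℕ} {x y : Fin m → Fin k} (hx : Function.Injective x) (hy : Function.Injective y) :
    std x = std y ↔ ∀ a b, x a < x b ↔ y a < y b := by
  constructor
  · intro h a b
    rw [WKA_iff x, WKA_iff y, h]
  · intro h
    funext i
    unfold std
    congr 1
    ext j
    simp only [Finset.mem_filter, Finset.mem_univ, true_and]
    exact h j i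

theorem perm_exists {m : ℕ} (r : Fin m → Fin m → Prop) (h0 : ∀ a, ¬ r a a) (h1 : ∀ a b, a ≠ b → (r a b ↔ ¬ r b a))
    (h2 : ∀ a b c, r a b → r b c → r a c) : ∃ σ : Equiv.Perm (Fin m), ∀ a b, σ a < σ b ↔ r a b := by
  classical
  have hlt : ∀ a b, r a b → (univ.filter (fun c => r c a)).card < (univ.filter (fun c => r c b)).card := by
    intro a b hab
    apply Finset.card_lt_card
    rw [Finset.ssubset_iff_of_subset]
    · exact ⟨a, by simp [hab], by simp [h0]⟩
    · intro j hj
      simp only [Finset.mem_filter, Finset.mem_univ, true_and] at hj ⊢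
      exact h2 _ _ _ hj hab
  have hm : ∀ a, (univ.filter (fun c => r c a)).card < m := by
    intro a
    have h3 : (univ.filter (fun c => r c a)).card < (univ : Finset (Fin m)).card := by
      apply Finset.card_lt_card
      rw [Finset.ssubset_iff_of_subset (Finset.subset_univ _)]
      exact ⟨a, by simp, by simp [h0]⟩
    rwa [Finset.card_univ, Fintype.card_fin] at h3
  have hiff : ∀ a b, (univ.filter (fun c => r c a)).card < (univ.filter (fun c => r c b)).card ↔ r a b := by
    intro a b
    refine ⟨fun h => ?_, hlt a b⟩
    by_contra hc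
    by_cases hab : a = b
    · rw [hab] at h
      exact lt_irrefl _ h
    · have h4 : r b a := by
        by_contra h5
        exact hc ((h1 a b hab).2 h5)
      exact lt_irrefl _ (h.trans (hlt b a h4))
  let f : Fin m → Fin m := fun a => ⟨(univ.filter (fun c => r c a)).card, hm a⟩
  have hf : Function.Injective f := by
    intro a b hab
    by_contra hne
    have h6 : (univ.filter (fun c => r c a)).card = (univ.filter (fun c => r c b)).card := congrArg Fin.val hab
    by_cases h7 : r a b
    · exact absurd (hlt a b h7) (by rw [h6]; exact lt_irrefl _)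
    · have h8 : r b a := by
        by_contra h9
        exact h7 ((h1 a b hne).2 h9)
      exact absurd (hlt b a h8) (by rw [h6]; exact lt_irrefl _)
  refine ⟨Equiv.ofBijective f (Finite.injective_iff_bijective.1 hf), fun a b => ?_⟩
  exact hiff a b

theorem perm_unique {m : ℕ} {σ τ : Equiv.Perm (Fin m)} (h : ∀ a b, a < b → (σ b < σ a ↔ τ b < τ a)) : σ = τ := by
  have key : ∀ a b, σ a < σ b ↔ τ a < τ b := by
    intro a b
    rcases lt_trichotomy a b with hab | hab | hab
    · have h1 := h a b hab
      have h2 : σ a ≠ σ b := fun h3 => hab.ne (σ.injective h3)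
      have h4 : τ a ≠ τ b := fun h3 => hab.ne (τ.injective h3)
      constructor
      · intro h5
        rcases lt_or_gt_of_ne h4 with h6 | h6
        · exact h6
        · exact absurd (h1.2 h6) (not_lt.2 h5.le)
      · intro h5
        rcases lt_or_gt_of_ne h2 with h6 | h6
        · exact h6
        · exact absurd (h1.1 h6) (not_lt.2 h5.le)
    · rw [hab]
      exact ⟨fun h5 => absurd h5 (lt_irrefl _), fun h5 => absurd h5 (lt_irrefl _)⟩
    · exact h b a hab
  let e : Fin m ≃o Fin m :=
    { toEquiv := τ.symm.trans σ
      map_rel_iff' := by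
        intro x y
        have h1 := key (τ.symm y) (τ.symm x)
        rw [Equiv.apply_symm_apply, Equiv.apply_symm_apply] at h1
        show σ (τ.symm x) ≤ σ (τ.symm y) ↔ x ≤ y
        rw [← not_lt, ← not_lt, h1] }
  have he : e = OrderIso.refl (Fin m) := Subsingleton.elim _ _
  ext a
  have h2 : e (τ a) = τ a := by rw [he]; rfl
  have h3 : e (τ a) = σ a := by
    show σ (τ.symm (τ a)) = σ a
    rw [Equiv.symm_apply_apply]
  rw [← h3, h2]

end Pool.Agent.H63.CY
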